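import Pool.Agent.Lib.MP_d9f0ae_ag.Lg.Glo

/-! The Apery basis of the ring of functions regular away from a point. -/

namespace Pool.Agent.Lib.MP_d9f0ae_ag.LG
open WithZero Polynomial Finset Module

/-- A pointed function field with the function `x` of least pole order `m`. -/
structure Pt (K : Type*) {F : Type*} [Field K] [Field F] [Algebra K F] [Algebra (RatFunc K) F]
    (v : Valuation F (WithZero (Multiplicative ℤ))) (A : Subalgebra K F) (m : ℕ) : Prop where
  const : ∀ c : K, c ≠ 0 → v (algebraMap K F c) = 1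
  mpos : 0 < m
  vx : v (xx K F) = exp (m : ℤ)
  xmem : xx K F ∈ A
  zero : ∀ f ∈ A, v f < 1 → f = 0
  res : ∀ f, v f ≤ 1 → ∃ c : K, v (f - algebraMap K F c) < 1
  frac : ∀ f : F, ∃ q : K[X], q ≠ 0 ∧ aeval (xx K F) q * f ∈ A
  least : ∀ f ∈ A, ∀ n : ℕ, v f = exp (n : ℤ) → 0 < n → m ≤ n

/-- An Apery basis. -/
structure Ap (K : Type*) {F : Type*} [Field K] [Field F] [Algebra K F] [Algebra (RatFunc K) F]
    (v : Valuation F (WithZero (Multiplicative ℤ))) (A : Subalgebra K F) (m : ℕ) (ι : Type) where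
  y : Basis ι (RatFunc K) F
  w : ι → ℕ
  mem : ∀ a, y a ∈ A
  val : ∀ a, v (y a) = exp (w a : ℤ)
  inj : ∀ a b, w a % m = w b % m → a = b
  poly : ∀ f ∈ A, ∀ a, ∃ p : K[X], y.repr f a = algebraMap K[X] _ p
  one : ∀ a, w a = 0 → y a = 1

variable {K F : Type*} [Field K] [Field F] [Algebra K F] [Algebra (RatFunc K) F]
  [IsScalarTower K (RatFunc K) F] {v : Valuation F (WithZero (Multiplicative ℤ))}
  {A : Subalgebra K F} {m : ℕ}

namespace Pt
variable (h : Pt K v A m)
include h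

theorem const_le (c : K) : v (algebraMap K F c) ≤ 1 := by
  by_cases hc : c = 0
  · simp [hc]
  · exact (h.const c hc).le

theorem v_poly {p : K[X]} (hp : p ≠ 0) :
    v (aeval (xx K F) p) = exp ((m : ℤ) * p.natDegree) := by
  have : v.IsTrivialOn K := ⟨h.const⟩
  rw [valuation_aeval_eq_valuation_X_pow_natDegree_of_one_lt_valuation_X _ (by
    rw [h.vx, ← exp_zero, exp_lt_exp]; exact_mod_cast h.mpos) hp, h.vx, ← exp_nsmul]
  simp [mul_comm]

theorem v_rat {c : RatFunc K} (hc : c ≠ 0) :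
    v (algebraMap (RatFunc K) F c) = exp ((m : ℤ) * c.intDegree) := by
  rw [alg_eq, map_div₀, h.v_poly (RatFunc.num_ne_zero hc), h.v_poly c.denom_ne_zero, ← exp_sub,
    RatFunc.intDegree, mul_sub]

theorem aeval_mem (p : K[X]) : aeval (xx K F) p ∈ A := by
  have : aeval (xx K F) p ∈ Algebra.adjoin K {xx K F} := aeval_mem_adjoin_singleton K _
  exact Algebra.adjoin_le (Set.singleton_subset_iff.2 h.xmem) this

theorem exists_nat {f : F} (hf : f ∈ A) (h0 : f ≠ 0) : ∃ n : ℕ, v f = exp (n : ℤ) := by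
  have h1 : v f ≠ 0 := by simpa using h0
  have h2 : 1 ≤ v f := not_lt.1 fun e => h0 (h.zero f hf e)
  rw [← exp_log h1, ← exp_zero, exp_le_exp] at h2
  exact ⟨(log (v f)).toNat, by rw [Int.toNat_of_nonneg h2, exp_log h1]⟩

theorem reduce {f g : F} {n : ℤ} (hf : v f ≤ exp n) (hg : v g = exp n) :
    ∃ c : K, v (f - c • g) < exp n := by
  have hg0 : g ≠ 0 := fun e => by rw [e, map_zero] at hg; exact exp_ne_zero hg.symm
  obtain ⟨c, hc⟩ := h.res (f / g) (by rw [map_div₀, hg]; exact div_le_one_of_le₀ hf zero_le)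
  refine ⟨c, ?_⟩
  have : f - c • g = (f / g - algebraMap K F c) * g := by rw [Algebra.smul_def]; field_simp
  rw [this, map_mul, hg]
  exact mul_lt_of_lt_one_left exp_pos hc

theorem exists_max {ι : Type} [Fintype ι] (y : ι → F) (w : ι → ℕ)
    (val : ∀ a, v (y a) = exp (w a : ℤ)) (inj : ∀ a b, w a % m = w b % m → a = b)
    (c : ι → RatFunc K) (a : ι) :
    ∃ b, v (∑ a, c a • y a) = v (c b • y b) ∧ v (c a • y a) ≤ v (c b • y b) := by
  classical
  obtain ⟨b, -, hb⟩ := exists_max_image univ (fun a => v (c a • y a)) ⟨a, mem_univ a⟩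
  refine ⟨b, ?_, hb a (mem_univ a)⟩
  by_cases h0 : c b = 0
  · have : ∀ i, c i • y i = 0 := fun i => by simpa [h0] using hb i (mem_univ i)
    simp [this]
  refine v.map_sum_eq_of_lt (mem_univ b) fun i hi => lt_of_le_of_ne (hb i (mem_univ i)) fun e => ?_
  have hi0 : c i ≠ 0 := by
    rintro e0
    rw [e0, zero_smul, map_zero, Algebra.smul_def, map_mul, h.v_rat h0, val, ← exp_add] at e
    exact exp_ne_zero e.symm
  rw [Algebra.smul_def, Algebra.smul_def, map_mul, map_mul, h.v_rat h0, h.v_rat hi0, val, val,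
    ← exp_add, ← exp_add, exp_inj] at e
  have : ((w i % m : ℕ) : ℤ) = (w b % m : ℕ) := by
    push_cast
    rw [← Int.mul_add_emod_self_left m (c i).intDegree, e, Int.mul_add_emod_self_left]
  exact (by simpa using hi : i ≠ b) (inj i b (by exact_mod_cast this))

theorem exists_Ap_of {ι : Type} [Fintype ι] (y : ι → F) (w : ι → ℕ) (mem : ∀ a, y a ∈ A)
    (val : ∀ a, v (y a) = exp (w a : ℤ)) (inj : ∀ a b, w a % m = w b % m → a = b)
    (one : ∀ a, w a = 0 → y a = 1)
    (cov : ∀ f ∈ A, ∀ n : ℕ, v f = exp (n : ℤ) → ∃ a k, n = w a + m * k) :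
    ∃ B : Ap K v A m ι, (∀ a, B.y a = y a) ∧ B.w = w := by
  classical
  have li : LinearIndependent (RatFunc K) y := by
    rw [Fintype.linearIndependent_iff]
    intro c hc a
    obtain ⟨b, h1, h2⟩ := h.exists_max y w val inj c a
    rw [← h1, hc, map_zero, le_zero_iff, map_eq_zero, smul_eq_zero] at h2
    refine h2.resolve_right fun e => ?_
    have := val a
    rw [e, map_zero] at this
    exact exp_ne_zero this.symm
  have sp : ∀ n : ℕ, ∀ f ∈ A, v f < exp (n : ℤ) →
      ∃ p : ι → K[X], f = ∑ a, algebraMap K[X] (RatFunc K) (p a) • y a := by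
    intro n
    induction n with
    | zero => intro f hf h0; exact ⟨0, by simp [h.zero f hf (by simpa using h0)]⟩
    | succ n ih =>
      intro f hf h0
      have h1 : v f ≤ exp (n : ℤ) := by simpa using le_pred' h0
      rcases h1.lt_or_eq with h2 | h2
      · exact ih f hf h2
      obtain ⟨a, k, e⟩ := cov f hf n h2
      obtain ⟨c, hc⟩ := h.reduce (g := xx K F ^ k * y a) h1 (by
        rw [map_mul, map_pow, h.vx, val, ← exp_nsmul, ← exp_add, e]; congr 1; simp; ring)
      obtain ⟨p, hp⟩ := ih _ (sub_mem hf (A.smul_mem (mul_mem (pow_mem h.xmem k) (mem a)) c)) hc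
      refine ⟨p + Pi.single a (C c * X ^ k), ?_⟩
      simp only [Pi.add_apply, map_add, add_smul, sum_add_distrib, ← hp]
      rw [sum_eq_single a (fun b _ hb => by simp [hb]) (by simp), Pi.single_eq_same,
        Algebra.smul_def (algebraMap K[X] (RatFunc K) _), alg_poly, Algebra.smul_def]
      simp [mul_assoc]
  have sp' : ∀ f ∈ A, ∃ p : ι → K[X], f = ∑ a, algebraMap K[X] (RatFunc K) (p a) • y a := by
    intro f hf
    refine sp ((log (v f)).toNat + 1) f hf (le_exp_log.trans_lt (exp_lt_exp.2 ?_))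
    push_cast
    omega
  have top : ⊤ ≤ Submodule.span (RatFunc K) (Set.range y) := fun f _ => by
    obtain ⟨q, hq, hf⟩ := h.frac f
    obtain ⟨p, hp⟩ := sp' _ hf
    have h1 : f = (algebraMap K[X] (RatFunc K) q)⁻¹ • (aeval (xx K F) q * f) := by
      rw [Algebra.smul_def, map_inv₀, alg_poly, inv_mul_cancel_left₀ (aeval_ne hq)]
    rw [h1, hp]
    exact Submodule.smul_mem _ _ (sum_mem fun a _ =>
      Submodule.smul_mem _ _ (Submodule.subset_span ⟨a, rfl⟩))
  have e : ∀ a, Basis.mk li top a = y a := Basis.mk_apply li top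
  refine ⟨⟨Basis.mk li top, w, fun a => e a ▸ mem a, fun a => e a ▸ val a, inj, fun f hf a => ?_,
    fun a ha => e a ▸ one a ha⟩, e, rfl⟩
  obtain ⟨p, hp⟩ := sp' f hf
  refine ⟨p a, ?_⟩
  simp only [← e] at hp
  rw [hp, Basis.repr_sum_self]

theorem exists_Ap_aux : ∃ (ι : Type) (_ : Fintype ι), Nonempty (Ap K v A m ι) := by
  classical
  let P : Fin m → ℕ → Prop := fun r n => n % m = r ∧ ∃ f ∈ A, v f = exp (n : ℤ)
  have key : ∀ r : {r : Fin m // ∃ n, P r n}, ∃ f ∈ A, v f = exp (Nat.find r.2 : ℤ) ∧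
      (Nat.find r.2 = 0 → f = 1) := fun r => by
    by_cases h0 : Nat.find r.2 = 0
    · exact ⟨1, one_mem _, by simp [h0], fun _ => rfl⟩
    · obtain ⟨f, hf, e⟩ := (Nat.find_spec r.2).2
      exact ⟨f, hf, e, fun e => absurd e h0⟩
  choose y mem val one using key
  obtain ⟨B, -⟩ := h.exists_Ap_of y (fun r => Nat.find r.2) mem val (fun a b e => by
      rw [(Nat.find_spec a.2).1, (Nat.find_spec b.2).1] at e
      exact Subtype.ext (Fin.ext e)) one fun f hf n e => by
    have h1 : P ⟨n % m, Nat.mod_lt _ h.mpos⟩ n := ⟨rfl, f, hf, e⟩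
    have h2 := Nat.find_min' ⟨n, h1⟩ h1
    have h3 : Nat.find ⟨n, h1⟩ % m = n % m := (Nat.find_spec ⟨n, h1⟩).1
    obtain ⟨k, hk⟩ := (Nat.modEq_iff_dvd' h2).1 h3
    exact ⟨⟨_, n, h1⟩, k, by simp only; omega⟩
  exact ⟨_, inferInstance, ⟨B⟩⟩

end Pt

namespace Ap
variable {ι : Type} [Fintype ι] (B : Ap K v A m ι) (h : Pt K v A m)
include B h

omit h in
theorem y_ne (a : ι) : B.y a ≠ 0 := B.y.ne_zero a

theorem repr_le (f : F) (a : ι) :
    v (algebraMap (RatFunc K) F (B.y.repr f a)) * exp (B.w a : ℤ) ≤ v f := by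
  obtain ⟨b, h1, h2⟩ := h.exists_max B.y B.w B.val B.inj (B.y.repr f) a
  rwa [← h1, B.y.sum_repr, Algebra.smul_def, map_mul, B.val] at h2

theorem exists_val {f : F} (hf : f ≠ 0) : ∃ a, B.y.repr f a ≠ 0 ∧
    v f = exp ((B.w a : ℤ) + m * (B.y.repr f a).intDegree) := by
  have : Nonempty ι := B.y.index_nonempty
  obtain ⟨b, h1, -⟩ := h.exists_max B.y B.w B.val B.inj (B.y.repr f) (Classical.arbitrary ι)
  rw [B.y.sum_repr] at h1
  have h2 : B.y.repr f b ≠ 0 := fun e => hf (by simpa [e] using h1)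
  exact ⟨b, h2, by rw [h1, Algebra.smul_def, map_mul, h.v_rat h2, B.val, ← exp_add, add_comm]⟩

theorem cover {f : F} (hf : f ∈ A) {n : ℕ} (e : v f = exp (n : ℤ)) :
    ∃ a k, n = B.w a + m * k := by
  obtain ⟨a, -, h1⟩ := B.exists_val h (f := f)
    fun e0 => by rw [e0, map_zero] at e; exact exp_ne_zero e.symm
  obtain ⟨p, hp⟩ := B.poly f hf a
  rw [hp, RatFunc.intDegree_polynomial, e, exp_inj] at h1
  exact ⟨a, p.natDegree, by exact_mod_cast h1⟩

theorem exists_zero : ∃ a, B.w a = 0 := by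
  obtain ⟨a, k, e⟩ := B.cover h (one_mem A) (n := 0) (by simp)
  exact ⟨a, by omega⟩

theorem not_dvd {a : ι} (ha : B.w a ≠ 0) : ¬ m ∣ B.w a := fun e => by
  obtain ⟨b, hb⟩ := B.exists_zero h
  rw [B.inj a b (by rw [hb, Nat.mod_eq_zero_of_dvd e, Nat.zero_mod])] at ha
  exact ha hb

theorem exists_neg (a : ι) : ∃ b, m ∣ B.w a + B.w b := by
  obtain ⟨n, rfl⟩ : ∃ n, m = n + 1 := ⟨m - 1, by have := h.mpos; omega⟩
  obtain ⟨b, k, e⟩ := B.cover h (pow_mem (B.mem a) n) (n := n * B.w a)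
    (by rw [map_pow, B.val, ← exp_nsmul]; simp)
  refine ⟨b, (Nat.dvd_add_left (Dvd.intro k rfl)).1 ⟨B.w a, ?_⟩⟩
  rw [add_assoc, ← e]
  ring

omit h in
theorem neg_unique {a b c : ι} (h1 : m ∣ B.w a + B.w b) (h2 : m ∣ B.w a + B.w c) : b = c :=
  B.inj b c (Nat.ModEq.add_left_cancel' (B.w a)
    ((Nat.modEq_zero_iff_dvd.2 h1).trans (Nat.modEq_zero_iff_dvd.2 h2).symm))

theorem card_le : Fintype.card ι ≤ m := by
  simpa using Fintype.card_le_of_injective
    (fun a => (⟨B.w a % m, Nat.mod_lt _ h.mpos⟩ : Fin m)) fun a b e => B.inj a b (Fin.mk.inj e)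

theorem trace_le (f : F) : v (algebraMap (RatFunc K) F (Algebra.trace (RatFunc K) F f)) ≤ v f := by
  classical
  rw [Algebra.trace_eq_matrix_trace B.y, Matrix.trace, map_sum]
  refine v.map_sum_le fun a _ => ?_
  have := B.repr_le h (f * B.y a) a
  rw [v.map_mul, B.val] at this
  rw [Matrix.diag_apply, Algebra.leftMulMatrix_eq_repr_mul]
  exact le_of_mul_le_mul_right this exp_pos

omit h in
theorem trace_poly {f : F} (hf : f ∈ A) :
    ∃ p : K[X], Algebra.trace (RatFunc K) F f = algebraMap K[X] _ p := by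
  classical
  choose p hp using fun a => B.poly _ (mul_mem hf (B.mem a)) a
  refine ⟨∑ a, p a, ?_⟩
  rw [Algebra.trace_eq_matrix_trace B.y, Matrix.trace, map_sum]
  exact sum_congr rfl fun a _ => by rw [Matrix.diag_apply, Algebra.leftMulMatrix_eq_repr_mul, hp]

theorem trace_lt {f : F} {n : ℤ} (hf : v f = exp n) (hn : ¬ (m : ℤ) ∣ n) :
    v (algebraMap (RatFunc K) F (Algebra.trace (RatFunc K) F f)) < exp n := by
  refine lt_of_le_of_ne (hf ▸ B.trace_le h f) fun e => ?_
  by_cases h0 : Algebra.trace (RatFunc K) F f = 0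
  · rw [h0, map_zero, map_zero] at e
    exact exp_ne_zero e.symm
  · rw [h.v_rat h0, exp_inj] at e
    exact hn ⟨_, e.symm⟩

theorem trace_eq [CharZero K] {f : F} {n : ℤ} (hf : v f = exp n) (hn : (m : ℤ) ∣ n) :
    v (algebraMap (RatFunc K) F (Algebra.trace (RatFunc K) F f)) = exp n := by
  obtain ⟨k, rfl⟩ := hn
  have h1 : v (xx K F ^ k) = exp ((m : ℤ) * k) := by
    rw [map_zpow₀, h.vx, ← exp_zsmul]; simp [mul_comm]
  obtain ⟨c, hc⟩ := h.reduce hf.le h1
  have hc0 : c ≠ 0 := by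
    rintro rfl
    rw [zero_smul, sub_zero, hf] at hc
    exact lt_irrefl _ hc
  have : Nonempty ι := B.y.index_nonempty
  have h2 : algebraMap (RatFunc K) F (Algebra.trace (RatFunc K) F (c • xx K F ^ k)) =
      algebraMap K F (Fintype.card ι * c) * xx K F ^ k := by
    have : c • xx K F ^ k = algebraMap (RatFunc K) F (algebraMap K _ c * RatFunc.X ^ k) := by
      rw [map_mul, alg_const, map_zpow₀, Algebra.smul_def, xx]
    rw [this, Algebra.trace_algebraMap_of_basis B.y, map_nsmul, ← this, Algebra.smul_def c,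
      nsmul_eq_mul, map_mul, map_natCast, mul_assoc]
  have h3 : v (algebraMap K F (Fintype.card ι * c) * xx K F ^ k) = exp ((m : ℤ) * k) := by
    rw [map_mul, h.const _ (mul_ne_zero (by exact_mod_cast Fintype.card_ne_zero) hc0), h1, one_mul]
  rw [show f = c • xx K F ^ k + (f - c • xx K F ^ k) by ring, map_add, map_add, h2,
    v.map_add_eq_of_lt_left (h3 ▸ (B.trace_le h _).trans_lt hc), h3]

end Ap

theorem Pt.exists_Ap [CharZero K] (h : Pt K v A m) : ∃ (ι : Type) (_ : Fintype ι)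
    (B : Ap K v A m ι), ∀ a, B.w a ≠ 0 → Algebra.trace (RatFunc K) F (B.y a) = 0 := by
  classical
  obtain ⟨ι, _, ⟨B⟩⟩ := h.exists_Ap_aux
  have : Nonempty ι := B.y.index_nonempty
  have hc : (Fintype.card ι : K) ≠ 0 := by exact_mod_cast Fintype.card_ne_zero
  let z : ι → F := fun a => if B.w a = 0 then 0 else
    (Fintype.card ι : K)⁻¹ • algebraMap (RatFunc K) F (Algebra.trace (RatFunc K) F (B.y a))
  obtain ⟨B', e1, e2⟩ := h.exists_Ap_of (fun a => B.y a - z a) B.w (fun a => by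
      refine sub_mem (B.mem a) ?_
      simp only [z]
      split_ifs
      · exact zero_mem _
      · obtain ⟨p, hp⟩ := B.trace_poly (B.mem a)
        rw [hp, alg_poly]
        exact A.smul_mem (h.aeval_mem p) _)
    (fun a => by
      rw [← B.val, v.map_sub_eq_of_lt_left]
      simp only [z, B.val]
      split_ifs with h0
      · simp [exp_pos]
      · rw [Algebra.smul_def, map_mul]
        exact (mul_le_of_le_one_left' (h.const_le _)).trans_lt (B.trace_lt h (B.val a)
          (by exact_mod_cast B.not_dvd h h0))) B.inj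
    (fun a ha => by simp [z, ha, B.one a ha]) fun f hf n e => B.cover h hf e
  refine ⟨ι, inferInstance, B', fun a ha => ?_⟩
  rw [e2] at ha
  rw [e1, map_sub]
  simp only [z, ha, if_false]
  rw [LinearMap.map_smul_of_tower, Algebra.trace_algebraMap_of_basis B.y,
    ← Nat.cast_smul_eq_nsmul K, smul_smul, inv_mul_cancel₀ hc, one_smul, sub_self]

end Pool.Agent.Lib.MP_d9f0ae_ag.LG
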