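import Pool.Agent.Lib.MP_d9f0ae_ag.Lg.Glo

/-! Existence and uniqueness of extensions of derivations in characteristic zero. -/

namespace Pool.Agent.Lib.MP_d9f0ae_ag.LG
open Polynomial

theorem exists_ext_alg {S T : Type*} [CommRing S] [IsDomain S] [Field T] [CharZero T]
    [Algebra S T] [FaithfulSMul S T] [Algebra.IsAlgebraic S T] (D0 : Derivation ℤ S T) :
    ∃ D : Derivation ℤ T T, ∀ s, D (algebraMap S T s) = D0 s := by
  let := FractionRing.liftAlgebra S T
  have := FractionRing.isScalarTower_liftAlgebra S T
  have : Algebra.IsAlgebraic (FractionRing S) T :=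
    (IsFractionRing.comap_isAlgebraic_iff (A := S) (K := FractionRing S)).1 inferInstance
  have : CharZero (FractionRing S) := (algebraMap (FractionRing S) T).charZero
  have h1 : Algebra.FormallyEtale S (FractionRing S) :=
    Algebra.FormallyEtale.of_isLocalization (nonZeroDivisors S)
  have h2 : Algebra.FormallyEtale (FractionRing S) T := Algebra.FormallyEtale.of_isSeparable _ _
  have : Algebra.FormallyEtale S T := Algebra.FormallyEtale.comp S (FractionRing S) T
  have hb := KaehlerDifferential.isBaseChange_of_formallyEtale ℤ S T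
  refine ⟨(hb.lift D0.liftKaehlerDifferential).compDer (KaehlerDifferential.D ℤ T), fun s => ?_⟩
  change hb.lift D0.liftKaehlerDifferential (KaehlerDifferential.D ℤ T _) = _
  rw [← KaehlerDifferential.map_D ℤ ℤ S T, hb.lift_eq, Derivation.liftKaehlerDifferential_comp_D]

theorem exists_der_of_transcendental {S T : Type*} [CommRing S] [IsDomain S] [Field T]
    [CharZero T] [Algebra S T] {z : T} (hz : Transcendental S z) :
    ∃ D : Derivation ℤ T T, (∀ s, D (algebraMap S T s) = 0) ∧ D z = 1 := by
  classical
  have h1 : AlgebraicIndepOn S id ({z} : Set T) :=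
    (algebraicIndependent_singleton_iff (⟨z, rfl⟩ : ({z} : Set T))).2 hz
  obtain ⟨t, hzt, ht⟩ := exists_isTranscendenceBasis_superset h1
  let : Algebra (MvPolynomial t S) T := (MvPolynomial.aeval ((↑) : t → T)).toRingHom.toAlgebra
  have e : ∀ p : MvPolynomial t S, algebraMap _ T p = MvPolynomial.aeval ((↑) : t → T) p :=
    fun _ => rfl
  have : IsScalarTower S (MvPolynomial t S) T := .of_algebraMap_eq fun s => by rw [e]; simp
  have : FaithfulSMul (MvPolynomial t S) T := (faithfulSMul_iff_algebraMap_injective _ _).2 ht.1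
  have := ht.isAlgebraic
  have : Algebra.IsAlgebraic (MvPolynomial t S) T :=
    Algebra.IsAlgebraic.of_ringHom_of_comp_eq
      (S := Algebra.adjoin S (Set.range ((↑) : t → T))) ht.1.aevalEquiv.toAlgHom (RingHom.id T)
      ht.1.aevalEquiv.surjective Function.injective_id (RingHom.ext fun p =>
        ht.1.algebraMap_aevalEquiv p)
  obtain ⟨D, hD⟩ := exists_ext_alg ((MvPolynomial.mkDerivation S
    fun i : t => if (i : T) = z then (1 : T) else 0).restrictScalars ℤ)
  refine ⟨D, fun s => ?_, ?_⟩
  · rw [IsScalarTower.algebraMap_apply S (MvPolynomial t S) T, hD]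
    exact Derivation.map_algebraMap _ s
  · have := hD (MvPolynomial.X ⟨z, hzt rfl⟩)
    rw [e, MvPolynomial.aeval_X] at this
    exact this.trans ((MvPolynomial.mkDerivation_X S _ _).trans (if_pos rfl))

/-- Parameters of a derivation: its restriction to `K` and the value `a + b x` at `x`. -/
abbrev Par (K : Type*) [Field K] := Derivation ℤ K K × K × K

variable {K : Type*} (L : Type*) [Field K] [Field L] [Algebra K L] [Algebra (RatFunc K) L]
  [IsScalarTower K (RatFunc K) L] [CharZero K] [Algebra.IsAlgebraic (RatFunc K) L]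

theorem exists_dd (d : Par K) : ∃ D : Derivation ℤ L L,
    (∀ c, D (algebraMap K L c) = algebraMap K L (d.1 c)) ∧
      D (xx K L) = algebraMap K L d.2.1 + algebraMap K L d.2.2 * xx K L := by
  have : CharZero L := charZero_of_injective_algebraMap (algebraMap K L).injective
  let : Algebra K[X] L := ((algebraMap (RatFunc K) L).comp (algebraMap K[X] _)).toAlgebra
  have : IsScalarTower K[X] (RatFunc K) L := .of_algebraMap_eq' rfl
  have e : ∀ p : K[X], algebraMap K[X] L p = aeval (xx K L) p := alg_poly
  have : FaithfulSMul K[X] L := (faithfulSMul_iff_algebraMap_injective _ _).2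
    ((algebraMap (RatFunc K) L).injective.comp (IsFractionRing.injective K[X] (RatFunc K)))
  have : Algebra.IsAlgebraic K[X] L :=
    (IsFractionRing.comap_isAlgebraic_iff (A := K[X]) (K := RatFunc K)).2 inferInstance
  let : Differential K := ⟨d.1⟩
  obtain ⟨D, hD⟩ := exists_ext_alg ((Algebra.linearMap K[X] L).compDer
    (Differential.implicitDeriv (C d.2.1 + C d.2.2 * X)))
  refine ⟨D, fun c => ?_, ?_⟩
  · have := hD (C c)
    rw [e, aeval_C] at this
    rw [this]
    change algebraMap K[X] L (Differential.implicitDeriv _ (C c)) = _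
    rw [Differential.implicitDeriv_C, e, aeval_C]
    rfl
  · have := hD X
    rw [e, aeval_X] at this
    rw [this]
    change algebraMap K[X] L (Differential.implicitDeriv _ X) = _
    rw [Differential.implicitDeriv_X, e]
    simp

/-- The derivation of `L` with the given parameters. -/
noncomputable def dd (d : Par K) : Derivation ℤ L L := (exists_dd L d).choose

variable {L}

theorem dd_const (d : Par K) (c : K) : dd L d (algebraMap K L c) = algebraMap K L (d.1 c) :=
  (exists_dd L d).choose_spec.1 c

theorem dd_x (d : Par K) :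
    dd L d (xx K L) = algebraMap K L d.2.1 + algebraMap K L d.2.2 * xx K L :=
  (exists_dd L d).choose_spec.2

/-- The value at `t` of the derivative of `x - t`. -/
def eps (t : K) : Par K →ₗ[K] K where
  toFun d := d.2.1 + d.2.2 * t - d.1 t
  map_add' d e := by simp; ring
  map_smul' c d := by simp; ring

theorem eps_apply (t : K) (d : Par K) : eps t d = d.2.1 + d.2.2 * t - d.1 t := rfl

theorem dd_uu (d : Par K) (t : K) :
    dd L d (uu L t) = algebraMap K L (eps t d) + algebraMap K L d.2.2 * uu L t := by
  rw [uu, map_sub, dd_x, dd_const, eps_apply]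
  simp only [map_sub, map_add, map_mul]
  ring

theorem twisted_aeval {R F Ω : Type*} [CommRing R] [CommRing F] [CommRing Ω] [Algebra R F]
    (σ : F →+* Ω) (δ : F →+ Ω) (h : ∀ f g, δ (f * g) = σ f * δ g + σ g * δ f)
    (h0 : ∀ c, δ (algebraMap R F c) = 0) (f : F) (p : R[X]) :
    δ (aeval f p) = σ (aeval f (derivative p)) * δ f := by
  induction p using Polynomial.induction_on with
  | C a => simp [h0]
  | add p q hp hq => simp [hp, hq, add_mul]
  | monomial n a ih =>
    rw [pow_succ, ← mul_assoc]
    generalize C a * X ^ n = q at ih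
    rw [map_mul, h, ih, derivative_mul]
    simp only [aeval_X, derivative_X, map_add, map_mul, mul_one]
    ring

theorem twisted_zero {Ω : Type*} [Field Ω] (σ : L →+* Ω) (δ : L →+ Ω)
    (h : ∀ f g, δ (f * g) = σ f * δ g + σ g * δ f) (h0 : ∀ c, δ (algebraMap K L c) = 0)
    (hx : δ (xx K L) = 0) (f : L) : δ f = 0 := by
  have h1 : ∀ p : K[X], δ (aeval (xx K L) p) = 0 := fun p => by
    rw [twisted_aeval σ δ h h0, hx, mul_zero]
  have h2 : ∀ c : RatFunc K, δ (algebraMap _ L c) = 0 := fun c => by
    have h3 := h (algebraMap _ L c) (aeval (xx K L) c.denom)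
    have h4 : aeval (xx K L) c.denom ≠ 0 := aeval_ne c.denom_ne_zero
    rw [h1, mul_zero, zero_add] at h3
    nth_rewrite 1 [alg_eq] at h3
    rw [div_mul_cancel₀ _ h4, h1] at h3
    exact (mul_eq_zero.1 h3.symm).resolve_left (by simpa using h4)
  have h3 := twisted_aeval σ δ h h2 f (minpoly (RatFunc K) f)
  rw [minpoly.aeval, map_zero] at h3
  refine (mul_eq_zero.1 h3.symm).resolve_left ?_
  have := (Algebra.IsSeparable.isSeparable (RatFunc K) f).aeval_derivative_ne_zero
    (minpoly.aeval _ f)
  simpa using this

theorem dd_comm {Ω : Type*} [Field Ω] [Algebra K Ω] [Algebra (RatFunc K) Ω]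
    [IsScalarTower K (RatFunc K) Ω] [Algebra.IsAlgebraic (RatFunc K) Ω]
    (σ : L →ₐ[RatFunc K] Ω) (d : Par K) (f : L) : dd Ω d (σ f) = σ (dd L d f) := by
  have hc : ∀ c : K, σ (algebraMap K L c) = algebraMap K Ω c := fun c => by
    rw [← alg_const, AlgHom.commutes, alg_const]
  have hx : σ (xx K L) = xx K Ω := σ.commutes _
  let δ : L →+ Ω := AddMonoidHom.mk' (fun f => dd Ω d (σ f) - σ (dd L d f)) fun a b => by
    simp only [map_add]; ring
  refine sub_eq_zero.1 (twisted_zero (K := K) σ.toRingHom δ (fun f g => ?_) (fun c => ?_) ?_ f)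
  · simp only [δ, AddMonoidHom.mk'_apply, map_mul, Derivation.leibniz, smul_eq_mul, map_add,
      AlgHom.toRingHom_eq_coe, RingHom.coe_coe]
    ring
  · simp only [δ, AddMonoidHom.mk'_apply, hc, dd_const, sub_self]
  · simp only [δ, AddMonoidHom.mk'_apply, hx, dd_x, map_add, map_mul, hc, sub_self]

theorem der_ext {D E : Derivation ℤ L L} (h0 : ∀ c, D (algebraMap K L c) = E (algebraMap K L c))
    (hx : D (xx K L) = E (xx K L)) (f : L) : D f = E f := by
  let δ : L →+ L := AddMonoidHom.mk' (fun f => D f - E f) fun a b => by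
    simp only [map_add]; ring
  refine sub_eq_zero.1 (twisted_zero (K := K) (RingHom.id L) δ (fun f g => ?_) (fun c => ?_) ?_ f)
  · simp only [δ, AddMonoidHom.mk'_apply, Derivation.leibniz, smul_eq_mul, RingHom.id_apply]
    ring
  · simp only [δ, AddMonoidHom.mk'_apply, h0, sub_self]
  · simp only [δ, AddMonoidHom.mk'_apply, hx, sub_self]

theorem dd_add (d e : Par K) (f : L) : dd L (d + e) f = dd L d f + dd L e f :=
  der_ext (K := K) (E := dd L d + dd L e) (fun c => by simp [dd_const])
    (by simp [dd_x]; ring) f

theorem dd_smul (c : K) (d : Par K) (f : L) : dd L (c • d) f = algebraMap K L c * dd L d f :=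
  der_ext (K := K) (E := algebraMap K L c • dd L d) (fun c => by simp [dd_const, Algebra.smul_def])
    (by simp [dd_x, Algebra.smul_def]; ring) f

/-- The parameters of differentiation with respect to `x`. -/
def dx (K : Type*) [Field K] : Par K := (0, 1, 0)

theorem eps_dx (t : K) : eps t (dx K) = 1 := by simp [eps_apply, dx]

theorem dx_const (c : K) : dd L (dx K) (algebraMap K L c) = 0 := by simp [dd_const, dx]

theorem dx_uu (t : K) : dd L (dx K) (uu L t) = 1 := by simp [dd_uu, eps_apply, dx]

/-- The constants of differentiation with respect to `x` are the elements of `K`. -/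
theorem dx_eq_zero [IsAlgClosed K] {z : L} (hz : dd L (dx K) z = 0) :
    ∃ c : K, z = algebraMap K L c := by
  have : CharZero L := charZero_of_injective_algebraMap (algebraMap K L).injective
  have h1 : IsAlgebraic K z := by
    by_contra h
    obtain ⟨D, hD, hz1⟩ := exists_der_of_transcendental (T := L) h
    have := der_ext (K := K) (D := D) (E := D (xx K L) • dd L (dx K))
      (fun c => by simp [hD, dx_const]) (by simp [dd_x, dx]) z
    simp [hz1, hz] at this
  obtain ⟨x, rfl⟩ := minpoly.mem_range_of_degree_eq_one K z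
    (IsAlgClosed.degree_eq_one_of_irreducible K (minpoly.irreducible h1.isIntegral))
  exact ⟨x, rfl⟩

end Pool.Agent.Lib.MP_d9f0ae_ag.LG
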