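import Pool.Agent.Lib.MP_d9f0ae_ag.Lg.Sim

/-! Descent: a basis of the ring killed by all derivations that fix the branch points. -/

namespace Pool.Agent.Lib.MP_d9f0ae_ag.LG
open WithZero Polynomial Finset Module

variable {K F Ω : Type*} [Field K] [Field F] [Algebra K F] [Algebra (RatFunc K) F]
  [IsScalarTower K (RatFunc K) F] {v : Valuation F (WithZero (Multiplicative ℤ))}
  {A : Subalgebra K F} {m : ℕ}

theorem Pt.mem_span (h : Pt K v A m) (S : Set ℕ)
    (hS : ∀ f ∈ A, ∀ n : ℕ, v f = exp (n : ℤ) → n ∈ S) (b : S → A)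
    (hb : ∀ s, v (b s : F) = exp ((s : ℕ) : ℤ)) (n : ℕ) (f : A) (hf : v (f : F) < exp (n : ℤ)) :
    f ∈ Submodule.span K (b '' {s | (s : ℕ) < n}) := by
  induction n generalizing f with
  | zero => rw [show f = 0 from Subtype.ext (h.zero f f.2 (by simpa using hf))]; exact zero_mem _
  | succ n ih =>
    have mono : Submodule.span K (b '' {s | (s : ℕ) < n}) ≤
        Submodule.span K (b '' {s | (s : ℕ) < n + 1}) :=
      Submodule.span_mono (Set.image_mono fun s (hs : (s : ℕ) < n) => Nat.lt_succ_of_lt hs)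
    have h1 : v (f : F) ≤ exp (n : ℤ) := by simpa using le_pred' hf
    rcases h1.lt_or_eq with h2 | h2
    · exact mono (ih f h2)
    obtain ⟨c, hc⟩ := h.reduce h1 (hb ⟨n, hS f f.2 n h2⟩)
    rw [← sub_add_cancel f (c • b ⟨n, hS f f.2 n h2⟩)]
    exact add_mem (mono (ih _ hc))
      (Submodule.smul_mem _ _ (Submodule.subset_span ⟨_, Nat.lt_succ_self n, rfl⟩))

theorem Pt.exists_basis (h : Pt K v A m) (S : Set ℕ)
    (hS : ∀ f ∈ A, ∀ n : ℕ, v f = exp (n : ℤ) → n ∈ S) (b : S → A)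
    (hb : ∀ s, v (b s : F) = exp ((s : ℕ) : ℤ)) : ∃ B : Basis S K A, ∀ s, B s = b s := by
  classical
  have li : LinearIndependent K b := by
    rw [linearIndependent_iff']
    intro t g e
    by_contra hn
    push Not at hn
    obtain ⟨j, hj, hmax⟩ := exists_max_image (t.filter fun i => g i ≠ 0) (fun i => (i : ℕ))
      (by obtain ⟨i, hi, hi'⟩ := hn; exact ⟨i, mem_filter.2 ⟨hi, hi'⟩⟩)
    obtain ⟨j1, j2⟩ := mem_filter.1 hj
    have k : ∀ i, g i ≠ 0 → v (g i • (b i : F)) = exp ((i : ℕ) : ℤ) := fun i hi => by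
      rw [Algebra.smul_def, map_mul, h.const _ hi, hb, one_mul]
    have e' : ∑ i ∈ t, g i • (b i : F) = 0 := by simpa using congrArg Subtype.val e
    have := v.map_sum_eq_of_lt (f := fun i => g i • (b i : F)) j1 fun i hi => by
      rw [k j j2]
      by_cases h0 : g i = 0
      · simp [h0, exp_pos]
      · have h1 := hmax i (mem_filter.2 ⟨(mem_sdiff.1 hi).1, h0⟩)
        have h2 : (i : ℕ) ≠ j := fun e => (mem_sdiff.1 hi).2 (by simp [Subtype.ext e])
        rw [k i h0, exp_lt_exp]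
        omega
    rw [e', k j j2, map_zero] at this
    exact exp_ne_zero this.symm
  refine ⟨Basis.mk li fun f _ => ?_, fun s => Basis.mk_apply _ _ _⟩
  refine Submodule.span_mono (Set.image_subset_range _ _) (h.mem_span S hS b hb
    ((log (v (f : F))).toNat + 1) f (le_exp_log.trans_lt (exp_lt_exp.2 ?_)))
  push_cast
  omega

variable [CharZero K] [Field Ω] [Algebra K Ω] [Algebra (RatFunc K) Ω]
  [IsScalarTower K (RatFunc K) Ω] [FiniteDimensional (RatFunc K) Ω] [IsGalois (RatFunc K) Ω]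
  [IsAlgClosed K] [FiniteDimensional (RatFunc K) F]

namespace Ap
variable {ι : Type} [Fintype ι] [DecidableEq ι] (B : Ap K v A m ι)
  (E : Em (RatFunc K) F Ω ι) (P : Pl K Ω) (h : Pt K v A m) (hA : IC A)
  {T : Matrix ι ι K[X]} (hT : ∀ a b,
  Algebra.trace (RatFunc K) F (B.y a * B.y b) = algebraMap K[X] _ (T a b))

include B in
theorem eq_zero_of_vanish {s : ℕ → K} (hs : Function.Injective s) {f : F} (hf : f ∈ A) (i : ι)
    (h0 : ∀ n, P.ν (s n) (E.σ i f) < 1) : f = 0 := by
  have : Nonempty ι := ⟨i⟩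
  obtain ⟨p, -, -, hp⟩ := E.exists_charpoly f
  obtain ⟨q, hq⟩ := P.poly_of_le (c := p.coeff 0) fun t => by
    rw [← coeff_map, hp]; exact coeff_prod_le _ _ (B.fin_le E P hf t) 0
  have h1 : aeval (xx K Ω) q = ∏ j, -E.σ j f := by
    rw [← alg_poly, ← hq, ← coeff_map, hp, coeff_zero_eq_eval_zero, eval_prod]
    simp
  have h2 : q = 0 := eq_zero_of_infinite_isRoot q ((Set.infinite_range_of_injective hs).mono <| by
    rintro _ ⟨n, rfl⟩
    by_contra hn
    refine (P.fin_one hn).not_lt ?_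
    rw [h1, map_prod, ← mul_prod_erase _ _ (mem_univ i), Valuation.map_neg]
    exact (mul_le_of_le_one_right' (prod_le_one' fun j _ => by
      rw [Valuation.map_neg]; exact B.fin_le E P hf _ j)).trans_lt (h0 n))
  rw [h2, map_zero] at h1
  obtain ⟨j, -, hj⟩ := prod_eq_zero_iff.1 h1.symm
  simpa using hj

include B E P h hA hT in
theorem exists_flat (Δ : Set (Par K)) (h1 : ∀ d ∈ Δ, ∀ t, T.det.eval t = 0 → eps t d = 0)
    {s : ℕ → K} (hs : Function.Injective s) (h2 : ∀ d ∈ Δ, ∀ n, eps (s n) d = 0)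
    {f : F} (hf : f ∈ A) {n : ℕ} (hn : v f = exp (n : ℤ)) :
    ∃ g ∈ A, v g = exp (n : ℤ) ∧ ∀ d ∈ Δ, dd F d g = 0 := by
  classical
  obtain ⟨i⟩ := B.y.index_nonempty
  have hmem : ∀ d ∈ Δ, ∀ f ∈ A, dd F d f ∈ A := fun d hd f hf =>
    B.mem_of_le E P h hA fun t j => by
      rw [← dd_comm]
      by_cases ht : T.det.eval t = 0
      · exact (P.fin_log (h1 d hd t ht) _).trans (B.fin_le E P hf t j)
      · exact P.fin_unram d (B.unram E P hT ht) (B.fin_le E P hf t j)
  choose r hr using fun (f : A) k => (P.hν (s k)).res _ (B.fin_le E P f.2 (s k) i)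
  have uniq : ∀ (f : A) k c, P.ν (s k) (E.σ i f - algebraMap K Ω c) < 1 → r f k = c :=
    fun f k c hc => sub_eq_zero.1 ((P.hν (s k)).res_unique (by
      have := (P.ν (s k)).map_sub_lt hc (hr f k)
      rwa [sub_sub_sub_cancel_left, ← map_sub] at this))
  let ev : A →ₗ[K] (ℕ → K) :=
    { toFun := r
      map_add' := fun f g => funext fun k => uniq _ _ _ (by
        have := (P.ν (s k)).map_add_lt (hr f k) (hr g k)
        rwa [← add_sub_add_comm, ← map_add, ← map_add] at this)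
      map_smul' := fun c f => funext fun k => uniq _ _ _ (by
        have := ((P.hν (s k)).smul_le c _).trans_lt (hr f k)
        rwa [smul_sub, ← AlgHom.map_smul_of_tower, Algebra.smul_def c (algebraMap K Ω _),
          ← map_mul] at this) }
  have hinj : Function.Injective ev := (injective_iff_map_eq_zero ev).2 fun f e =>
    Subtype.ext (B.eq_zero_of_vanish E P hs f.2 i fun k => by
      have := hr f k
      rwa [show r f k = 0 from congrFun e k, map_zero, sub_zero] at this)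
  have hder : ∀ d (hd : d ∈ Δ) (f : A) k, ev ⟨_, hmem d hd f f.2⟩ k = d.1 (ev f k) :=
    fun d hd f k => uniq _ _ _ (by
      have := (P.fin_log (h2 d hd k) _).trans_lt (hr f k)
      rwa [map_sub, dd_comm, dd_const] at this)
  let V : Submodule K A :=
    { carrier := {g | v (g : F) ≤ exp (n : ℤ)}
      add_mem' := fun p q => v.map_add_le p q
      zero_mem' := by simp
      smul_mem' := fun c g hg => by
        change v (c • (g : F)) ≤ _
        rw [Algebra.smul_def, map_mul]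
        exact (mul_le_of_le_one_left' (h.const_le c)).trans hg }
  have : FiniteDimensional K V := by
    choose b hb hb' using fun s : {n : ℕ | ∃ f ∈ A, v f = exp (n : ℤ)} => s.2
    have := h.mem_span {n : ℕ | ∃ f ∈ A, v f = exp (n : ℤ)} (fun f hf n e => ⟨f, hf, e⟩)
      (fun s => ⟨b s, hb s⟩) hb' (n + 1)
    have fin : FiniteDimensional K (Submodule.span K
        ((fun s => (⟨b s, hb s⟩ : A)) '' {s | (s : ℕ) < n + 1})) :=
      FiniteDimensional.span_of_finite K (((Set.finite_lt_nat (n + 1)).preimage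
        Subtype.val_injective.injOn).image _)
    exact Submodule.finiteDimensional_of_le fun g hg =>
      this g (lt_of_le_of_lt hg (exp_lt_exp.2 (by push_cast; omega)))
  obtain ⟨J, e, -, e1, e2, e3⟩ := echelon (V.map ev)
  choose! g g1 g2 using e1
  have h3 : (⟨f, hf⟩ : A) = ∑ j ∈ J, ev ⟨f, hf⟩ j • g j := hinj <| by
    rw [map_sum]
    refine (e3 _ ⟨_, hn.le, rfl⟩).trans (sum_congr rfl fun j hj => ?_)
    rw [map_smul, g2 j hj]
  obtain ⟨j, hj, h4⟩ : ∃ j ∈ J, v (g j : F) = exp (n : ℤ) := by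
    by_contra hc
    push Not at hc
    have : f = ∑ j ∈ J, ev ⟨f, hf⟩ j • (g j : F) := by simpa using congrArg Subtype.val h3
    refine hn.not_lt (this ▸ v.map_sum_lt exp_ne_zero fun j hj => ?_)
    rw [Algebra.smul_def, map_mul]
    exact (mul_le_of_le_one_left' (h.const_le _)).trans_lt (lt_of_le_of_ne (g1 j hj) (hc j hj))
  refine ⟨g j, (g j).2, h4, fun d hd => ?_⟩
  refine congrArg Subtype.val (hinj (a₁ := ⟨_, hmem d hd _ (g j).2⟩) (a₂ := 0) ?_)
  rw [e3 _ ⟨⟨_, hmem d hd _ (g j).2⟩, (B.dd_le E P h d _).trans (g1 j hj), rfl⟩, map_zero]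
  refine sum_eq_zero fun k hk => ?_
  rw [hder d hd, g2 j hj, e2 j hj k hk]
  split_ifs <;> simp

include B E P h hA hT in
theorem exists_flat_basis (Δ : Set (Par K)) (h1 : ∀ d ∈ Δ, ∀ t, T.det.eval t = 0 → eps t d = 0)
    {s : ℕ → K} (hs : Function.Injective s) (h2 : ∀ d ∈ Δ, ∀ n, eps (s n) d = 0)
    (S : Set ℕ) (hS : ∀ n, n ∈ S ↔ ∃ f ∈ A, v f = exp (n : ℤ)) :
    ∃ C : Basis S K A, (∀ s, v (C s : F) = exp ((s : ℕ) : ℤ)) ∧
      ∀ d ∈ Δ, ∀ s t u, d.1 (C.repr (C s * C t) u) = 0 := by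
  have : ∀ n : S, ∃ g ∈ A, v g = exp ((n : ℕ) : ℤ) ∧ ∀ d ∈ Δ, dd F d g = 0 := fun n => by
    obtain ⟨f, hf, e⟩ := (hS n).1 n.2
    exact B.exists_flat E P h hA hT Δ h1 hs h2 hf e
  choose b b1 b2 b3 using this
  obtain ⟨C, hC⟩ := h.exists_basis S (fun f hf n e => (hS n).2 ⟨f, hf, e⟩) (fun s => ⟨b s, b1 s⟩) b2
  refine ⟨C, fun s => by rw [hC]; exact b2 s, fun d hd s t u => ?_⟩
  have k0 : ∀ s, dd F d (C s : F) = 0 := fun s => by rw [hC]; exact b3 s d hd
  have k1 : dd F d ((C s * C t : A) : F) = 0 := by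
    rw [MulMemClass.coe_mul, Derivation.leibniz, k0, k0]; simp
  generalize C s * C t = z at k1
  by_cases hu : u ∈ (C.repr z).support
  swap
  · rw [Finsupp.notMem_support_iff.1 hu, map_zero]
  refine linearIndependent_iff'.1 C.linearIndependent _ (fun u => d.1 (C.repr z u))
    (Subtype.ext ?_) u hu
  rw [← C.linearCombination_repr z, Finsupp.linearCombination_apply, Finsupp.sum,
    AddSubmonoidClass.coe_finsetSum, map_sum] at k1
  rw [AddSubmonoidClass.coe_finsetSum]
  refine Eq.trans (sum_congr rfl fun u _ => ?_) k1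
  rw [SetLike.val_smul, SetLike.val_smul, Algebra.smul_def, Algebra.smul_def, Derivation.leibniz,
    k0, dd_const]
  simp [mul_comm]

end Ap
end Pool.Agent.Lib.MP_d9f0ae_ag.LG
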