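import Mathlib

/-! Linear algebra: echelon bases, weighted determinant bound, chains. -/

namespace Pool.Agent.Lib.MP_d9f0ae_ag.LG
open WithZero Module Finset

theorem echelon {L J : Type*} [Field L] [DecidableEq J] (V : Submodule L (J → L))
    [FiniteDimensional L V] :
    ∃ (J0 : Finset J) (e : J → J → L), J0.card = finrank L V ∧ (∀ j ∈ J0, e j ∈ V) ∧
      (∀ j ∈ J0, ∀ j' ∈ J0, e j j' = if j = j' then 1 else 0) ∧
      ∀ w ∈ V, w = ∑ j ∈ J0, w j • e j := by
  classical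
  let P : ℕ → Prop := fun n => ∃ (J0 : Finset J) (e : J → J → L), J0.card = n ∧
    (∀ j ∈ J0, e j ∈ V) ∧ ∀ j ∈ J0, ∀ j' ∈ J0, e j j' = if j = j' then 1 else 0
  have li : ∀ (J0 : Finset J) (e : J → J → L) (h : ∀ j ∈ J0, e j ∈ V),
      (∀ j ∈ J0, ∀ j' ∈ J0, e j j' = if j = j' then 1 else 0) →
      LinearIndependent L fun j : J0 => (⟨e j, h j j.2⟩ : V) := fun J0 e h h' => by
    rw [Fintype.linearIndependent_iff]
    intro g hg i
    have := congrFun (congrArg Subtype.val hg) i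
    simp only [AddSubmonoidClass.coe_finsetSum, SetLike.val_smul, Finset.sum_apply, Pi.smul_apply,
      smul_eq_mul, ZeroMemClass.coe_zero, Pi.zero_apply] at this
    rw [Finset.sum_eq_single i] at this
    · simpa [h' i i.2 i i.2] using this
    · intro j _ hj
      rw [h' j j.2 i i.2, if_neg (fun e => hj (Subtype.ext e)), mul_zero]
    · simp
  have hle : ∀ n, P n → n ≤ finrank L V := by
    rintro n ⟨J0, e, rfl, h, h'⟩
    simpa using (li J0 e h h').fintype_card_le_finrank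
  have h0 : P 0 := ⟨∅, 0, rfl, by simp, by simp⟩
  obtain ⟨J0, e, hc, h, h'⟩ := Nat.findGreatest_spec (P := P) (Nat.zero_le (finrank L V)) h0
  have hz : ∀ w ∈ V, w = ∑ j ∈ J0, w j • e j := fun w hw => by
    by_contra hne
    obtain ⟨i, hi⟩ := Function.ne_iff.1 (sub_ne_zero.2 hne)
    have hV : w - ∑ j ∈ J0, w j • e j ∈ V :=
      sub_mem hw (sum_mem fun j hj => V.smul_mem _ (h j hj))
    have hJ : ∀ j ∈ J0, (w - ∑ j ∈ J0, w j • e j) j = 0 := fun j hj => by
      rw [Pi.sub_apply, Finset.sum_apply, Finset.sum_eq_single j]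
      · simp [h' j hj j hj]
      · intro k hk hkj
        simp [h' k hk j hj, hkj]
      · exact fun h => absurd hj h
    generalize w - ∑ j ∈ J0, w j • e j = z at hi hV hJ
    have hi' : z i ≠ 0 := hi
    have hiJ : i ∉ J0 := fun h => hi' (hJ i h)
    have hP : P (J0.card + 1) := by
      refine ⟨insert i J0, fun j => if j = i then (z i)⁻¹ • z else e j - (e j i / z i) • z,
        card_insert_of_notMem hiJ, fun j hj => ?_, fun j hj j' hj' => ?_⟩
      · dsimp only
        split_ifs with e1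
        · exact V.smul_mem _ hV
        · exact sub_mem (h j ((mem_insert.1 hj).resolve_left e1)) (V.smul_mem _ hV)
      · dsimp only
        by_cases e1 : j = i <;> by_cases e2 : j' = i
        · simp [e1, e2, hi']
        · simp [e1, hJ j' ((mem_insert.1 hj').resolve_left e2), Ne.symm e2]
        · simp [e1, e2, hi']
        · have k1 := (mem_insert.1 hj).resolve_left e1
          have k2 := (mem_insert.1 hj').resolve_left e2
          simp [e1, hJ j' k2, h' j k1 j' k2]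
    have := Nat.le_findGreatest (hle _ hP) hP
    omega
  refine ⟨J0, e, le_antisymm (hle _ ⟨J0, e, rfl, h, h'⟩) ?_, h, h', hz⟩
  have : V ≤ Submodule.span L (J0.image e : Set (J → L)) := fun w hw => by
    rw [hz w hw]
    exact sum_mem fun j hj => Submodule.smul_mem _ _
      (Submodule.subset_span (mem_coe.2 (mem_image_of_mem e hj)))
  exact (Submodule.finrank_mono this).trans ((finrank_span_finset_le_card _).trans card_image_le)

theorem det_le_prod {Ω κ : Type*} [Field Ω] [Fintype κ] [DecidableEq κ]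
    (ν : Valuation Ω (WithZero (Multiplicative ℤ))) (M : Matrix κ κ Ω)
    (b : κ → WithZero (Multiplicative ℤ)) (h : ∀ i k, ν (M i k) ≤ b k) :
    ν M.det ≤ ∏ k, b k := by
  rw [Matrix.det_apply]
  refine ν.map_sum_le fun σ _ => ?_
  have : ν (Equiv.Perm.sign σ • ∏ i, M (σ i) i) = ν (∏ i, M (σ i) i) := by
    rcases Int.units_eq_one_or (Equiv.Perm.sign σ) with e | e <;> simp [e]
  rw [this, map_prod]
  exact Finset.prod_le_prod' fun k _ => h _ k

theorem exp_sum' {κ : Type*} (s : Finset κ) (f : κ → ℤ) :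
    (exp (∑ k ∈ s, f k) : WithZero (Multiplicative ℤ)) = ∏ k ∈ s, exp (f k) := by
  classical
  induction s using Finset.induction_on with
  | empty => simp
  | insert a s ha ih => rw [sum_insert ha, prod_insert ha, exp_add, ih]

theorem det_le {K Ω κ : Type*} [Field K] [Field Ω] [Algebra K Ω] [Fintype κ] [DecidableEq κ]
    (ν : Valuation Ω (WithZero (Multiplicative ℤ)))
    (hν : ∀ c : K, c ≠ 0 → ν (algebraMap K Ω c) = 1) (Γ : Matrix κ κ Ω)
    (X₁ X₂ : Submodule K (κ → K)) (hX : X₁ ≤ X₂) (a c : ℕ)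
    (h₁ : ∀ l ∈ X₁, ∀ i, ν (∑ j, Γ i j * algebraMap K Ω (l j)) ≤ exp (-(a : ℤ)))
    (h₂ : ∀ l ∈ X₂, ∀ i, ν (∑ j, Γ i j * algebraMap K Ω (l j)) ≤ 1)
    (h₃ : ∀ i j, ν (Γ i j) ≤ exp (c : ℤ)) :
    ν Γ.det ≤ exp (-(a : ℤ) * finrank K X₁ + c * ((Fintype.card κ : ℤ) - finrank K X₂)) := by
  classical
  obtain ⟨s₁, k1, -, k2, k3⟩ := exists_linearIndepOn_id_extension (K := K)
    (linearIndepOn_empty K id) (Set.empty_subset (X₁ : Set (κ → K)))
  obtain ⟨s₂, l1, l0, l2, l3⟩ := exists_linearIndepOn_id_extension k3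
    (k1.trans (SetLike.coe_subset_coe.2 hX))
  obtain ⟨s₃, -, m0, m2, m3⟩ := exists_linearIndepOn_id_extension l3 (Set.subset_univ _)
  have f3 : s₃.Finite := m3.set_finite_of_isNoetherian
  have f2 := f3.subset m0
  have f1 := f2.subset l0
  lift s₃ to Finset (κ → K) using f3
  lift s₂ to Finset (κ → K) using f2
  lift s₁ to Finset (κ → K) using f1
  have key : ∀ (s : Finset (κ → K)) (X : Submodule K (κ → K)), (s : Set (κ → K)) ⊆ X →
      (X : Set (κ → K)) ⊆ Submodule.span K (s : Set (κ → K)) → LinearIndepOn K id (s : Set (κ → K)) →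
      s.card = finrank K X := fun s X p1 p2 p3 => by
    rw [← le_antisymm (Submodule.span_le.2 p1) p2, finrank_span_set_eq_card p3]
    simp
  have c1 := key s₁ X₁ k1 k2 k3
  have c2 := key s₂ X₂ l1 l2 l3
  have c3 := key s₃ ⊤ (Set.subset_univ _) m2 m3
  rw [finrank_top, finrank_fintype_fun_eq_card] at c3
  obtain ⟨e⟩ : Nonempty (κ ≃ s₃) := Fintype.card_eq.1 (by simp [c3])
  let G : Matrix κ κ K := Matrix.of fun j k => (e k : κ → K) j
  have hG : G.det ≠ 0 := by
    rw [← isUnit_iff_ne_zero, ← Matrix.isUnit_iff_isUnit_det,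
      ← Matrix.linearIndependent_cols_iff_isUnit]
    exact (m3.linearIndependent.comp e e.injective :)
  let ω : (κ → K) → ℤ := fun l => (if l ∈ s₁ then -(a : ℤ) else 0) + if l ∈ s₂ then (0 : ℤ) else (c : ℤ)
  have hc : ∀ x : K, ν (algebraMap K Ω x) ≤ 1 := fun x => by
    by_cases hx : x = 0
    · simp [hx]
    · exact (hν x hx).le
  have h4 := det_le_prod ν (Γ * G.map (algebraMap K Ω)) (fun k => exp (ω (e k))) fun i k => by
    rw [Matrix.mul_apply]
    by_cases p1 : (e k : κ → K) ∈ s₁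
    · simpa [ω, G, p1, show (e k : κ → K) ∈ s₂ from l0 p1] using h₁ _ (k1 p1) i
    by_cases p2 : (e k : κ → K) ∈ s₂
    · simpa [ω, G, p1, p2] using h₂ _ (l1 p2) i
    simp only [ω, p1, p2, if_false, zero_add]
    refine ν.map_sum_le fun j _ => ?_
    rw [map_mul]
    exact (mul_le_of_le_one_right' (hc _)).trans (h₃ i j)
  rw [Matrix.det_mul, map_mul, ← RingHom.mapMatrix_apply, ← RingHom.map_det, hν _ hG, mul_one,
    ← exp_sum'] at h4
  refine h4.trans (le_of_eq (congrArg exp ?_))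
  rw [Equiv.sum_comp e fun l => ω l, Finset.sum_coe_sort s₃ ω, sum_add_distrib, sum_ite, sum_ite,
    ← c1, ← c2, ← c3]
  have e1 : s₃.filter (· ∈ s₁) = s₁ := by
    ext l; simp only [mem_filter, and_iff_right_iff_imp]; exact fun h => m0 (l0 h)
  have e2 : s₃.filter (· ∉ s₂) = s₃ \ s₂ := by ext l; simp
  have e3 : s₂ ⊆ s₃ := m0
  rw [e1, e2]
  simp [card_sdiff_of_subset e3, card_le_card e3, mul_comm]

theorem chain {Ω V T A : Type*} [Field Ω] [AddCommGroup V] [Module Ω V] [FiniteDimensional Ω V]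
    [DecidableEq T] (L : Finset T → ℕ → Set V)
    (mono : ∀ U n j, L U n ⊆ L (insert j U) (n + 1)) (D : A → V →+ V)
    (hD : ∀ a (z : Ω) w, ∃ z' : Ω, D a (z • w) = z • D a w + z' • w)
    (hL : ∀ a, ∃ j, ∀ U n, ∀ w ∈ L U n, D a w ∈ L (insert j U) (n + 1))
    {Φ : V} (h0 : Φ ≠ 0) (hΦ : Φ ∈ L ∅ 1) :
    ∃ (ρ : ℕ) (U : Finset T) (Ψ : Fin ρ → V), 0 < ρ ∧ ρ ≤ finrank Ω V ∧ U.card < ρ ∧
      LinearIndependent Ω Ψ ∧ (∀ i, Ψ i ∈ L U ρ) ∧
      ∀ a, ∀ w ∈ Submodule.span Ω (Set.range Ψ), D a w ∈ Submodule.span Ω (Set.range Ψ) := by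
  classical
  let P : ℕ → Prop := fun n => ∃ (U : Finset T) (Ψ : Fin n → V), U.card < n ∧
    LinearIndependent Ω Ψ ∧ ∀ i, Ψ i ∈ L U n
  have hle : ∀ n, P n → n ≤ finrank Ω V := by
    rintro n ⟨U, Ψ, -, h, -⟩
    simpa using h.fintype_card_le_finrank
  have h1 : P 1 := ⟨∅, fun _ => Φ, by simp, linearIndependent_unique_iff.2 h0, fun _ => hΦ⟩
  obtain ⟨U, Ψ, hU, hli, hΨ⟩ := Nat.findGreatest_spec (P := P) (hle 1 h1) h1
  refine ⟨_, U, Ψ, by omega, Nat.findGreatest_le _, hU, hli, hΨ, fun a w hw => ?_⟩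
  induction hw using Submodule.span_induction with
  | mem x hx =>
    obtain ⟨i, rfl⟩ := hx
    by_contra hn
    obtain ⟨j, hj⟩ := hL a
    have hP : P (Nat.findGreatest P (finrank Ω V) + 1) := by
      refine ⟨insert j U, Fin.cons (D a (Ψ i)) Ψ, ?_, hli.finCons hn, fun k => ?_⟩
      · have := card_insert_le j U
        omega
      · refine Fin.cases ?_ (fun k => ?_) k
        · exact hj U _ _ (hΨ i)
        · exact mono U _ j (hΨ k)
    have := Nat.le_findGreatest (hle _ hP) hP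
    omega
  | zero => simp
  | add x y _ _ hx hy => rw [map_add]; exact add_mem hx hy
  | smul z x hx ih =>
    obtain ⟨z', e⟩ := hD a z x
    rw [e]
    exact add_mem (Submodule.smul_mem _ _ ih) (Submodule.smul_mem _ _ hx)

end Pool.Agent.Lib.MP_d9f0ae_ag.LG
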