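import Pool.Agent.Lib.MP_d9f0ae_ag.Lg.Ape
import Pool.Agent.Lib.MP_d9f0ae_ag.Lg.Lin

/-! The discriminant and the dual of an Apery basis. -/

namespace Pool.Agent.Lib.MP_d9f0ae_ag.LG
open WithZero Polynomial Finset Module

variable {K F : Type*} [Field K] [Field F] [Algebra K F] [Algebra (RatFunc K) F]
  [IsScalarTower K (RatFunc K) F] {v : Valuation F (WithZero (Multiplicative ℤ))}
  {A : Subalgebra K F} {m : ℕ} [CharZero K]

namespace Ap
variable {ι : Type} [Fintype ι] [DecidableEq ι] (B : Ap K v A m ι) (h : Pt K v A m)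
include B h

omit h in
theorem exists_tr : ∃ T : Matrix ι ι K[X], ∀ a b,
    Algebra.trace (RatFunc K) F (B.y a * B.y b) = algebraMap K[X] _ (T a b) := by
  choose T hT using fun a b => B.trace_poly (mul_mem (B.mem a) (B.mem b))
  exact ⟨Matrix.of T, hT⟩

theorem exists_negPerm : ∃ σ : Equiv.Perm ι, ∀ a, m ∣ B.w a + B.w (σ a) := by
  choose n hn using B.exists_neg h
  have : Function.Involutive n := fun a => B.neg_unique (hn (n a)) (add_comm (B.w a) _ ▸ hn a)
  exact ⟨this.toPerm, hn⟩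

theorem det_deg {T : Matrix ι ι K[X]} (hT : ∀ a b,
    Algebra.trace (RatFunc K) F (B.y a * B.y b) = algebraMap K[X] _ (T a b)) :
    T.det ≠ 0 ∧ m * T.det.natDegree = 2 * ∑ a, B.w a := by
  obtain ⟨σ, hσ⟩ := B.exists_negPerm h
  have h1 : ∀ a b, v (B.y a * B.y b) = exp ((B.w a : ℤ) + B.w b) := fun a b => by
    rw [map_mul, B.val, B.val, exp_add]
  have h2 : ∀ τ : Equiv.Perm ι, ∑ a, ((B.w (τ a) : ℤ) + B.w a) = 2 * ∑ a, (B.w a : ℤ) := fun τ => by
    rw [sum_add_distrib, Equiv.sum_comp τ fun a => (B.w a : ℤ), two_mul]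
  have h3 : ∀ τ : Equiv.Perm ι,
      v (aeval (xx K F) (Equiv.Perm.sign τ • ∏ i, T (τ i) i)) =
        ∏ i, v (algebraMap (RatFunc K) F
          (Algebra.trace (RatFunc K) F (B.y (τ i) * B.y i))) := fun τ => by
    rcases Int.units_eq_one_or (Equiv.Perm.sign τ) with e | e <;> simp [e, hT, alg_poly]
  have h4 : v (aeval (xx K F) (Equiv.Perm.sign σ • ∏ i, T (σ i) i)) =
      exp (2 * ∑ a, (B.w a : ℤ)) := by
    rw [h3, ← h2 σ, exp_sum']
    refine prod_congr rfl fun a _ => B.trace_eq h (h1 _ _) ?_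
    exact_mod_cast add_comm (B.w a) _ ▸ hσ a
  have h5 : v (aeval (xx K F) T.det) = exp (2 * ∑ a, (B.w a : ℤ)) := by
    rw [Matrix.det_apply, map_sum, v.map_sum_eq_of_lt (mem_univ σ), h4]
    intro τ hτ
    obtain ⟨a, ha⟩ : ∃ a, τ a ≠ σ a := by
      by_contra hn
      push Not at hn
      simp [Equiv.ext hn] at hτ
    rw [h4, h3, ← h2 τ, exp_sum', ← mul_prod_erase _ _ (mem_univ a),
      ← mul_prod_erase _ _ (mem_univ a)]
    refine mul_lt_mul_of_lt_of_le_of_nonneg_of_pos (B.trace_lt h (h1 _ _) fun e => ha ?_)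
      (prod_le_prod' fun i _ => h1 _ _ ▸ B.trace_le h _) zero_le
      (prod_pos fun i _ => exp_pos)
    refine B.neg_unique ?_ (hσ a)
    rw [add_comm]
    exact_mod_cast e
  have h6 : T.det ≠ 0 := fun e => by
    rw [e, map_zero, map_zero] at h5
    exact exp_ne_zero h5.symm
  rw [h.v_poly h6, exp_inj] at h5
  exact ⟨h6, by exact_mod_cast h5⟩

theorem three_le : 3 * m * (Fintype.card ι - 1) ≤ 2 * ∑ a, B.w a := by
  obtain ⟨σ, hσ⟩ := B.exists_negPerm h
  obtain ⟨z, hz⟩ := B.exists_zero h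
  have h1 : ∀ a, B.w a ≠ 0 → m < B.w a := fun a ha =>
    lt_of_le_of_ne (h.least _ (B.mem a) _ (B.val a) (by omega)) fun e => B.not_dvd h ha (e ▸ dvd_rfl)
  have h2 : ∀ a ∈ univ.erase z, 3 * m ≤ B.w a + B.w (σ a) := fun a ha => by
    have k1 : B.w a ≠ 0 := fun e => ne_of_mem_erase ha (B.inj a z (by rw [e, hz]))
    have k2 : B.w (σ a) ≠ 0 := fun e => B.not_dvd h k1 (by simpa [e] using hσ a)
    obtain ⟨k, hk⟩ := hσ a
    have k3 := h1 _ k1
    have k4 := h1 _ k2
    have : 2 < k := by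
      by_contra hn
      have := Nat.mul_le_mul_left m (not_lt.1 hn)
      omega
    have := Nat.mul_le_mul_left m this
    omega
  have h3 := card_nsmul_le_sum _ _ _ h2
  rw [card_erase_of_mem (mem_univ z), card_univ, smul_eq_mul, mul_comm] at h3
  refine h3.trans ((sum_le_sum_of_subset (erase_subset z univ)).trans_eq ?_)
  rw [sum_add_distrib, Equiv.sum_comp σ B.w, two_mul]

omit h in
theorem finite : FiniteDimensional (RatFunc K) F := Module.Finite.of_basis B.y

/-- The basis dual to the Apery basis under the trace form. -/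
noncomputable def dual (a : ι) : F :=
  have := B.finite
  B.y.traceDual a

omit h in
theorem trace_dual (a b : ι) :
    Algebra.trace (RatFunc K) F (B.dual a * B.y b) = if b = a then 1 else 0 :=
  have := B.finite
  B.y.trace_traceDual_mul a b

theorem dual_val (a : ι) : v (B.dual a) = exp (-(B.w a : ℤ)) := by
  have h0 : B.dual a ≠ 0 := fun e => by simpa [e] using B.trace_dual a a
  obtain ⟨c, -, hc⟩ := B.exists_val h h0
  obtain ⟨b, k, hb⟩ := B.exists_neg h c
  have h1 : v (B.dual a * B.y b) =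
      exp ((B.w c : ℤ) + m * (B.y.repr (B.dual a) c).intDegree + B.w b) := by
    rw [map_mul, hc, B.val, exp_add (_ + _)]
  have h2 := B.trace_eq h h1 ⟨k + (B.y.repr (B.dual a) c).intDegree, by
    have : (B.w c : ℤ) + B.w b = m * k := by exact_mod_cast hb
    linear_combination this⟩
  rw [B.trace_dual] at h2
  split_ifs at h2 with e
  · rw [map_one, map_one, ← exp_zero, exp_inj, e] at h2
    rw [hc, exp_inj]
    omega
  · rw [map_zero, map_zero] at h2
    exact absurd h2.symm exp_ne_zero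

omit h in
theorem trace_dual_poly (a : ι) {f : F} (hf : f ∈ A) :
    ∃ p : K[X], Algebra.trace (RatFunc K) F (B.dual a * f) = algebraMap K[X] _ p := by
  obtain ⟨p, hp⟩ := B.poly f hf a
  refine ⟨p, ?_⟩
  rw [← hp]
  nth_rewrite 1 [← B.y.sum_repr f]
  simp only [mul_sum, mul_smul_comm, map_sum, map_smul, B.trace_dual]
  simp

theorem trace_dual_one {a : ι} (ha : B.w a ≠ 0) : Algebra.trace (RatFunc K) F (B.dual a) = 0 := by
  obtain ⟨z, hz⟩ := B.exists_zero h
  have := B.trace_dual a z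
  rwa [B.one z hz, mul_one, if_neg (fun e : z = a => ha (e ▸ hz))] at this

end Ap
end Pool.Agent.Lib.MP_d9f0ae_ag.LG
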