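import Pool.Agent.Lib.MP_d9f0ae_ag.Lg.Dis
import Pool.Agent.Lib.MP_d9f0ae_ag.Lg.Der

/-! The embeddings of the function field in its Galois closure. -/

namespace Pool.Agent.Lib.MP_d9f0ae_ag.LG
open WithZero Polynomial Finset Module

/-- The embeddings of `F` in a Galois closure, with the action of the Galois group. -/
structure Em (Q F Ω : Type*) [Field Q] [Field F] [Field Ω] [Algebra Q F] [Algebra Q Ω]
    (ι : Type) [Fintype ι] where
  σ : ι → (F →ₐ[Q] Ω)
  π : (Ω ≃ₐ[Q] Ω) →* Equiv.Perm ι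
  act : ∀ g i f, σ (π g i) f = g (σ i f)
  inj : Function.Injective σ
  pinj : Function.Injective π
  trace : ∀ f, algebraMap Q Ω (Algebra.trace Q F f) = ∑ i, σ i f

theorem nonempty_Em (Q F : Type*) [Field Q] [Field F] [Algebra Q F] [CharZero Q]
    [FiniteDimensional Q F] (ι : Type) [Fintype ι] (hι : Fintype.card ι = finrank Q F) :
    Nonempty (Em Q F (IntermediateField.normalClosure Q F (AlgebraicClosure Q)) ι) := by
  let e1 := normalClosure.algHomEquiv Q F (AlgebraicClosure Q)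
  obtain ⟨e2⟩ : Nonempty (ι ≃ (F →ₐ[Q] AlgebraicClosure Q)) :=
    Fintype.card_eq.1 (by rw [hι, AlgHom.card])
  let e := e2.trans e1.symm
  refine ⟨⟨e, MonoidHom.mk' (fun g => (e.trans (AlgEquiv.arrowCongr AlgEquiv.refl g)).trans e.symm)
    fun g g' => ?_, fun g i f => by simp, e.injective, ?_, fun f => ?_⟩⟩
  · ext i
    simp only [Equiv.trans_apply, Equiv.Perm.coe_mul, Function.comp_apply, Equiv.apply_symm_apply]
    rfl
  · rw [injective_iff_map_eq_one]
    intro g hg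
    have h1 : ∀ (φ : F →ₐ[Q] _) f, g (φ f) = φ f := fun φ f => by
      have := congrArg (fun p : Equiv.Perm ι => e (p (e.symm φ)) f) hg
      simpa using this
    ext ⟨z, hz⟩
    have h2 : IntermediateField.normalClosure Q F (AlgebraicClosure Q) ≤
        (IntermediateField.fixedField (Subgroup.zpowers g)).map
          (IntermediateField.normalClosure Q F (AlgebraicClosure Q)).val := by
      rw [normalClosure_le_iff]
      rintro φ _ ⟨f, rfl⟩
      refine ⟨e1.symm φ f, ?_, rfl⟩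
      rintro ⟨_, n, rfl⟩
      exact MulAction.fixedBy_subset_fixedBy_zpow _ g n (h1 _ f)
    obtain ⟨z', h3, rfl⟩ := h2 hz
    exact congrArg Subtype.val (h3 ⟨g, Subgroup.mem_zpowers g⟩)
  · apply Subtype.ext
    have := trace_eq_sum_embeddings (AlgebraicClosure Q) (K := Q) (x := f)
    rw [← Equiv.sum_comp e2] at this
    rw [AddSubmonoidClass.coe_finsetSum]
    exact this

theorem coeff_prod_le {Ω ι : Type*} [Field Ω] [Fintype ι]
    (ν : Valuation Ω (WithZero (Multiplicative ℤ))) (z : ι → Ω) (hz : ∀ i, ν (z i) ≤ 1) (n : ℕ) :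
    ν ((∏ i, (X - C (z i))).coeff n) ≤ 1 := by
  have : ∏ i, (X - C (z i)) = (∏ i, (X - C (⟨z i, hz i⟩ : ν.valuationSubring))).map
      ν.valuationSubring.subtype := by simp [Polynomial.map_prod]
  rw [this, coeff_map]
  exact (ν.mem_valuationSubring_iff _).1 (Subtype.property _)

namespace Em
variable {Q F Ω : Type*} [Field Q] [Field F] [Field Ω] [Algebra Q F] [Algebra Q Ω]
  {ι : Type} [Fintype ι] (E : Em Q F Ω ι)

theorem exists_charpoly [FiniteDimensional Q Ω] [IsGalois Q Ω] [Nonempty ι] (f : F) :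
    ∃ p : Q[X], p.Monic ∧ aeval f p = 0 ∧ p.map (algebraMap Q Ω) = ∏ i, (X - C (E.σ i f)) := by
  have h1 : ∏ i, (X - C (E.σ i f)) ∈ lifts (algebraMap Q Ω) := by
    rw [lifts_iff_coeff_lifts]
    intro n
    refine (IsGalois.mem_range_algebraMap_iff_fixed _).2 fun g => ?_
    have : (∏ i, (X - C (E.σ i f))).map (g : Ω →+* Ω) = ∏ i, (X - C (E.σ i f)) := by
      rw [Polynomial.map_prod, ← Equiv.prod_comp (E.π g) fun i => X - C (E.σ i f)]
      simp [E.act]
    nth_rewrite 2 [← this]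
    rw [coeff_map]
    rfl
  obtain ⟨p, hp, -, hm⟩ := lifts_and_degree_eq_and_monic h1
    (monic_prod_of_monic _ _ fun i _ => monic_X_sub_C _)
  refine ⟨p, hm, ?_, hp⟩
  obtain ⟨i⟩ := ‹Nonempty ι›
  apply (E.σ i).injective
  change E.σ i (aeval f p) = E.σ i 0
  rw [map_zero, ← aeval_algHom_apply, aeval_def, ← eval_map, hp, eval_prod]
  exact prod_eq_zero (mem_univ i) (by simp)

theorem isIntegral [FiniteDimensional Q Ω] [IsGalois Q Ω] [Nonempty ι] {T R : Type*} [CommRing R]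
    [Algebra R Q] [Algebra R F] [IsScalarTower R Q F]
    (ν : T → Valuation Ω (WithZero (Multiplicative ℤ)))
    (hR : ∀ c : Q, (∀ t, ν t (algebraMap Q Ω c) ≤ 1) → c ∈ Set.range (algebraMap R Q))
    {f : F} (hf : ∀ t i, ν t (E.σ i f) ≤ 1) : IsIntegral R f := by
  obtain ⟨p, hm, h0, hp⟩ := E.exists_charpoly f
  have : Nontrivial R := (algebraMap R Q).domain_nontrivial
  obtain ⟨q, rfl, -, hq⟩ := lifts_and_degree_eq_and_monic (f := algebraMap R Q) (p := p)
    ((lifts_iff_coeff_lifts _).2 fun n => hR _ fun t => by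
      rw [← coeff_map, hp]; exact coeff_prod_le _ _ (hf t) n) hm
  exact ⟨q, hq, by rwa [aeval_map_algebraMap] at h0⟩

theorem eigen (y : Basis ι Q F) (ν : Valuation Ω (WithZero (Multiplicative ℤ))) (f : F) {n : ℕ}
    (ω : ι → WithZero (Multiplicative ℤ)) (hω : ∀ a, ω a ≠ 0) (β : WithZero (Multiplicative ℤ))
    (H : ∀ a b, ν (algebraMap Q Ω (y.repr (f * y a) b)) ^ n * ω b ≤ β * ω a) (i : ι) :
    ν (E.σ i f) ^ n ≤ β := by
  obtain ⟨a, -, ha⟩ := exists_max_image univ (fun a => ν (E.σ i (y a)) ^ n / ω a) ⟨i, mem_univ i⟩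
  obtain ⟨b, -, hb⟩ := exists_max_image univ
    (fun b => ν (algebraMap Q Ω (y.repr (f * y a) b) * E.σ i (y b))) ⟨i, mem_univ i⟩
  have h1 : ν (E.σ i f) * ν (E.σ i (y a)) ≤
      ν (algebraMap Q Ω (y.repr (f * y a) b)) * ν (E.σ i (y b)) := by
    rw [← map_mul, ← map_mul, ← map_mul]
    nth_rewrite 1 [← y.sum_repr (f * y a)]
    rw [map_sum]
    refine ν.map_sum_le fun c hc => ?_
    rw [map_smul, Algebra.smul_def]
    exact hb c hc
  have h0 : 0 < ν (E.σ i (y a)) ^ n := pow_pos (by simpa [pos_iff_ne_zero] using y.ne_zero a) n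
  have h2 := pow_le_pow_left' h1 n
  rw [mul_pow, mul_pow] at h2
  refine le_of_mul_le_mul_right (h2.trans ?_) h0
  have h3 := mul_le_mul' (H a b) (ha b (mem_univ b))
  rwa [mul_assoc, mul_div_cancel₀ _ (hω b), mul_assoc, mul_div_cancel₀ _ (hω a)] at h3

end Em

variable {K F Ω : Type*} [Field K] [Field F] [Algebra K F] [Algebra (RatFunc K) F]
  [IsScalarTower K (RatFunc K) F] {v : Valuation F (WithZero (Multiplicative ℤ))}
  {A : Subalgebra K F} {m : ℕ} [CharZero K] [Field Ω] [Algebra K Ω] [Algebra (RatFunc K) Ω]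
  [IsScalarTower K (RatFunc K) Ω] [FiniteDimensional (RatFunc K) Ω]

namespace Pl
variable (P : Pl K Ω)

theorem fin_der (d : Par K) (t : K) : P.ν t (dd Ω d (uu Ω t)) ≤ 1 := by
  rw [dd_uu]
  refine (P.ν t).map_add_le ((P.hν t).const_le _) ?_
  rw [map_mul]
  exact mul_le_one' ((P.hν t).const_le _) (P.hν t).lt.le

theorem fin_log {d : Par K} {t : K} (h : eps t d = 0) (z : Ω) : P.ν t (dd Ω d z) ≤ P.ν t z := by
  refine (P.hν t).log_le _ (fun c => dd_const (L := Ω) d c ▸ (P.hν t).const_le _) ?_ z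
  rw [dd_uu, h, map_zero, zero_add, map_mul]
  exact mul_le_of_le_one_left' ((P.hν t).const_le _)

theorem fin_pole (d : Par K) (t : K) (z : Ω) : P.ν t (uu Ω t * dd Ω d z) ≤ P.ν t z :=
  (P.hν t).pole_le _ (fun c => dd_const (L := Ω) d c ▸ (P.hν t).const_le _) (P.fin_der d t) z

theorem fin_unram (d : Par K) {t : K} (h : P.ν t (uu Ω t) = exp (-1)) {z : Ω}
    (hz : P.ν t z ≤ 1) : P.ν t (dd Ω d z) ≤ 1 :=
  (P.hν t).unram h _ (fun c => dd_const (L := Ω) d c ▸ (P.hν t).const_le _) (P.fin_der d t) z hz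

theorem inf_log (d : Par K) (z : Ω) : P.μ (dd Ω d z) ≤ P.μ z := by
  refine P.hμ.log_le _ (fun c => dd_const (L := Ω) d c ▸ P.hμ.const_le _) ?_ z
  have h1 : dd Ω d (xx K Ω)⁻¹ =
      -(algebraMap K Ω d.2.1 * (xx K Ω)⁻¹ + algebraMap K Ω d.2.2) * (xx K Ω)⁻¹ := by
    have := xx_ne (K := K) (Ω := Ω)
    rw [Derivation.leibniz_inv, dd_x, smul_eq_mul]
    field_simp
  rw [h1, map_mul, Valuation.map_neg]
  refine mul_le_of_le_one_left' (P.μ.map_add_le ?_ (P.hμ.const_le _))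
  rw [map_mul]
  exact mul_le_one' (P.hμ.const_le _) P.hμ.lt.le

theorem inf_rat {c : RatFunc K} (hc : c ≠ 0) :
    P.μ (algebraMap (RatFunc K) Ω c) = P.μ (xx K Ω) ^ c.intDegree := by
  rw [alg_eq, map_div₀, P.inf_poly (RatFunc.num_ne_zero hc), P.inf_poly c.denom_ne_zero,
    RatFunc.intDegree, zpow_sub₀ (zero_lt_one.trans P.inf_lt).ne', zpow_natCast, zpow_natCast]

end Pl

namespace Ap
variable {ι : Type} [Fintype ι] [DecidableEq ι] (B : Ap K v A m ι)
  (E : Em (RatFunc K) F Ω ι) (P : Pl K Ω)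
include B

theorem fin_le {f : F} (hf : f ∈ A) (t : K) (i : ι) : P.ν t (E.σ i f) ≤ 1 := by
  have := E.eigen B.y (P.ν t) f (n := 1) (fun _ => 1) (fun _ => one_ne_zero) 1
    (fun a b => by
      obtain ⟨p, hp⟩ := B.poly _ (mul_mem hf (B.mem a)) b
      simpa [hp, alg_poly] using P.fin_le t p) i
  simpa using this

theorem inf_le (h : Pt K v A m) {f : F} {k : ℤ} (hf : v f ≤ exp k) (i : ι) :
    P.μ (E.σ i f) ^ m ≤ P.μ (xx K Ω) ^ k := by
  have h0 := (zero_lt_one.trans P.inf_lt).ne'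
  refine E.eigen B.y P.μ f (fun a => P.μ (xx K Ω) ^ (B.w a : ℤ)) (fun _ => zpow_ne_zero _ h0) _
    (fun a b => ?_) i
  by_cases hc : B.y.repr (f * B.y a) b = 0
  · simp [hc, h.mpos.ne']
  have h1 := (B.repr_le h (f * B.y a) b).trans
    ((v.map_mul _ _).trans_le (mul_le_mul' hf (B.val a).le))
  rw [h.v_rat hc, ← exp_add, ← exp_add, exp_le_exp] at h1
  rw [P.inf_rat hc, ← zpow_natCast, ← zpow_mul, ← zpow_add₀ h0, ← zpow_add₀ h0]
  exact zpow_le_zpow_right₀ P.inf_lt.le (by linarith)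

theorem inf_eq (h : Pt K v A m) {f : F} {k : ℤ} (hf : v f = exp k) (i : ι) :
    P.μ (E.σ i f) ^ m = P.μ (xx K Ω) ^ k := by
  refine le_antisymm (B.inf_le E P h hf.le i) ?_
  have hf0 : f ≠ 0 := fun e => by rw [e, map_zero] at hf; exact exp_ne_zero hf.symm
  have := B.inf_le E P h (f := f⁻¹) (k := -k) (by rw [map_inv₀, hf, exp_neg]) i
  rwa [map_inv₀, map_inv₀, inv_pow, zpow_neg, inv_le_inv₀
    (pow_pos (by simpa [pos_iff_ne_zero] using hf0) m)
    (zpow_pos (zero_lt_one.trans P.inf_lt) k)] at this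

include E P in
theorem dd_le [Algebra.IsAlgebraic (RatFunc K) F] (h : Pt K v A m) (d : Par K) (f : F) :
    v (dd F d f) ≤ v f := by
  by_cases h0 : dd F d f = 0
  · simp [h0]
  have hf : v f ≠ 0 := fun e => h0 (by rw [(map_eq_zero v).1 e, map_zero])
  have h1 : v (dd F d f) ≠ 0 := by simpa using h0
  obtain ⟨i⟩ := B.y.index_nonempty
  have h2 := pow_le_pow_left' (P.inf_log d (E.σ i f)) m
  rw [dd_comm, B.inf_eq E P h (exp_log hf).symm, B.inf_eq E P h (exp_log h1).symm,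
    zpow_le_zpow_iff_right₀ P.inf_lt] at h2
  rwa [← exp_log hf, ← exp_log h1, exp_le_exp]

theorem dual_sum (i j : ι) :
    ∑ a, E.σ i (B.dual a) * E.σ j (B.y a) = if i = j then 1 else 0 := by
  let Y : Matrix ι ι Ω := Matrix.of fun i a => E.σ i (B.y a)
  let Z : Matrix ι ι Ω := Matrix.of fun a i => E.σ i (B.dual a)
  have h1 : Z * Y = 1 := by
    ext a b
    have := E.trace (B.dual a * B.y b)
    rw [B.trace_dual] at this
    simp only [map_mul] at this
    rw [Matrix.mul_apply, Matrix.one_apply]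
    refine this.symm.trans ?_
    by_cases e : a = b
    · simp [e]
    · simp [e, Ne.symm e]
  have h2 : (Y * Z) j i = (1 : Matrix ι ι Ω) j i := by rw [mul_eq_one_comm.1 h1]
  rw [Matrix.mul_apply, Matrix.one_apply] at h2
  simp only [Y, Z, Matrix.of_apply] at h2
  simp only [mul_comm (E.σ i _), h2, eq_comm]

theorem descent [IsGalois (RatFunc K) Ω] (c : ι → Ω) (hc : ∀ g i, c (E.π g i) = g (c i)) :
    ∃ f, ∀ i, E.σ i f = c i := by
  have : ∀ a, ∃ z, algebraMap (RatFunc K) Ω z = ∑ i, c i * E.σ i (B.dual a) := fun a => by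
    refine (IsGalois.mem_range_algebraMap_iff_fixed _).2 fun g => ?_
    rw [map_sum, ← Equiv.sum_comp (E.π g) fun i => c i * E.σ i (B.dual a)]
    simp [hc, E.act]
  choose z hz using this
  refine ⟨∑ a, z a • B.y a, fun j => ?_⟩
  simp only [map_sum, map_smul]
  simp only [Algebra.smul_def, hz, sum_mul]
  rw [sum_comm]
  simp [mul_assoc, ← mul_sum, B.dual_sum E]

end Ap
end Pool.Agent.Lib.MP_d9f0ae_ag.LG
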