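import Pool.Agent.Lib.MP_d9f0ae_ag.Lg.Log

/-! Places over every point of the projective line; Liouville and the residue theorem. -/

namespace Pool.Agent.Lib.MP_d9f0ae_ag.LG
open WithZero Polynomial

/-- The coordinate function. -/
noncomputable def xx (K L : Type*) [Field K] [Field L] [Algebra (RatFunc K) L] : L :=
  algebraMap (RatFunc K) L RatFunc.X

/-- The local coordinate at `t`. -/
noncomputable def uu {K : Type*} (L : Type*) [Field K] [Field L] [Algebra K L]
    [Algebra (RatFunc K) L] (t : K) : L := xx K L - algebraMap K L t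

/-- A choice of places of `Ω` over all points of the projective line. -/
structure Pl (K Ω : Type*) [Field K] [Field Ω] [Algebra K Ω] [Algebra (RatFunc K) Ω] where
  ν : K → Valuation Ω (WithZero (Multiplicative ℤ))
  μ : Valuation Ω (WithZero (Multiplicative ℤ))
  hν : ∀ t, IsPlace K (RatFunc K) (uu Ω t) (ν t)
  hμ : IsPlace K (RatFunc K) (xx K Ω)⁻¹ μ

variable {K Ω : Type*} [Field K] [Field Ω] [Algebra K Ω] [Algebra (RatFunc K) Ω]
  [IsScalarTower K (RatFunc K) Ω]

theorem alg_poly (p : K[X]) :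
    algebraMap (RatFunc K) Ω (algebraMap K[X] (RatFunc K) p) = aeval (xx K Ω) p := by
  rw [xx, aeval_algebraMap_apply, RatFunc.aeval_X_left_eq_algebraMap]

theorem alg_const (c : K) :
    algebraMap (RatFunc K) Ω (algebraMap K (RatFunc K) c) = algebraMap K Ω c :=
  (IsScalarTower.algebraMap_apply _ _ _ _).symm

theorem aeval_ne {p : K[X]} (hp : p ≠ 0) : aeval (xx K Ω) p ≠ 0 := by
  rw [← alg_poly]; simpa using hp

theorem uu_eq (t : K) : uu Ω t = aeval (xx K Ω) (X - C t) := by simp [uu]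

theorem uu_ne (t : K) : uu Ω t ≠ 0 := by rw [uu_eq]; exact aeval_ne (X_sub_C_ne_zero t)

theorem xx_ne : xx K Ω ≠ 0 := by simpa [uu] using uu_ne (Ω := Ω) (0 : K)

theorem alg_eq (c : RatFunc K) :
    algebraMap (RatFunc K) Ω c = aeval (xx K Ω) c.num / aeval (xx K Ω) c.denom := by
  rw [← alg_poly, ← alg_poly, ← map_div₀, RatFunc.num_div_denom]

theorem nonempty_Pl [IsAlgClosed K] [CharZero K] [FiniteDimensional (RatFunc K) Ω]
    [IsGalois (RatFunc K) Ω] : Nonempty (Pl K Ω) := by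
  have key : ∀ u : RatFunc K, RatFunc.X ∈ IntermediateField.adjoin K {u} →
      ∃ ν, IsPlace K (RatFunc K) (algebraMap (RatFunc K) Ω u) ν := fun u hu => by
    have htop : IntermediateField.adjoin K {u} = ⊤ := by
      rw [eq_top_iff, ← RatFunc.adjoin_X]
      exact IntermediateField.adjoin_simple_le_iff.2 hu
    refine exists_place u (fun h => ?_) htop
    have h1 : Algebra.IsAlgebraic K (IntermediateField.adjoin K {u}) :=
      IntermediateField.isAlgebraic_adjoin_simple h.isIntegral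
    exact RatFunc.transcendental_X (IntermediateField.isAlgebraic_iff.1 (h1.isAlgebraic ⟨_, hu⟩))
  have h1 : ∀ t : K, ∃ ν, IsPlace K (RatFunc K) (uu Ω t) ν := fun t => by
    have := key (RatFunc.X - algebraMap K _ t) (by
      have := add_mem (IntermediateField.mem_adjoin_simple_self K
        (RatFunc.X - algebraMap K (RatFunc K) t)) (IntermediateField.algebraMap_mem _ t)
      rwa [sub_add_cancel] at this)
    rwa [map_sub, alg_const] at this
  choose ν hν using h1
  obtain ⟨μ, hμ⟩ := key RatFunc.X⁻¹ (by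
    simpa using inv_mem (IntermediateField.mem_adjoin_simple_self K (RatFunc.X : RatFunc K)⁻¹))
  rw [map_inv₀] at hμ
  exact ⟨⟨ν, μ, hν, hμ⟩⟩

namespace Pl
variable (P : Pl K Ω)

theorem fin_le (t : K) (p : K[X]) : P.ν t (aeval (xx K Ω) p) ≤ 1 := by
  have := (P.hν t).aeval_le (p.comp (X + C t))
  rwa [aeval_comp, map_add, aeval_X, aeval_C, uu, sub_add_cancel] at this

theorem fin_eval (t : K) (p : K[X]) :
    P.ν t (aeval (xx K Ω) p - algebraMap K Ω (p.eval t)) ≤ P.ν t (uu Ω t) := by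
  obtain ⟨q, hq⟩ := X_sub_C_dvd_sub_C_eval (a := t) (p := p)
  rw [← aeval_C (xx K Ω), ← map_sub, hq, map_mul, map_mul, ← uu_eq]
  exact mul_le_of_le_one_right' (P.fin_le t q)

theorem fin_one {t : K} {p : K[X]} (hp : p.eval t ≠ 0) : P.ν t (aeval (xx K Ω) p) = 1 := by
  have h1 := (P.hν t).const _ hp
  have := (P.ν t).map_add_eq_of_lt_left (x := algebraMap K Ω (p.eval t))
    (y := aeval (xx K Ω) p - algebraMap K Ω (p.eval t))
    (h1 ▸ (P.fin_eval t p).trans_lt (P.hν t).lt)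
  rwa [add_sub_cancel, h1] at this

theorem fin_root {t : K} {p : K[X]} (hp : p.eval t = 0) :
    P.ν t (aeval (xx K Ω) p) ≤ P.ν t (uu Ω t) := by simpa [hp] using P.fin_eval t p

theorem fin_uu {t s : K} (h : s ≠ t) : P.ν t (uu Ω s) = 1 := by
  rw [uu_eq]; exact P.fin_one (by simpa [sub_eq_zero] using h.symm)

theorem fin_mult (t : K) {p : K[X]} (hp : p ≠ 0) :
    P.ν t (aeval (xx K Ω) p) = P.ν t (uu Ω t) ^ p.rootMultiplicity t := by
  obtain ⟨q, hq, hq'⟩ := exists_eq_pow_rootMultiplicity_mul_and_not_dvd p hp t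
  nth_rewrite 1 [hq]
  rw [map_mul, map_pow, map_mul, map_pow, ← uu_eq, P.fin_one (mt dvd_iff_isRoot.2 hq'), mul_one]

theorem denom_ne {t : K} {c : RatFunc K} (h : P.ν t (algebraMap (RatFunc K) Ω c) ≤ 1) :
    c.denom.eval t ≠ 0 := fun h0 => by
  have h1 : c.num.eval t ≠ 0 := fun h1 => by
    obtain ⟨a, b, e⟩ := RatFunc.isCoprime_num_denom c
    have := congrArg (eval t) e
    simp [h0, h1] at this
  have h2 : P.ν t (aeval (xx K Ω) c.denom) ≠ 0 := by simpa using aeval_ne c.denom_ne_zero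
  rw [alg_eq, map_div₀, P.fin_one h1, div_le_one₀ (pos_iff_ne_zero.2 h2)] at h
  exact ((P.fin_root h0).trans_lt (P.hν t).lt).not_ge h

theorem poly_of_le [IsAlgClosed K] {c : RatFunc K}
    (h : ∀ t, P.ν t (algebraMap (RatFunc K) Ω c) ≤ 1) : ∃ p, c = algebraMap K[X] _ p := by
  have h1 : c.denom = 1 := by
    by_contra h1
    obtain ⟨t, ht⟩ := IsAlgClosed.exists_root c.denom fun h0 =>
      h1 ((RatFunc.monic_denom c).degree_le_zero_iff_eq_one.1 h0.le)
    exact P.denom_ne (h t) ht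
  exact ⟨c.num, by rw [← RatFunc.num_div_denom c, h1]; simp⟩

theorem quant {t : K} {c : RatFunc K} (h : P.ν t (uu Ω t * algebraMap (RatFunc K) Ω c) < 1) :
    P.ν t (algebraMap (RatFunc K) Ω c) ≤ 1 := by
  have e : uu Ω t * algebraMap (RatFunc K) Ω c =
      algebraMap (RatFunc K) Ω (algebraMap K[X] _ (X - C t) * c) := by
    rw [map_mul, alg_poly, uu_eq]
  generalize algebraMap K[X] (RatFunc K) (X - C t) * c = d at e
  rw [e] at h
  have h1 := P.fin_one (P.denom_ne h.le)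
  rw [alg_eq, map_div₀, h1, div_one] at h
  have h2 : d.num.eval t = 0 := by
    by_contra h0
    exact (P.fin_one h0).not_lt h
  have h3 : P.ν t (uu Ω t * algebraMap (RatFunc K) Ω c) ≤ P.ν t (uu Ω t) * 1 := by
    rw [e, alg_eq, map_div₀, h1, div_one, mul_one]
    exact P.fin_root h2
  rw [map_mul] at h3
  exact le_of_mul_le_mul_left h3 (P.hν t).pos

theorem inf_lt : 1 < P.μ (xx K Ω) := by
  have := P.hμ.lt
  rwa [map_inv₀, inv_lt_one₀ (by simpa [pos_iff_ne_zero] using xx_ne)] at this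

theorem inf_poly {p : K[X]} (hp : p ≠ 0) :
    P.μ (aeval (xx K Ω) p) = P.μ (xx K Ω) ^ p.natDegree :=
  have : P.μ.IsTrivialOn K := ⟨P.hμ.const⟩
  valuation_aeval_eq_valuation_X_pow_natDegree_of_one_lt_valuation_X _ P.inf_lt hp

theorem inf_uu (t : K) : P.μ (uu Ω t) = P.μ (xx K Ω) := by
  rw [uu_eq, P.inf_poly (X_sub_C_ne_zero t)]; simp

theorem eq_zero [IsAlgClosed K] {c : RatFunc K}
    (h : ∀ t, P.ν t (algebraMap (RatFunc K) Ω c) ≤ 1) (h' : P.μ (algebraMap (RatFunc K) Ω c) < 1) :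
    c = 0 := by
  obtain ⟨p, rfl⟩ := P.poly_of_le h
  by_contra h0
  rw [alg_poly, P.inf_poly (by simpa using h0)] at h'
  exact h'.not_ge (one_le_pow₀ P.inf_lt.le)

theorem liouville [IsAlgClosed K] [FiniteDimensional (RatFunc K) Ω] [IsGalois (RatFunc K) Ω]
    {z : Ω} (hg : ∀ g : Ω ≃ₐ[RatFunc K] Ω, ∃ c : K, g z = c • z)
    (h : ∀ t, P.ν t z ≤ 1) (h' : P.μ z < 1) : z = 0 := by
  classical
  rw [← Algebra.norm_eq_zero_iff (R := RatFunc K)]
  refine P.eq_zero (fun t => ?_) ?_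
  · rw [Algebra.norm_eq_prod_automorphisms, map_prod]
    refine Finset.prod_le_one' fun g _ => ?_
    obtain ⟨c, hc⟩ := hg g
    rw [hc]
    exact ((P.hν t).smul_le c z).trans (h t)
  · rw [Algebra.norm_eq_prod_automorphisms, map_prod,
      ← Finset.mul_prod_erase _ _ (Finset.mem_univ 1)]
    refine (mul_le_of_le_one_right' (Finset.prod_le_one' fun g _ => ?_)).trans_lt h'
    obtain ⟨c, hc⟩ := hg g
    rw [hc]
    exact (P.hμ.smul_le c z).trans h'.le

theorem residues [IsAlgClosed K] {c : RatFunc K} (J : Finset K) (ρ : K → K)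
    (h1 : ∀ t ∉ J, P.ν t (algebraMap (RatFunc K) Ω c) ≤ 1)
    (h2 : ∀ t ∈ J, P.ν t (uu Ω t * algebraMap (RatFunc K) Ω c - algebraMap K Ω (ρ t)) < 1)
    (h3 : P.μ (xx K Ω * algebraMap (RatFunc K) Ω c) < 1) : ∑ t ∈ J, ρ t = 0 := by
  classical
  let r : K → RatFunc K := fun t => algebraMap K _ (ρ t) / algebraMap K[X] _ (X - C t)
  have hr : ∀ t, algebraMap (RatFunc K) Ω (r t) = algebraMap K Ω (ρ t) / uu Ω t := fun t => by
    rw [map_div₀, alg_const, alg_poly, uu_eq]
  have hr1 : ∀ t s, s ≠ t → P.ν t (algebraMap (RatFunc K) Ω (r s)) ≤ 1 := fun t s h => by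
    rw [hr, map_div₀, P.fin_uu h, div_one]; exact (P.hν t).const_le _
  have hinf : ∀ (a t : K), P.μ (algebraMap K Ω a / uu Ω t) < 1 := fun a t => by
    rw [map_div₀, P.inf_uu, div_lt_one₀ (zero_lt_one.trans P.inf_lt)]
    exact (P.hμ.const_le a).trans_lt P.inf_lt
  have h4 : c - ∑ t ∈ J, r t = 0 := by
    refine P.eq_zero (fun t => ?_) ?_
    · by_cases ht : t ∈ J
      · rw [← Finset.add_sum_erase _ _ ht, ← sub_sub, map_sub, map_sum]
        refine (P.ν t).map_sub_le (P.quant ?_) ((P.ν t).map_sum_le fun s hs =>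
          hr1 t s (Finset.ne_of_mem_erase hs))
        rw [map_sub, hr, mul_sub, mul_div_cancel₀ _ (uu_ne t)]
        exact h2 t ht
      · rw [map_sub, map_sum]
        exact (P.ν t).map_sub_le (h1 t ht) ((P.ν t).map_sum_le fun s hs =>
          hr1 t s fun e => ht (e ▸ hs))
    · rw [map_sub, map_sum]
      refine P.μ.map_sub_lt ?_ (P.μ.map_sum_lt one_ne_zero fun t _ => hr t ▸ hinf _ t)
      rw [map_mul] at h3
      exact (le_mul_of_one_le_left' P.inf_lt.le).trans_lt h3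
  refine P.hμ.res_unique ?_
  have h5 : algebraMap K Ω (∑ t ∈ J, ρ t) = xx K Ω * algebraMap (RatFunc K) Ω c -
      ∑ t ∈ J, algebraMap K Ω (ρ t * t) / uu Ω t := by
    rw [sub_eq_zero.1 h4, map_sum, map_sum, Finset.mul_sum, ← Finset.sum_sub_distrib]
    refine Finset.sum_congr rfl fun t _ => ?_
    have := uu_ne (Ω := Ω) t
    rw [hr, map_mul]
    field_simp
    rw [uu]
  rw [h5]
  exact P.μ.map_sub_lt h3 (P.μ.map_sum_lt one_ne_zero fun t _ => hinf _ t)

end Pl
end Pool.Agent.Lib.MP_d9f0ae_ag.LG
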