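import Pool.Agent.Lib.MP_d9f0ae_ag.Lg.Plc

/-! Logarithmic derivations do not create poles. -/

namespace Pool.Agent.Lib.MP_d9f0ae_ag.LG
open WithZero Polynomial

theorem le_pred' {x : WithZero (Multiplicative ℤ)} {n : ℤ} (h : x < exp n) : x ≤ exp (n - 1) := by
  induction x using WithZero.expRecOn with
  | zero => exact zero_le
  | exp m => rw [exp_lt_exp] at h; rw [exp_le_exp]; omega

theorem le_neg_one {x : WithZero (Multiplicative ℤ)} (h : x < 1) : x ≤ exp (-1) := by
  simpa using le_pred' (n := 0) (by simpa using h)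

theorem exp_neg_one_lt : (exp (-1) : WithZero (Multiplicative ℤ)) < 1 := by
  rw [← exp_zero, exp_lt_exp]; omega

namespace IsPlace
variable {K Q Ω : Type*} [Field K] [Field Q] [Field Ω] [Algebra K Ω] [Algebra Q Ω] {u : Ω}
  {ν : Valuation Ω (WithZero (Multiplicative ℤ))} (h : IsPlace K Q u ν)
include h

theorem const_le (c : K) : ν (algebraMap K Ω c) ≤ 1 := by
  by_cases hc : c = 0
  · simp [hc]
  · exact (h.const c hc).le

theorem smul_le (c : K) (z : Ω) : ν (c • z) ≤ ν z := by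
  rw [Algebra.smul_def, map_mul]
  exact mul_le_of_le_one_left' (h.const_le c)

theorem int_le (n : ℤ) : ν (n : Ω) ≤ 1 := by simpa using h.const_le (n : K)

theorem int_eq [CharZero K] {n : ℤ} (hn : n ≠ 0) : ν (n : Ω) = 1 := by
  simpa using h.const (n : K) (by exact_mod_cast hn)

theorem pos : 0 < ν u := by simpa [pos_iff_ne_zero] using h.ne

theorem res_unique {c : K} (hc : ν (algebraMap K Ω c) < 1) : c = 0 := by
  by_contra h0
  exact (h.const c h0).not_lt hc

theorem aeval_le (p : K[X]) : ν (aeval u p) ≤ 1 := by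
  rw [aeval_eq_sum_range]
  refine ν.map_sum_le fun i _ => (h.smul_le _ _).trans ?_
  rw [map_pow]
  exact pow_le_one' h.lt.le _

theorem der_aeval (D : Derivation ℤ Ω Ω) (hK : ∀ c : K, ν (D (algebraMap K Ω c)) ≤ 1)
    (hu : ν (D u) ≤ 1) (p : K[X]) : ν (D (aeval u p)) ≤ 1 := by
  induction p using Polynomial.induction_on with
  | C a => simpa using hK a
  | add p q hp hq => rw [map_add, map_add]; exact ν.map_add_le hp hq
  | monomial n a ih =>
    rw [pow_succ, ← mul_assoc, map_mul, aeval_X, D.leibniz, smul_eq_mul, smul_eq_mul]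
    refine ν.map_add_le ?_ ?_
    · rw [map_mul]; exact mul_le_one' (h.aeval_le _) hu
    · rw [map_mul]; exact mul_le_one' h.lt.le ih

theorem der_bound (D : Derivation ℤ Ω Ω) (hK : ∀ c : K, ν (D (algebraMap K Ω c)) ≤ 1)
    (hu : ν (D u) ≤ 1) {π : Ω} (hπ : ν π = exp (-1)) {n : ℤ} (hn : 0 ≤ n)
    (hD : ν (D π) ≤ exp n) (z : Ω) (hz : ν z ≤ 1) : ν (D z) ≤ exp n := by
  obtain ⟨C, hC⟩ := h.bdd D (h.der_aeval D hK hu)
  have hπ0 : π ≠ 0 := fun e => by rw [e, map_zero] at hπ; exact exp_ne_zero hπ.symm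
  have key : ∀ j : ℕ, (∀ z, ν z ≤ 1 → ν (D z) ≤ exp (n + j)) → ∀ z, ν z ≤ 1 → ν (D z) ≤ exp n := by
    intro j
    induction j with
    | zero => intro H; simpa using H
    | succ j ih =>
      intro H
      refine ih fun z hz => ?_
      obtain ⟨c, hc⟩ := h.res z hz
      have h1 : ν ((z - algebraMap K Ω c) / π) ≤ 1 := by
        rw [map_div₀, hπ]
        exact div_le_one_of_le₀ (le_neg_one hc) zero_le
      have h2 : z = algebraMap K Ω c + π * ((z - algebraMap K Ω c) / π) := by field_simp; ring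
      rw [h2, map_add, D.leibniz, smul_eq_mul, smul_eq_mul]
      refine ν.map_add_le ((hK c).trans ?_) (ν.map_add_le ?_ ?_)
      · rw [← exp_zero, exp_le_exp]; omega
      · rw [map_mul, hπ]
        refine (mul_le_mul_right (H _ h1) _).trans ?_
        rw [← exp_add, exp_le_exp]; push_cast; omega
      · rw [map_mul]
        refine (mul_le_of_le_one_left' h1).trans (hD.trans ?_)
        rw [exp_le_exp]; omega
  refine key (C - n).toNat (fun z hz => (hC z hz).trans ?_) z hz
  rw [exp_le_exp]; omega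

/-- At an unramified place a regular derivation preserves the valuation ring. -/
theorem unram (h1 : ν u = exp (-1)) (D : Derivation ℤ Ω Ω)
    (hK : ∀ c : K, ν (D (algebraMap K Ω c)) ≤ 1) (hu : ν (D u) ≤ 1) (z : Ω) (hz : ν z ≤ 1) :
    ν (D z) ≤ 1 := by
  simpa using h.der_bound D hK hu h1 le_rfl (by simpa using hu) z hz

omit h in
theorem split {π : Ω} (hπ : ν π = exp (-1)) {z : Ω} (hz : z ≠ 0) :
    ∃ (n : ℤ) (ε : Ω), ν ε = 1 ∧ z = π ^ n * ε ∧ ν z = exp (-n) := by
  have hπ0 : π ≠ 0 := fun e => by rw [e, map_zero] at hπ; exact exp_ne_zero hπ.symm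
  have hz' : ν z ≠ 0 := by simpa using hz
  refine ⟨-log (ν z), z * π ^ log (ν z), ?_, ?_, by simp [exp_log hz']⟩
  · rw [map_mul, map_zpow₀, hπ, ← exp_zsmul]
    nth_rewrite 1 [← exp_log hz']
    rw [← exp_add]; simp
  · rw [zpow_neg]; field_simp

omit h in
theorem der_split (D : Derivation ℤ Ω Ω) {π ε : Ω} (hπ : π ≠ 0) (hε : ε ≠ 0) (n : ℤ) :
    D (π ^ n * ε) = (π ^ n * ε) * (n * (D π / π) + D ε / ε) := by
  rw [D.leibniz, D.leibniz_zpow, zpow_sub_one₀ hπ]
  simp only [smul_eq_mul, zsmul_eq_mul]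
  field_simp
  ring

/-- A logarithmic derivation does not lower the order. -/
theorem log_le [CharZero K] (D : Derivation ℤ Ω Ω) (hK : ∀ c : K, ν (D (algebraMap K Ω c)) ≤ 1)
    (hu : ν (D u) ≤ ν u) (z : Ω) : ν (D z) ≤ ν z := by
  obtain ⟨π, hπ⟩ := h.unif
  have hπ0 : π ≠ 0 := fun e => by rw [e, map_zero] at hπ; exact exp_ne_zero hπ.symm
  have hu1 := hu.trans h.lt.le
  have h1 : ν (D π / π) ≤ 1 := by
    obtain ⟨n, ε, hε, e, hn⟩ := split hπ h.ne
    have hε0 : ε ≠ 0 := fun e => by simp [e] at hε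
    have hn0 : n ≠ 0 := by
      rintro rfl
      exact h.lt.ne (by simpa using hn)
    have h2 : (n : Ω) * (D π / π) = D u / u - D ε / ε := by
      have := h.ne
      rw [e] at this ⊢
      rw [der_split D hπ0 hε0]
      field_simp
      ring
    have h3 : ν (D ε) ≤ exp (max 0 (log (ν (D π)))) :=
      h.der_bound D hK hu1 hπ (le_max_left _ _)
        (le_exp_log.trans (exp_le_exp.2 (le_max_right _ _))) ε hε.le
    have h4 : ν (D π / π) ≤ exp (max 0 (log (ν (D π)))) := by
      have : ν (D π / π) = ν ((n : Ω) * (D π / π)) := by rw [map_mul, h.int_eq hn0, one_mul]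
      rw [this, h2]
      refine ν.map_sub_le ?_ ?_
      · rw [map_div₀]
        refine (div_le_one_of_le₀ hu zero_le).trans ?_
        rw [← exp_zero, exp_le_exp]; exact le_max_left _ _
      · rw [map_div₀, hε, div_one]; exact h3
    by_cases h0 : ν (D π) = 0
    · simp [h0]
    rw [map_div₀, hπ, ← exp_log h0, ← exp_sub, log_exp, exp_le_exp] at h4
    rw [map_div₀, hπ, ← exp_log h0, ← exp_sub, ← exp_zero, exp_le_exp]
    omega
  have h2 : ν (D π) ≤ exp 0 := by
    rw [map_div₀, hπ, div_le_one₀ exp_pos] at h1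
    exact h1.trans exp_neg_one_lt.le
  by_cases hz : z = 0
  · simp [hz]
  obtain ⟨n, ε, hε, e, -⟩ := split hπ hz
  have hε0 : ε ≠ 0 := fun e => by simp [e] at hε
  rw [e, der_split D hπ0 hε0, map_mul]
  refine mul_le_of_le_one_right' (ν.map_add_le ?_ ?_)
  · rw [map_mul]; exact mul_le_one' (h.int_le n) h1
  · rw [map_div₀, hε, div_one]
    simpa using h.der_bound D hK hu1 hπ le_rfl h2 ε hε.le

/-- A regular derivation lowers the order by at most the order of `u`. -/
theorem pole_le [CharZero K] (D : Derivation ℤ Ω Ω) (hK : ∀ c : K, ν (D (algebraMap K Ω c)) ≤ 1)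
    (hu : ν (D u) ≤ 1) (z : Ω) : ν (u * D z) ≤ ν z := by
  refine h.log_le (u • D) (fun c => ?_) ?_ z
  · rw [Derivation.smul_apply, smul_eq_mul, map_mul]
    exact mul_le_one' h.lt.le (hK c)
  · rw [Derivation.smul_apply, smul_eq_mul, map_mul]
    exact mul_le_of_le_one_right' hu

theorem euler_lt [CharZero K] (D : Derivation ℤ Ω Ω) (hK : ∀ c : K, D (algebraMap K Ω c) = 0)
    (hu : D u = 1) {z : Ω} (hz : ν z ≤ 1) : ν (u * D z) < 1 := by
  obtain ⟨c, hc⟩ := h.res z hz
  have := h.pole_le D (fun c => by simp [hK]) (by simp [hu]) (z - algebraMap K Ω c)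
  rw [map_sub, hK, sub_zero] at this
  exact this.trans_lt hc

theorem euler_half [CharZero K] (D : Derivation ℤ Ω Ω) (hK : ∀ c : K, D (algebraMap K Ω c) = 0)
    (hu : D u = 1) (h2 : ν u = exp (-2)) {z : Ω} (hz : ν z ≤ exp (-1)) :
    ν (2 * (u * D z) - z) < exp (-1) := by
  rcases hz.lt_or_eq with hz | hz
  · refine ν.map_sub_lt ?_ hz
    rw [map_mul]
    exact (mul_le_of_le_one_left' (by simpa using h.int_le 2)).trans_lt
      ((h.pole_le D (fun c => by simp [hK]) (by simp [hu]) z).trans_lt hz)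
  · have hz0 : z ≠ 0 := fun e => by rw [e, map_zero] at hz; exact exp_ne_zero hz.symm
    have h1 : ν (z ^ 2 / u) = 1 := by
      rw [map_div₀, map_pow, hz, h2, ← exp_nsmul, ← exp_sub]; simp
    have h3 := h.euler_lt D hK hu h1.le
    have h4 : 2 * (u * D z) - z = u * D (z ^ 2 / u) * (u / z) := by
      have := h.ne
      rw [D.leibniz_div, D.leibniz_pow, hu]
      simp only [smul_eq_mul, nsmul_eq_mul]
      field_simp
      ring
    have h5 : ν (u / z) = exp (-1) := by rw [map_div₀, hz, h2, ← exp_sub]; simp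
    rw [h4, map_mul, h5]
    exact mul_lt_of_lt_one_left exp_pos h3

end IsPlace
end Pool.Agent.Lib.MP_d9f0ae_ag.LG
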