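import Mathlib

/-! The discriminant in a tower of fields over a discrete valuation ring. -/

namespace Pool.Agent.Lib.MP_d9f0ae_ag.LG
open Finset Module

theorem tower_det {R Q L F : Type*} [CommRing R] [IsDomain R] [IsPrincipalIdealRing R]
    [IsLocalRing R] [Field Q] [Algebra R Q] [IsFractionRing R Q] [Field L] [Field F] [Algebra Q L]
    [Algebra L F] [Algebra Q F] [IsScalarTower Q L F] [FiniteDimensional Q F] [CharZero Q]
    [Algebra R L] [Algebra R F] [IsScalarTower R Q L] [IsScalarTower R Q F]
    {ι κ : Type} [Fintype ι] [DecidableEq ι] [Fintype κ] [DecidableEq κ]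
    (y : ι → F) (hy : ∀ a, IsIntegral R (y a)) (hι : Fintype.card ι = finrank Q F)
    (z : Basis κ Q L) (hz : ∀ f : L, IsIntegral R f → ∀ j, ∃ c, algebraMap R Q c = z.repr f j) :
    ∃ c : R, (Matrix.of fun a b => Algebra.trace Q F (y a * y b)).det = algebraMap R Q c *
      (Matrix.of fun a b => Algebra.trace Q L (z a * z b)).det ^ finrank L F := by
  have : FiniteDimensional Q L := Module.Finite.left Q L F
  have : FiniteDimensional L F := Module.Finite.right Q L F
  have : CharZero L := charZero_of_injective_algebraMap (algebraMap Q L).injective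
  have : IsScalarTower R L F := .of_algebraMap_eq fun r => by
    rw [IsScalarTower.algebraMap_apply R Q F, IsScalarTower.algebraMap_apply R Q L,
      ← IsScalarTower.algebraMap_apply Q L F]
  let C := integralClosure R L
  have : IsDedekindDomain C := IsIntegralClosure.isDedekindDomain R Q L C
  have : Module.Finite R C := IsIntegralClosure.finite R Q L C
  have : IsFractionRing C L := IsIntegralClosure.isFractionRing_of_finite_extension R Q L C
  have : IsPrincipalIdealRing C := IsPrincipalIdealRing.of_finite_maximals
    ((Algebra.QuasiFinite.finite_primesOver (S := C) (IsLocalRing.maximalIdeal R)).subset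
      fun I (hI : I.IsMaximal) => ⟨hI.isPrime, ⟨(IsLocalRing.eq_maximalIdeal
        (Ideal.isMaximal_comap_of_isIntegral_of_isMaximal I)).symm⟩⟩)
  let D := integralClosure C F
  have : FaithfulSMul C F := (faithfulSMul_iff_algebraMap_injective _ _).2
    ((algebraMap L F).injective.comp Subtype.val_injective)
  have : Module.IsTorsionFree C F := Module.IsTorsionFree.of_smul_eq_zero fun r x h =>
    (smul_eq_zero (r := (r : L))).1 h |>.imp_left Subtype.ext
  have : Module.Free C D := IsIntegralClosure.module_free C L F D
  have : Module.Finite C D := IsIntegralClosure.finite C L F D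
  let n := Module.finBasisOfFinrankEq C D (IsIntegralClosure.rank C L F D)
  obtain ⟨e⟩ : Nonempty (κ × Fin (finrank L F) ≃ ι) := Fintype.card_eq.1 (by
    rw [hι, ← finrank_mul_finrank Q L F, finrank_eq_card_basis z]; simp)
  have hn : ∀ l, IsIntegral R (n l : F) := fun l => isIntegral_trans (A := C) _ (n l).2
  choose M1 h1 using fun a l => hz _ (n.repr ⟨y a, (hy a).tower_top⟩ l).2
  choose M3 h3 using fun l b => hz _ (Algebra.isIntegral_trace (L := L) ((hn l).mul (hy b)))
  have key : (Matrix.of fun a b => Algebra.trace Q F (y a * y b)).submatrix e e =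
      (algebraMap R Q).mapMatrix (Matrix.of fun p q => M1 (e p) q.2 q.1) *
      Matrix.blockDiagonal (fun _ => Matrix.of fun a b => Algebra.trace Q L (z a * z b)) *
      (algebraMap R Q).mapMatrix (Matrix.of fun q p => M3 q.2 (e p) q.1) := by
    ext p q
    have k1 : y (e p) = ∑ l, (n.repr ⟨y (e p), (hy _).tower_top⟩ l : L) • (n l : F) := by
      have := congrArg Subtype.val (n.sum_repr ⟨y (e p), (hy _).tower_top⟩)
      rw [AddSubmonoidClass.coe_finsetSum] at this
      exact this.symm
    simp only [Matrix.submatrix_apply, Matrix.of_apply, Matrix.mul_apply, RingHom.mapMatrix_apply,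
      Matrix.map_apply, h1, h3, Fintype.sum_prod_type, Matrix.blockDiagonal_apply, mul_ite,
      mul_zero, sum_ite_eq', mem_univ, if_true]
    conv_lhs => rw [k1]
    rw [sum_mul, map_sum, sum_comm]
    refine sum_congr rfl fun l _ => ?_
    rw [← Algebra.trace_trace (S := L), smul_mul_assoc, map_smul, smul_eq_mul]
    generalize (n.repr ⟨y (e p), (hy _).tower_top⟩ l : L) = α
    generalize Algebra.trace L F ((n l : F) * y (e q)) = β
    conv_lhs => rw [← z.sum_repr α, ← z.sum_repr β]
    simp only [sum_mul, mul_sum, smul_mul_assoc, mul_smul_comm, map_sum, map_smul, smul_eq_mul]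
    exact sum_congr rfl fun _ _ => sum_congr rfl fun _ _ => by ring
  rw [← Matrix.det_submatrix_equiv_self e, key, Matrix.det_mul, Matrix.det_mul,
    Matrix.det_blockDiagonal, ← RingHom.map_det, ← RingHom.map_det]
  exact ⟨_, by rw [mul_right_comm, ← map_mul, prod_const, card_univ, Fintype.card_fin]⟩

end Pool.Agent.Lib.MP_d9f0ae_ag.LG
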