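import Pool.Agent.Lib.MP_d9f0ae_ag.Lg.Sim
import Pool.Agent.Lib.MP_d9f0ae_ag.Lg.Twr

/-! With few multiple branch points the Galois group contains all transpositions. -/

namespace Pool.Agent.Lib.MP_d9f0ae_ag.LG
open WithZero Polynomial Finset Module

variable {K F Ω : Type*} [Field K] [Field F] [Algebra K F] [Algebra (RatFunc K) F]
  [IsScalarTower K (RatFunc K) F] {v : Valuation F (WithZero (Multiplicative ℤ))}
  {A : Subalgebra K F} {m : ℕ} [CharZero K] [Field Ω] [Algebra K Ω] [Algebra (RatFunc K) Ω]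
  [IsScalarTower K (RatFunc K) Ω] [FiniteDimensional (RatFunc K) Ω] [IsGalois (RatFunc K) Ω]
  [IsAlgClosed K]

theorem Pt.comap (h : Pt K v A m) (L : IntermediateField (RatFunc K) F) :
    Pt K (v.comap (algebraMap L F)) (A.comap (L.val.restrictScalars K)) m where
  const := h.const
  mpos := h.mpos
  vx := h.vx
  xmem := h.xmem
  zero := fun f hf e => Subtype.ext (h.zero f hf e)
  res := fun f hf => h.res f hf
  frac := fun f => by
    obtain ⟨q, hq, hf⟩ := h.frac f
    refine ⟨q, hq, ?_⟩
    rw [Subalgebra.mem_comap, map_mul, ← alg_poly]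
    rwa [← alg_poly] at hf
  least := fun f hf => h.least f hf

namespace Ap
variable {ι : Type} [Fintype ι] [DecidableEq ι] (B : Ap K v A m ι)
  (E : Em (RatFunc K) F Ω ι) (P : Pl K Ω)
  {T : Matrix ι ι K[X]} (hT : ∀ a b,
    Algebra.trace (RatFunc K) F (B.y a * B.y b) = algebraMap K[X] _ (T a b))
include B E P hT

theorem inter_le (h : Pt K v A m) (hA : IC A) (hm : Fintype.card ι = m) [DecidableEq K]
    (L : IntermediateField (RatFunc K) F) (h1 : L ≠ ⊥) (h2 : L ≠ ⊤) :
    T.det.roots.toFinset.card + m ≤ T.det.natDegree + 1 := by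
  classical
  have := B.finite
  have : Nonempty ι := B.y.index_nonempty
  have hL := h.comap L
  obtain ⟨κ, _, ⟨B'⟩⟩ := hL.exists_Ap_aux
  obtain ⟨T', hT'⟩ := B'.exists_tr
  obtain ⟨d0, -⟩ := B.det_deg h hT
  obtain ⟨d1, d2⟩ := B'.det_deg hL hT'
  have d3 := B'.three_le hL
  have e1 : (Matrix.of fun a b => Algebra.trace (RatFunc K) F (B.y a * B.y b)).det =
      algebraMap K[X] _ T.det := by
    rw [RingHom.map_det]; congr 1; ext a b; exact hT a b
  have e2 : (Matrix.of fun a b => Algebra.trace (RatFunc K) L (B'.y a * B'.y b)).det =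
      algebraMap K[X] _ T'.det := by
    rw [RingHom.map_det]; congr 1; ext a b; exact hT' a b
  have e3 : algebraMap K[X] (RatFunc K) T'.det ^ finrank L F ≠ 0 := by simp [d1]
  obtain ⟨p, hp⟩ := P.poly_of_le
    (c := algebraMap K[X] _ T.det / algebraMap K[X] _ T'.det ^ finrank L F) fun t => by
    let ν := (P.ν t).comap (algebraMap (RatFunc K) Ω)
    have : ν.IsNontrivial := ⟨algebraMap K[X] _ (X - C t), by
      simp only [ν, Valuation.comap_apply, alg_poly, ← uu_eq]
      exact ⟨(P.hν t).pos.ne', (P.hν t).lt.ne⟩⟩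
    obtain ⟨c, hc⟩ := tower_det (R := ν.valuationSubring) (L := L) B.y
      (fun a => E.isIntegral (fun _ : Unit => P.ν t) (fun c hc => ⟨⟨c, hc ()⟩, rfl⟩)
        fun _ i => B.fin_le E P (B.mem a) t i) (finrank_eq_card_basis B.y).symm B'.y
      fun f hf j => by
        have k1 : ∀ i, P.ν t (E.σ i f) ≤ 1 := fun i => by
          obtain ⟨q, hq, hq0⟩ := hf
          let φ : ν.valuationSubring →+* (P.ν t).valuationSubring :=
            ((algebraMap (RatFunc K) Ω).comp ν.valuationSubring.subtype).codRestrict _ fun c => c.2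
          refine (Valuation.valuationSubring.integers (P.ν t)).isIntegral_iff_v_le_one.1
            ⟨q.map φ, hq.map φ, ?_⟩
          rw [eval₂_map]
          have := congrArg ((E.σ i : F →+* Ω).comp (algebraMap L F)) hq0
          rw [hom_eval₂, map_zero] at this
          refine Eq.trans ?_ this
          congr 1
          ext c
          exact ((E.σ i).commutes _).symm
        obtain ⟨q, hq, hq'⟩ := B.exists_mul_mem E P h hA k1
        obtain ⟨r, hr⟩ := B'.poly (algebraMap K[X] (RatFunc K) q • f) (by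
          rw [← alg_poly, ← Algebra.smul_def] at hq'; exact hq') j
        refine ⟨⟨B'.y.repr f j, ?_⟩, rfl⟩
        rw [map_smul, Finsupp.smul_apply, smul_eq_mul] at hr
        have := congrArg (fun c => P.ν t (algebraMap (RatFunc K) Ω c)) hr
        simp only [map_mul, alg_poly, P.fin_one hq, one_mul] at this
        exact this.trans_le (P.fin_le t r)
    rw [← e1, hc, e2, mul_div_cancel_right₀ _ e3]
    exact c.2
  have e4 : T.det = p * T'.det ^ finrank L F := by
    apply IsFractionRing.injective K[X] (RatFunc K)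
    rw [map_mul, map_pow, ← hp, div_mul_cancel₀ _ e3]
  have p0 : p ≠ 0 := by rintro rfl; exact d0 (by simpa using e4)
  have k1 : 2 ≤ finrank L F := by
    have := finrank_pos (R := L) (M := F)
    have := mt IntermediateField.finrank_eq_one_iff_eq_top.1 h2
    omega
  have k2 : 2 ≤ Fintype.card κ := by
    have := finrank_pos (R := RatFunc K) (M := L)
    have := mt IntermediateField.finrank_eq_one_iff.1 h1
    rw [← finrank_eq_card_basis B'.y]
    omega
  have k3 : Fintype.card κ * finrank L F = m := by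
    rw [← finrank_eq_card_basis B'.y, finrank_mul_finrank, finrank_eq_card_basis B.y, hm]
  have k4 : T.det.roots.toFinset.card ≤ p.natDegree + T'.det.natDegree := by
    rw [← natDegree_mul p0 d1]
    refine (card_le_card fun t ht => ?_).trans
      ((Multiset.toFinset_card_le _).trans (card_roots' (p * T'.det)))
    rw [Multiset.mem_toFinset, mem_roots (mul_ne_zero p0 d1), IsRoot, eval_mul]
    rw [Multiset.mem_toFinset, mem_roots d0, IsRoot, e4, eval_mul, eval_pow] at ht
    simpa [show finrank L F ≠ 0 by omega] using ht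
  have k5 : T.det.natDegree = p.natDegree + finrank L F * T'.det.natDegree := by
    rw [e4, natDegree_mul p0 (pow_ne_zero _ d1), natDegree_pow]
  have k6 : 3 * (Fintype.card κ - 1) ≤ T'.det.natDegree :=
    Nat.le_of_mul_le_mul_left (by rw [d2]; linarith) h.mpos
  obtain ⟨a, ha⟩ := Nat.exists_eq_add_of_le k1
  obtain ⟨b, hb⟩ := Nat.exists_eq_add_of_le k2
  rw [hb, show 2 + b - 1 = b + 1 by omega] at k6
  rw [ha, hb] at k3
  rw [ha] at k5
  nlinarith [Nat.mul_le_mul_left (a + 1) k6]

omit P hT in
theorem all_swaps (hL : ∀ L : IntermediateField (RatFunc K) F, L = ⊥ ∨ L = ⊤) {a b : ι}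
    (hab : a ≠ b) (hs : ∃ g, E.π g = Equiv.swap a b) (i j : ι) : ∃ g, E.π g = Equiv.swap i j := by
  classical
  let r : ι → ι → Prop := fun i j => ∃ g, E.π g = Equiv.swap i j
  have rfl' : ∀ i, r i i := fun i => ⟨1, by simp [Equiv.Perm.one_def]⟩
  have symm : ∀ i j, r i j → r j i := fun i j ⟨g, hg⟩ => ⟨g, hg.trans (Equiv.swap_comm _ _)⟩
  have conj : ∀ g i j, r i j → r (E.π g i) (E.π g j) := fun g i j ⟨g', hg⟩ =>
    ⟨g * g' * g⁻¹, by rw [Equiv.swap_apply_apply, map_mul, map_mul, map_inv, hg]⟩
  have trans : ∀ i j k, r i j → r j k → r i k := fun i j k ⟨g, hg⟩ h2 => by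
    by_cases e1 : k = i
    · exact e1 ▸ rfl' k
    by_cases e2 : k = j
    · exact e2 ▸ ⟨g, hg⟩
    simpa [hg, Equiv.swap_apply_of_ne_of_ne e1 e2] using conj g j k h2
  let L : IntermediateField (RatFunc K) F :=
    { carrier := {f | ∀ i j, r i j → E.σ i f = E.σ j f}
      mul_mem' := fun hf hg i j h => by rw [map_mul, map_mul, hf i j h, hg i j h]
      add_mem' := fun hf hg i j h => by rw [map_add, map_add, hf i j h, hg i j h]
      algebraMap_mem' := fun c i j _ => by rw [AlgHom.commutes, AlgHom.commutes]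
      inv_mem' := fun f hf i j h => by rw [map_inv₀, map_inv₀, hf i j h] }
  rcases hL L with h | h
  · have key : ∀ c, ∑ k with r i k, E.σ k (B.y c) = ∑ k with r j k, E.σ k (B.y c) := fun c => by
      obtain ⟨f, hf⟩ := B.descent E (fun i => ∑ k with r i k, E.σ k (B.y c)) fun g i => by
        rw [map_sum]
        refine (sum_equiv (E.π g) (fun k => ?_) fun k _ => (E.act g k _).symm).symm
        simp only [mem_filter, mem_univ, true_and]
        exact ⟨conj g i k, fun h => by simpa using conj g⁻¹ _ _ h⟩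
      have h1 : f ∈ L := fun i j h => by
        rw [hf, hf]
        exact sum_congr (filter_congr fun k _ =>
          ⟨trans _ _ _ (symm _ _ h), trans _ _ _ h⟩) fun _ _ => rfl
      rw [h] at h1
      obtain ⟨q, rfl⟩ := IntermediateField.mem_bot.1 h1
      rw [← hf, ← hf, AlgHom.commutes, AlgHom.commutes]
    have k2 : ∀ i, ∑ c, E.σ j (B.dual c) * ∑ k with r i k, E.σ k (B.y c) =
        if r i j then 1 else 0 := fun i => by
      simp only [mul_sum]
      rw [sum_comm]
      simp [B.dual_sum E]
    have k3 := k2 i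
    simp only [key, k2, rfl', if_true] at k3
    by_contra hn
    rw [if_neg hn] at k3
    exact one_ne_zero k3
  · refine absurd (E.inj (AlgHom.ext fun f => ?_)) hab
    exact (h ▸ IntermediateField.mem_top : f ∈ L) a b hs

end Ap
end Pool.Agent.Lib.MP_d9f0ae_ag.LG
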