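import Pool.Agent.Lib.MP_d9f0ae_ag.Defs

/-! Counting with the Apery set of a numerical semigroup. -/

namespace Pool.Agent.Lib.MP_d9f0ae_ag.LG
open Finset Pool.Agent.Lib.MP_d9f0ae_ag.W3

variable {S : Set ℕ} {m : ℕ} {ι : Type} [Fintype ι] {w : ι → ℕ} (hm : 0 < m)
  (inj : ∀ a b, w a % m = w b % m → a = b) (cov : ∀ n, n ∈ S ↔ ∃ a k, n = w a + m * k)
  (hfin : Sᶜ.Finite)

include hm cov hfin in
theorem exists_class (n : ℕ) : ∃ a, w a % m = n % m := by
  obtain ⟨M, hM⟩ := hfin.bddAbove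
  have : n + m * (M + 1) ∈ S := by
    by_contra h
    have h1 := hM h
    have h2 := Nat.mul_le_mul_right (M + 1) hm
    omega
  obtain ⟨a, k, e⟩ := (cov _).1 this
  exact ⟨a, by rw [← Nat.add_mul_mod_self_left (w a) m k, ← e, Nat.add_mul_mod_self_left]⟩

include hm inj cov hfin in
theorem class_bij : Function.Bijective fun a => (⟨w a % m, Nat.mod_lt _ hm⟩ : Fin m) :=
  ⟨fun a b e => inj a b (Fin.mk.inj e), fun r => by
    obtain ⟨a, ha⟩ := exists_class hm cov hfin r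
    exact ⟨a, Fin.ext (ha.trans (Nat.mod_eq_of_lt r.2))⟩⟩

include hm inj cov hfin in
theorem card_eq : Fintype.card ι = m := by
  simpa using Fintype.card_of_bijective (class_bij hm inj cov hfin)

include hm inj cov hfin in
theorem sum_le : 2 * ∑ a, w a + m ≤ m * (2 * genus S + m) := by
  classical
  have h1 : ∑ a, w a % m = ∑ r ∈ range m, r := by
    rw [← Fin.sum_univ_eq_sum_range fun r => r]
    exact (class_bij hm inj cov hfin).sum_comp fun r : Fin m => (r : ℕ)
  have h2 : ∑ a, w a / m ≤ genus S := by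
    rw [genus, Set.ncard_eq_toFinset_card _ hfin]
    have : ∑ a, w a / m = (univ.sigma fun a => range (w a / m)).card := by simp
    rw [this]
    refine card_le_card_of_injOn (fun p => w p.1 % m + m * p.2) (fun p hp => ?_) ?_
    · simp only [coe_sigma, Set.mem_sigma_iff, mem_coe, mem_range] at hp
      simp only [Set.Finite.coe_toFinset, Set.mem_compl_iff, cov]
      rintro ⟨a, k, e⟩
      have e1 := congrArg (· % m) e
      simp only [Nat.add_mul_mod_self_left, Nat.mod_mod] at e1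
      rw [← inj _ _ e1] at e
      have h3 := Nat.mod_add_div (w p.1) m
      have h4 := Nat.mul_lt_mul_of_pos_left hp.2 hm
      omega
    · rintro ⟨a, k⟩ - ⟨b, l⟩ - e
      have e1 := congrArg (· % m) e
      simp only [Nat.add_mul_mod_self_left, Nat.mod_mod] at e1
      obtain rfl := inj _ _ e1
      obtain rfl : k = l := Nat.eq_of_mul_eq_mul_left hm (by simpa using e)
      rfl
  have h3 : ∑ a, w a = ∑ a, w a % m + m * ∑ a, w a / m := by
    rw [mul_sum, ← sum_add_distrib]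
    exact sum_congr rfl fun a _ => (Nat.mod_add_div _ _).symm
  have h4 := sum_range_id_mul_two m
  obtain ⟨n, rfl⟩ : ∃ n, m = n + 1 := ⟨m - 1, by omega⟩
  rw [Nat.add_sub_cancel] at h4
  have h5 := Nat.mul_le_mul_left (n + 1) h2
  nlinarith

include hm inj cov hfin in
theorem exists_index (hmS : m ∈ S) (least : ∀ n ∈ S, 0 < n → m ≤ n) :
    ∃ (ε : Type) (_ : Fintype ε) (α β : ε → ι) (n : ε → ℕ), (∀ e, w (β e) ≠ 0) ∧
      (∀ e, w (β e) + m * (n e + 1) < w (α e)) ∧
      (∀ e e', α e = α e' → β e = β e' → n e = n e' → e = e') ∧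
      ew S + m ≤ genus S + 1 + Fintype.card ε := by
  classical
  let Z : Set (ℕ × ℕ) := {p | (IsGen S p.1 ∧ p.2 ∉ S ∧ p.1 < p.2) ∧ p.1 ≠ m}
  obtain ⟨M, hM⟩ := hfin.bddAbove
  have hZ : Z.Finite := ((Set.finite_le_nat M).prod (Set.finite_le_nat M)).subset
    fun p hp => ⟨hp.1.2.2.le.trans (hM hp.1.2.1), hM hp.1.2.1⟩
  have h1 : ∀ p : Z, ∃ b, w b = p.1.1 := by
    rintro ⟨⟨a, g⟩, ⟨⟨ha, ha0, hg⟩, -⟩, hne⟩
    obtain ⟨b, k, e⟩ := (cov _).1 ha
    rcases k with _ | k
    · exact ⟨b, e.symm⟩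
    by_cases h0 : w b + m * k = 0
    · exact absurd (by simp only at e ⊢; rw [e, mul_add, ← add_assoc, h0]; simp) hne
    · exact absurd ⟨m, hmS, _, (cov _).2 ⟨b, k, rfl⟩, hm, by omega, by
        simp only at e ⊢; rw [e]; ring⟩ hg
  have h2 : ∀ p : Z, ∃ a n, p.1.2 + m * (n + 1) = w a := by
    rintro ⟨⟨a, g⟩, ⟨-, hg, -⟩, -⟩
    obtain ⟨b, hb⟩ := exists_class hm cov hfin g
    by_cases h : w b ≤ g
    · obtain ⟨k, hk⟩ := (Nat.modEq_iff_dvd' h).1 hb
      exact absurd ((cov _).2 ⟨b, k, by simp only; omega⟩) hg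
    · obtain ⟨k, hk⟩ := (Nat.modEq_iff_dvd' (not_le.1 h).le).1 hb.symm
      rcases k with _ | k
      · omega
      · exact ⟨b, k, by simp only; omega⟩
  choose β hβ using h1
  choose α n hα using h2
  have := hZ.fintype
  refine ⟨Z, this, α, β, n, fun e => by rw [hβ]; exact e.2.1.1.2.1.ne', fun e => ?_,
    fun e e' p q r => Subtype.ext (Prod.ext ?_ ?_), ?_⟩
  · have := e.2.1.2.2
    rw [hβ, ← hα]
    omega
  · rw [← hβ, ← hβ, q]
  · have k1 := hα e
    have k2 := hα e'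
    rw [p, r] at k1
    omega
  have k1 : ew S ≤ Z.ncard + (Sᶜ \ Set.Ico 1 m).ncard := by
    rw [← Set.ncard_image_of_injective (Sᶜ \ Set.Ico 1 m) (Prod.mk_right_injective m)]
    refine le_trans (Set.ncard_le_ncard ?_ (hZ.union (hfin.sdiff.image _))) (Set.ncard_union_le _ _)
    rintro ⟨a, g⟩ hp
    by_cases h : a = m
    · exact Or.inr ⟨g, ⟨hp.2.1, fun q => by have := hp.2.2; have := q.2; simp only at *; omega⟩,
        by rw [h]⟩
    · exact Or.inl ⟨hp, h⟩
  have k2 := Set.ncard_sdiff_add_ncard_of_subset (s := Set.Ico 1 m) (t := Sᶜ)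
    (fun n hn h => (least n h hn.1).not_gt hn.2) hfin
  rw [Set.ncard_eq_toFinset_card' (Set.Ico 1 m), Set.toFinset_Ico, Nat.card_Ico] at k2
  rw [← Nat.card_eq_fintype_card, Nat.card_coe_set_eq, genus]
  omega

end Pool.Agent.Lib.MP_d9f0ae_ag.LG
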