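import Pool.Agent.Lib.MP_d9f0ae_ag.Lg.Pair
import Pool.Agent.Lib.MP_d9f0ae_ag.Lg.Prim
import Pool.Agent.Lib.MP_d9f0ae_ag.Lg.Desc
import Pool.Agent.Lib.MP_d9f0ae_ag.Lg.Sg

/-! Assembly of the bound on the number of moduli. -/

namespace Pool.Agent.Lib.MP_d9f0ae_ag.LG
open WithZero Polynomial Finset Module Pool.Agent.Lib.MP_d9f0ae_ag.W3

theorem der_alg {S K : Type*} [CommRing S] [IsDomain S] [Field K] [CharZero K] [Algebra S K]
    [FaithfulSMul S K] (D : Derivation ℤ K K) (hD : ∀ s, D (algebraMap S K s) = 0) {z : K}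
    (hz : IsAlgebraic S z) : D z = 0 := by
  have : CharZero S := (algebraMap S K).charZero
  obtain ⟨p, hp, h0⟩ := hz
  induction hn : p.natDegree using Nat.strong_induction_on generalizing p with | _ n ih
  have h1 := twisted_aeval (RingHom.id K) (D : K →ₗ[ℤ] K).toAddMonoidHom
    (fun f g => D.leibniz f g) hD z p
  rw [h0, map_zero] at h1
  refine (mul_eq_zero.1 h1.symm).elim (fun h2 => ?_) id
  have h3 : p.natDegree ≠ 0 := fun e => by
    rw [eq_C_of_natDegree_eq_zero e] at h0 hp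
    exact hp (by simpa using h0)
  exact ih _ (hn ▸ natDegree_derivative_lt h3) _ (mt derivative_eq_zero.1 h3) h2 rfl

/-- The derivation that fixes the coordinate normalised at `t₁` and `t₂`. -/
noncomputable def nrm {K : Type*} [Field K] (t₁ t₂ : K) (D : Derivation ℤ K K) : Par K :=
  (D, D t₁ - D (t₂ - t₁) / (t₂ - t₁) * t₁, D (t₂ - t₁) / (t₂ - t₁))

theorem eps_nrm {K : Type*} [Field K] [CharZero K] {t₁ t₂ : K} (h : t₁ ≠ t₂)
    (D : Derivation ℤ K K) (t : K) :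
    eps t (nrm t₁ t₂ D) = -(t₂ - t₁) * D ((t - t₁) / (t₂ - t₁)) := by
  have := sub_ne_zero.2 h.symm
  rw [eps_apply, nrm, Derivation.leibniz_div, map_sub D t]
  simp only [smul_eq_mul]
  field_simp
  ring

theorem exists_dual {k K : Type*} [Field k] [Field K] [Algebra k K] [CharZero K] [DecidableEq K]
    {t₁ t₂ : K} (h : t₁ ≠ t₂) {I : Set K} (hI : AlgebraicIndepOn k id I) (J : Finset K)
    (hJ : ∀ t ∈ J, (t - t₁) / (t₂ - t₁) ∈ I) :
    (t₁ ∉ J ∧ t₂ ∉ J) ∧ ∀ j ∈ insert t₁ (insert t₂ J), ∃ d : Par K,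
      ∀ t ∈ insert t₁ (insert t₂ J), eps t d = if t = j then 1 else 0 := by
  have h0 := sub_ne_zero.2 h.symm
  have h1 : ∀ j ∈ J, ∃ D : Derivation ℤ K K, D ((j - t₁) / (t₂ - t₁)) = 1 ∧
      ∀ t ∈ J, t ≠ j → D ((t - t₁) / (t₂ - t₁)) = 0 := fun j hj => by
    obtain ⟨D, k1, k2⟩ := exists_der_of_transcendental
      (AlgebraicIndependent.transcendental_adjoin hI (s := {⟨_, hJ j hj⟩}ᶜ) (i := ⟨_, hJ j hj⟩)
        (by simp))
    refine ⟨D, k2, fun t ht e => k1 ⟨_, Algebra.subset_adjoin ⟨⟨_, hJ t ht⟩, ?_, rfl⟩⟩⟩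
    simpa [div_left_inj' h0] using e
  have n1 : t₁ ∉ J := fun e => by
    obtain ⟨D, k, -⟩ := h1 _ e
    simp at k
  have n2 : t₂ ∉ J := fun e => by
    obtain ⟨D, k, -⟩ := h1 _ e
    simp [h0] at k
  have h2 : ∀ j ∈ J, ∃ d : Par K,
      ∀ t ∈ insert t₁ (insert t₂ J), eps t d = if t = j then 1 else 0 := fun j hj => by
    obtain ⟨D, k1, k2⟩ := h1 j hj
    refine ⟨(-(t₂ - t₁))⁻¹ • nrm t₁ t₂ D, fun t ht => ?_⟩
    rw [map_smul, eps_nrm h, smul_eq_mul, inv_mul_cancel_left₀ (neg_ne_zero.2 h0)]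
    split_ifs with e
    · rw [e, k1]
    rcases mem_insert.1 ht with rfl | ht
    · simp
    rcases mem_insert.1 ht with rfl | ht
    · simp [h0]
    · exact k2 t ht e
  have h3 : ∀ a b : K, ∃ d : Par K,
      ∀ t ∈ insert t₁ (insert t₂ J), eps t d = if t ∈ J then 0 else a + b * t := fun a b => by
    choose! d hd using h2
    refine ⟨((0, a, b) : Par K) - ∑ j ∈ J, (a + b * j) • d j, fun t ht => ?_⟩
    rw [map_sub, map_sum, sum_congr rfl fun j hj => by rw [map_smul, hd j hj t ht]]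
    split_ifs with e <;> simp [eps_apply, e]
  refine ⟨⟨n1, n2⟩, fun j hj => ?_⟩
  rcases mem_insert.1 hj with rfl | hj
  · obtain ⟨d, hd⟩ := h3 (t₂ / (t₂ - j)) (-1 / (t₂ - j))
    refine ⟨d, fun t ht => (hd t ht).trans ?_⟩
    rcases mem_insert.1 ht with rfl | ht
    · simp only [n1, if_true, if_false]; field_simp; ring
    rcases mem_insert.1 ht with rfl | ht
    · simp only [n2, h.symm, if_false]; ring
    · rw [if_pos ht, if_neg fun e : t = j => n1 (e ▸ ht)]
  rcases mem_insert.1 hj with rfl | hj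
  · obtain ⟨d, hd⟩ := h3 (-t₁ / (j - t₁)) (1 / (j - t₁))
    refine ⟨d, fun t ht => (hd t ht).trans ?_⟩
    rcases mem_insert.1 ht with rfl | ht
    · simp only [n1, h, if_false]; ring
    rcases mem_insert.1 ht with rfl | ht
    · simp only [n2, if_true, if_false]; field_simp; ring
    · rw [if_pos ht, if_neg fun e : t = j => n2 (e ▸ ht)]
  · exact h2 j hj

variable {K F Ω : Type*} [Field K] [Field F] [Algebra K F] [Algebra (RatFunc K) F]
  [IsScalarTower K (RatFunc K) F] {v : Valuation F (WithZero (Multiplicative ℤ))}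
  {A : Subalgebra K F} {m : ℕ} [CharZero K] [IsAlgClosed K]

theorem Ap.moduli_le [Field Ω] [Algebra K Ω] [Algebra (RatFunc K) Ω]
    [IsScalarTower K (RatFunc K) Ω] [FiniteDimensional (RatFunc K) Ω] [IsGalois (RatFunc K) Ω]
    [FiniteDimensional (RatFunc K) F] [DecidableEq K]
    {ι : Type} [Fintype ι] [DecidableEq ι] (B : Ap K v A m ι)
    (E : Em (RatFunc K) F Ω ι) (P : Pl K Ω) (h : Pt K v A m) (hA : IC A)
    {T : Matrix ι ι K[X]} (hT : ∀ a b,
      Algebra.trace (RatFunc K) F (B.y a * B.y b) = algebraMap K[X] _ (T a b))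
    (hB : ∀ a, B.w a ≠ 0 → Algebra.trace (RatFunc K) F (B.y a) = 0) (hm : Fintype.card ι = m)
    {ε : Type} [Fintype ε] (α β : ε → ι) (n : ε → ℕ) (hβ : ∀ e, B.w (β e) ≠ 0)
    (hlt : ∀ e, B.w (β e) + m * (n e + 1) < B.w (α e))
    (hinj : ∀ e e', α e = α e' → β e = β e' → n e = n e' → e = e')
    {J0 : Finset K} (hJ0 : J0 ⊆ T.det.roots.toFinset)
    (hd : ∀ j ∈ J0, ∃ d : Par K, ∀ t ∈ J0, eps t d = if t = j then 1 else 0)
    (h1 : T.det.natDegree + 2 ≤ J0.card + m) (h2 : 2 * (m + 1) ^ 6 < J0.card) :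
    Fintype.card ε + J0.card ≤ T.det.natDegree := by
  obtain ⟨d0, -⟩ := B.det_deg h hT
  set J := T.det.roots.toFinset
  have hJ : ∀ t, t ∈ J ↔ T.det.eval t = 0 := fun t => by simp [J, d0]
  have hpos : ∀ t ∈ J, 1 ≤ T.det.rootMultiplicity t := fun t ht =>
    (rootMultiplicity_pos d0).2 ((hJ t).1 ht)
  have hsum : ∑ t ∈ J, T.det.rootMultiplicity t = T.det.natDegree := by
    simp only [← count_roots]
    rw [Multiset.toFinset_sum_count_eq, IsAlgClosed.card_roots_eq_natDegree]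
  have c0 := card_le_card hJ0
  have hM : ∀ t, T.det.rootMultiplicity t ≤ m := fun t => by
    by_cases ht : t ∈ J
    · have := card_nsmul_le_sum (J.erase t) _ 1 fun s hs => hpos s (mem_of_mem_erase hs)
      rw [← add_sum_erase _ _ ht] at hsum
      rw [card_erase_of_mem ht, smul_eq_mul] at this
      omega
    · rw [rootMultiplicity_eq_zero (mt (hJ t).2 ht)]; omega
  let G := J0.filter fun t => T.det.rootMultiplicity t = 1
  have c1 : J.card + (J.filter fun t => T.det.rootMultiplicity t ≠ 1).card ≤ T.det.natDegree := by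
    rw [← hsum, card_eq_sum_ones, card_filter, ← sum_add_distrib]
    refine sum_le_sum fun t ht => ?_
    have := hpos t ht
    split_ifs <;> omega
  have c2 : (J \ G).card ≤
      (J \ J0).card + (J.filter fun t => T.det.rootMultiplicity t ≠ 1).card :=
    (card_le_card fun t ht => by
      simp only [G, mem_sdiff, mem_union, mem_filter] at ht ⊢
      tauto).trans (card_union_le _ _)
  have c3 := card_sdiff_add_card_eq_card hJ0
  have c4 : (J \ G).card + G.card = J.card :=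
    card_sdiff_add_card_eq_card ((filter_subset _ _).trans hJ0)
  have c5 : 2 * ((m + m ^ 2) * m ^ 2) * (m + m ^ 2) + m ^ 2 + m ≤ 2 * (m + 1) ^ 6 := by
    have : 2 * (m + 1) ^ 6 = 2 * ((m + m ^ 2) * m ^ 2) * (m + m ^ 2) + m ^ 2 + m +
      (8 * m ^ 5 + 28 * m ^ 4 + 40 * m ^ 3 + 29 * m ^ 2 + 11 * m + 2) := by ring
    omega
  have c6 := Nat.mul_le_mul_left (2 * ((m + m ^ 2) * m ^ 2))
    (show (J \ G).card + m ^ 2 ≤ m + m ^ 2 by omega)
  obtain ⟨t0, ht0⟩ : G.Nonempty := card_pos.1 (by omega)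
  have : Nonempty ι := B.y.index_nonempty
  choose! a b hs using fun t (ht : t ∈ G) => B.simple E P hT d0 (mem_filter.1 ht).2
  have hsw := B.all_swaps E (fun L => by
    by_contra hn
    push Not at hn
    have := B.inter_le E P hT h hA hm L hn.1 hn.2
    change J.card + m ≤ _ at this
    omega) (hs t0 ht0).ne (hs t0 ht0).swap
  have := B.count_le E P h hA hT hB α β n hβ hlt hinj (J := J) (G := G)
    (fun t ht => mt (hJ t).2 ht) hJ0
    (filter_subset _ _) hd hs hsw hM (by rw [hm]; omega)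
  omega

theorem main (k : Type*) [Field k] [Algebra k K] (h : Pt K v A m) (hA : IC A) (S : Set ℕ)
    (hS : ∀ n, n ∈ S ↔ ∃ f ∈ A, v f = exp (n : ℤ)) (hfin : Sᶜ.Finite)
    (hg : (m + 1) ^ 6 ≤ genus S) :
    ∃ T : Finset K, (T.card : ℤ) ≤ max (2 * (genus S : ℤ) - 2) (3 * (genus S : ℤ) - 2 - ew S) ∧
      ∃ B : Basis S K A, (∀ s : S, v (B s : F) = exp ((s : ℕ) : ℤ)) ∧
        ∀ s t u : S, IsAlgebraic (Algebra.adjoin k (T : Set K)) (B.repr (B s * B t) u) := by
  classical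
  obtain ⟨ι, _, B, hB⟩ := h.exists_Ap
  have := B.finite
  obtain ⟨T, hT⟩ := B.exists_tr
  obtain ⟨d0, d1⟩ := B.det_deg h hT
  obtain ⟨E⟩ := nonempty_Em (RatFunc K) F ι (finrank_eq_card_basis B.y).symm
  have : IsGalois (RatFunc K) (IntermediateField.normalClosure (RatFunc K) F
    (AlgebraicClosure (RatFunc K))) := ⟨⟩
  obtain ⟨P⟩ := nonempty_Pl (K := K) (Ω := IntermediateField.normalClosure (RatFunc K) F
    (AlgebraicClosure (RatFunc K)))
  have cov : ∀ n, n ∈ S ↔ ∃ a k, n = B.w a + m * k := fun n =>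
    ⟨fun hn => by obtain ⟨f, hf, e⟩ := (hS n).1 hn; exact B.cover h hf e, by
      rintro ⟨a, k, rfl⟩
      refine (hS _).2 ⟨B.y a * xx K F ^ k, mul_mem (B.mem a) (pow_mem h.xmem k), ?_⟩
      rw [map_mul, map_pow, B.val, h.vx, ← exp_nsmul, ← exp_add]
      simp [mul_comm]⟩
  obtain ⟨ε, _, α, β, n, hβ, hlt, hinj, hew⟩ := exists_index h.mpos B.inj cov hfin
    ((hS m).2 ⟨_, h.xmem, h.vx⟩) fun n hn h0 => by
      obtain ⟨f, hf, e⟩ := (hS n).1 hn; exact h.least f hf n e h0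
  have hdeg : T.det.natDegree + 1 ≤ 2 * genus S + m :=
    Nat.le_of_mul_le_mul_left (by
      rw [mul_add, d1, mul_one]; exact sum_le h.mpos B.inj cov hfin) h.mpos
  set J := T.det.roots.toFinset
  obtain ⟨t₁, t₂, h12, hJ⟩ : ∃ t₁ t₂ : K, t₁ ≠ t₂ ∧
      ((t₁ ∈ J ∧ t₂ ∈ J) ∨ ∀ t ∈ J, t = t₁) := by
    by_cases c : 1 < J.card
    · obtain ⟨a, ha, b, hb, e⟩ := one_lt_card.1 c
      exact ⟨a, b, e, Or.inl ⟨ha, hb⟩⟩
    · obtain ⟨x, hx⟩ := card_le_one_iff_subset_singleton.1 (not_lt.1 c)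
      exact ⟨x, x + 1, by simp, Or.inr fun t ht => mem_singleton.1 (hx ht)⟩
  have h0 := sub_ne_zero.2 h12.symm
  obtain ⟨I, hI⟩ := (AlgebraicIndependent.matroid k K).exists_isBasis
    (J.image fun t => (t - t₁) / (t₂ - t₁) : Finset K) (Set.subset_univ _)
  obtain ⟨i1, i2, i3⟩ := AlgebraicIndependent.matroid_isBasis_iff.1 hI
  lift I to Finset K using (finite_toSet _).subset i2
  obtain ⟨C, c1, c2⟩ := B.exists_flat_basis E P h hA hT
    (nrm t₁ t₂ '' {D | ∀ s : Algebra.adjoin k (I : Set K), D (algebraMap _ K s) = 0})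
    (by
      rintro _ ⟨D, hD, rfl⟩ t ht
      rw [eps_nrm h12, der_alg D hD (i3 _ (mem_coe.2 (mem_image_of_mem _ (by simp [J, d0, ht])))),
        mul_zero])
    (s := fun n => t₁ + n * (t₂ - t₁)) (fun a b e => by simpa [h0] using e)
    (by
      rintro _ ⟨D, -, rfl⟩ n
      rw [eps_nrm h12, add_sub_cancel_left, mul_div_cancel_right₀ _ h0, Derivation.map_natCast,
        mul_zero]) S hS
  refine ⟨I, ?_, C, c1, fun s t u => ?_⟩
  swap
  · by_contra hn
    obtain ⟨D, k1, k2⟩ := exists_der_of_transcendental (T := K) hn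
    exact one_ne_zero (k2.symm.trans (c2 _ ⟨D, k1, rfl⟩ s t u))
  rw [le_max_iff, or_iff_not_imp_left]
  intro hn
  let J1 := J.filter fun t => (t - t₁) / (t₂ - t₁) ∈ I
  have j1 : J1.card = I.card := by
    refine card_bij (fun t _ => (t - t₁) / (t₂ - t₁)) (fun t ht => (mem_filter.1 ht).2)
      (fun a _ b _ e => by simpa [div_left_inj' h0] using e) fun z hz => ?_
    obtain ⟨t, ht, rfl⟩ := mem_image.1 (mem_coe.1 (i2 hz))
    exact ⟨t, mem_filter.2 ⟨ht, hz⟩, rfl⟩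
  obtain ⟨⟨n1, n2⟩, hd⟩ := exists_dual h12 i1 J1 fun t ht => (mem_filter.1 ht).2
  have hp : 0 < (m + 1) ^ 6 := by positivity
  have j2 : (insert t₁ (insert t₂ J1)).card = I.card + 2 := by
    rw [card_insert_of_notMem (by simp [h12, n1]), card_insert_of_notMem n2, j1]
  have j3 : insert t₁ (insert t₂ J1) ⊆ J := by
    obtain ⟨t, ht⟩ : J1.Nonempty := card_pos.1 (by omega)
    obtain ⟨p, q⟩ := hJ.resolve_right fun e => n1 (e t (mem_filter.1 ht).1 ▸ ht)
    exact insert_subset p (insert_subset q (filter_subset _ _))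
  have := B.moduli_le E P h hA hT hB (card_eq h.mpos B.inj cov hfin) α β n hβ hlt hinj j3 hd
    (by omega) (by omega)
  omega

end Pool.Agent.Lib.MP_d9f0ae_ag.LG
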