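import Pool.Agent.Lib.MP_d9f0ae_ag.Lg.Lin

/-! Subspaces of matrices stable under all transpositions. -/

namespace Pool.Agent.Lib.MP_d9f0ae_ag.LG
open WithZero Module Finset Equiv

variable {K ι : Type*} [Field K] [Fintype ι] [DecidableEq ι]

/-- The root vector `e a - e b`. -/
def rt (K : Type*) [Field K] (a b i : ι) : K := (if i = a then 1 else 0) - if i = b then 1 else 0

theorem swap_eq (f : ι → K) (a b i : ι) : f (swap a b i) = f i - rt K a b i * (f a - f b) := by
  by_cases h : a = b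
  · simp [h]
  by_cases ha : i = a
  · simp [rt, ha, h]
  by_cases hb : i = b
  · simp [rt, hb, Ne.symm h]
  · simp [rt, ha, hb, swap_apply_of_ne_of_ne ha hb]

theorem sum_rt (g : ι → ι → K) (k : ι) :
    ∑ a, ∑ b, rt K a b k * g a b = ∑ b, g k b - ∑ a, g a k := by
  simp only [rt, sub_mul, sum_sub_distrib, ite_mul, one_mul, zero_mul]
  congr 1
  · rw [sum_comm]; simp
  · simp

theorem sum_rt' (f : ι → K) (hf : ∑ i, f i = 0) (k : ι) :
    ∑ a, ∑ b, rt K a b k * (f a - f b) = 2 * Fintype.card ι * f k := by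
  rw [sum_rt]
  simp [hf]
  ring

/-- The value of a matrix on a root vector. -/
def rho (w : ι × ι → K) (a b : ι) : K := w (a, a) - w (a, b) - w (b, a) + w (b, b)

/-- The symmetric matrix built from the values on root vectors. -/
def Xi (K ι : Type*) [Field K] [Fintype ι] [DecidableEq ι] : (ι × ι → K) →ₗ[K] (ι × ι → K) where
  toFun w := fun p => ∑ a, ∑ b, rt K a b p.1 * (rho w a b * rt K a b p.2)
  map_add' w w' := by
    ext p
    simp only [Pi.add_apply, ← sum_add_distrib, rho]
    exact sum_congr rfl fun a _ => sum_congr rfl fun b _ => by ring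
  map_smul' c w := by
    ext p
    simp only [Pi.smul_apply, smul_eq_mul, mul_sum, rho, RingHom.id_apply]
    exact sum_congr rfl fun a _ => sum_congr rfl fun b _ => by ring

theorem Xi_eq (w : ι × ι → K) (hrow : ∀ i, ∑ j, w (i, j) = 0) (hcol : ∀ j, ∑ i, w (i, j) = 0) :
    Xi K ι w = (∑ a, ∑ b, fun p : ι × ι => w (swap a b p.1, swap a b p.2)) -
      ((Fintype.card ι : K) ^ 2 - 4 * Fintype.card ι) • w := by
  ext ⟨i, j⟩
  have h1 : ∀ a b, w (swap a b i, swap a b j) = w (i, j) - rt K a b i * (w (a, j) - w (b, j))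
      - rt K a b j * (w (i, a) - w (i, b)) + rt K a b i * (rho w a b * rt K a b j) := fun a b => by
    rw [swap_eq (fun i => w (i, swap a b j)), swap_eq (fun j => w (i, j)),
      swap_eq (fun j => w (a, j)), swap_eq (fun j => w (b, j)), rho]
    ring
  simp only [Pi.sub_apply, Finset.sum_apply, h1, sum_add_distrib, sum_sub_distrib,
    sum_rt' _ (hcol j), sum_rt' _ (hrow i), Pi.smul_apply, smul_eq_mul, sum_const, card_univ,
    nsmul_eq_mul]
  change ∑ a, ∑ b, rt K a b i * (rho w a b * rt K a b j) = _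
  ring

/-- The product of a matrix with the root vector `e a - e b`. -/
def onRt (K : Type*) [Field K] (a b : ι) : (ι × ι → K) →ₗ[K] (ι → K) where
  toFun w := fun k => w (k, a) - w (k, b)
  map_add' w w' := by ext k; simp; ring
  map_smul' c w := by ext k; simp; ring

theorem onRt_Xi (w : ι × ι → K) (a b k : ι) :
    onRt K a b (Xi K ι w) k = 2 * ∑ j, rho w k j * (rt K a b k - rt K a b j) := by
  have h1 : onRt K a b (Xi K ι w) k =
      ∑ i, ∑ j, rt K i j k * (rho w i j * (rt K a b i - rt K a b j)) := by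
    change ∑ i, ∑ j, rt K i j k * (rho w i j * rt K i j a) -
      ∑ i, ∑ j, rt K i j k * (rho w i j * rt K i j b) = _
    simp only [← sum_sub_distrib]
    refine sum_congr rfl fun i _ => sum_congr rfl fun j _ => ?_
    simp only [rt, eq_comm (a := a), eq_comm (a := b)]
    ring
  rw [h1, sum_rt, two_mul, ← sum_sub_distrib, ← sum_add_distrib]
  exact sum_congr rfl fun j _ => by simp only [rho]; ring

theorem sym_core [CharZero K] (W : Submodule K (ι × ι → K)) (h0 : W ≠ ⊥)
    (hrow : ∀ w ∈ W, ∀ i, ∑ j, w (i, j) = 0) (hcol : ∀ w ∈ W, ∀ j, ∑ i, w (i, j) = 0)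
    (hswap : ∀ w ∈ W, ∀ a b, (fun p : ι × ι => w (swap a b p.1, swap a b p.2)) ∈ W)
    {a b : ι} (hab : a ≠ b) (Z : Submodule K (ι × ι → K)) (hZ : Z ≤ W)
    (hZ1 : ∀ w ∈ Z, onRt K a b w = 0) (hZ2 : ∀ w ∈ Z, ∀ p : ι × ι, w p + w (swap a b p.1, p.2) = 0) :
    finrank K Z < finrank K (W.map (onRt K a b)) := by
  have hXi : ∀ w ∈ W, Xi K ι w ∈ W := fun w hw => by
    rw [Xi_eq w (hrow w hw) (hcol w hw)]
    exact sub_mem (sum_mem fun a _ => sum_mem fun b _ => hswap w hw a b) (W.smul_mem _ hw)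
  have hm : (Fintype.card ι : K) ≠ 0 := by
    have : Nonempty ι := ⟨a⟩
    exact_mod_cast Fintype.card_ne_zero
  have hform : ∀ w ∈ Z, ∀ i j, w (i, j) = rt K a b i * w (a, j) := fun w hw i j => by
    have h1 := hZ2 w hw (i, j)
    by_cases ha : i = a
    · simp [rt, ha, hab]
    by_cases hb : i = b
    · subst hb
      simp only [swap_apply_right] at h1
      simp only [rt, ha, if_false, if_true]
      linear_combination h1
    · simp only [swap_apply_of_ne_of_ne ha hb] at h1
      simp only [rt, ha, hb, if_false]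
      linear_combination h1 / 2
  have hval : ∀ w ∈ Z, ∀ k, onRt K a b (Xi K ι w) k =
      if k = a ∨ k = b then 2 * Fintype.card ι * w (a, a) else 4 * (w (a, k) - w (a, a)) := by
    intro w hw k
    have h1 : w (a, b) = w (a, a) := (sub_eq_zero.1 (congrFun (hZ1 w hw) a)).symm
    have h2 := hrow w (hZ hw) a
    have h3 : ∀ j, rho w k j * (rt K a b k - rt K a b j) =
        (if k = a ∨ k = b then w (a, a) - w (a, j) else 0) + (if j = a ∨ j = b then
          (if k = a ∨ k = b then 0 else w (a, k) - w (a, a)) else 0) := fun j => by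
      rw [rho, hform w hw k k, hform w hw k j, hform w hw j k, hform w hw j j]
      have hba := hab.symm
      have tri : ∀ k, k = a ∨ k = b ∨ (k ≠ a ∧ k ≠ b) := fun k => by tauto
      rcases tri k with ka | ka | ⟨ka, kb⟩ <;> rcases tri j with ja | ja | ⟨ja, jb⟩
      · simp [rt, ka, ja]
      · simp [rt, ka, ja, hab, hba, h1]
      · simp [rt, ka, ja, jb, hab]
      · simp [rt, ka, ja, hab, hba, h1]
      · simp [rt, ka, ja, h1]
      · simp [rt, ka, ja, jb, hba, h1]; ring
      · simp [rt, ka, kb, ja, hab]; ring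
      · simp [rt, ka, kb, ja, hba, h1]; ring
      · simp [rt, ka, kb, ja, jb]
    have h4 : (univ.filter fun j => j = a ∨ j = b) = {a, b} := by ext; simp
    rw [onRt_Xi]
    simp only [h3, sum_add_distrib]
    rw [sum_ite (p := fun j => j = a ∨ j = b), h4, sum_pair hab]
    split_ifs
    · simp [h2]; ring
    · simp; ring
  let θ : Z →ₗ[K] (ι → K) := ((onRt K a b).comp (Xi K ι)).domRestrict Z
  have hinj : Function.Injective θ := by
    rw [injective_iff_map_eq_zero]
    rintro ⟨w, hw⟩ h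
    have h1 : ∀ k, onRt K a b (Xi K ι w) k = 0 := fun k => congrFun h k
    have h2 : w (a, a) = 0 := by simpa [hval w hw, hm] using h1 a
    have h3 : ∀ k, w (a, k) = 0 := fun k => by
      by_cases hk : k = a ∨ k = b
      · rcases hk with rfl | rfl
        · exact h2
        · exact (sub_eq_zero.1 (congrFun (hZ1 w hw) a)).symm.trans h2
      · simpa [hval w hw, hk, h2] using h1 k
    ext ⟨i, j⟩
    simp [hform w hw i j, h3]
  rw [← LinearMap.finrank_range_of_inj hinj]
  refine Submodule.finrank_lt_finrank_of_lt (lt_of_le_of_ne ?_ fun heq => h0 ?_)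
  · rintro _ ⟨⟨w, hw⟩, rfl⟩
    exact ⟨_, hXi w (hZ hw), rfl⟩
  have conj : ∀ i j : ι, i ≠ j → ∀ w ∈ W, ∃ w' ∈ W, ∃ σ : Perm ι, σ a = i ∧ σ b = j ∧
      ∀ p : ι × ι, w' p = w (σ p.1, σ p.2) := fun i j hij w hw => by
    refine ⟨_, hswap _ (hswap w hw a i) b (swap a i j), swap a i * swap b (swap a i j), ?_, ?_,
      fun p => rfl⟩
    · have : a ≠ swap a i j := fun h => hij (by simpa using congrArg (swap a i) h)
      simp [swap_apply_of_ne_of_ne hab this]
    · simp
  have h1 : ∀ w ∈ W, rho w a b = 0 := fun w hw => by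
    obtain ⟨⟨z, hz⟩, e⟩ : onRt K a b w ∈ LinearMap.range θ := heq ▸ ⟨w, hw, rfl⟩
    have e1 : onRt K a b (Xi K ι z) a = w (a, a) - w (a, b) := congrFun e a
    have e2 : onRt K a b (Xi K ι z) b = w (b, a) - w (b, b) := congrFun e b
    simp only [hval z hz, true_or, or_true, if_true] at e1 e2
    rw [rho]
    linear_combination e2 - e1
  have h2 : ∀ w ∈ W, ∀ i j, rho w i j = 0 := fun w hw i j => by
    by_cases hij : i = j
    · simp [rho, hij]
    obtain ⟨w', hw', σ, rfl, rfl, e⟩ := conj i j hij w hw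
    simpa [rho, e] using h1 w' hw'
  have h3 : ∀ w ∈ W, onRt K a b w = 0 := fun w hw => by
    obtain ⟨⟨z, hz⟩, e⟩ : onRt K a b w ∈ LinearMap.range θ := heq ▸ ⟨w, hw, rfl⟩
    rw [← e]
    ext k
    change onRt K a b (Xi K ι z) k = 0
    simp [onRt_Xi, h2 z (hZ hz)]
  have h4 : ∀ w ∈ W, ∀ k i j, w (k, i) = w (k, j) := fun w hw k i j => by
    by_cases hij : i = j
    · rw [hij]
    obtain ⟨w', hw', σ, rfl, rfl, e⟩ := conj i j hij w hw
    have : w' (σ.symm k, a) - w' (σ.symm k, b) = 0 := congrFun (h3 w' hw') (σ.symm k)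
    simpa [e, sub_eq_zero] using this
  rw [eq_bot_iff]
  intro w hw
  ext ⟨k, i⟩
  have := hrow w hw k
  simp only [h4 w hw k _ i] at this
  simpa [hm] using this

theorem sym_det [CharZero K] {Ω κ : Type*} [Field Ω] [Algebra K Ω] [Fintype κ] [DecidableEq κ]
    [Nonempty κ] (ν : Valuation Ω (WithZero (Multiplicative ℤ)))
    (hν : ∀ c : K, c ≠ 0 → ν (algebraMap K Ω c) = 1) (e : κ → ι × ι → K)
    (he : LinearIndependent K e) (hrow : ∀ j i, ∑ i', e j (i, i') = 0)
    (hcol : ∀ j i', ∑ i, e j (i, i') = 0)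
    (hswap : ∀ a b j, (fun p : ι × ι => e j (swap a b p.1, swap a b p.2)) ∈
      Submodule.span K (Set.range e))
    {a b : ι} (hab : a ≠ b) (Γ : Matrix κ κ Ω) (Ψ : κ → ι × ι → Ω)
    (hΨ : ∀ i p, Ψ i p = ∑ j, Γ i j * algebraMap K Ω (e j p))
    (h1 : ∀ i k, ν (Ψ i (k, a) - Ψ i (k, b)) ≤ exp (-1))
    (h2 : ∀ i p, ν (Ψ i p + Ψ i (swap a b p.1, p.2)) ≤ 1)
    (h3 : ∀ i j, ν (Γ i j) ≤ exp 1) : ν Γ.det ≤ exp (-1) := by
  let P₁ : Matrix κ ι K := Matrix.of fun j k => e j (k, a) - e j (k, b)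
  let P₂ : Matrix κ (ι ⊕ ι × ι) K :=
    Matrix.of fun j => Sum.elim (P₁ j) fun p => e j p + e j (swap a b p.1, p.2)
  have hc : ∀ x : K, ν (algebraMap K Ω x) ≤ 1 := fun x => by
    by_cases hx : x = 0
    · simp [hx]
    · exact (hν x hx).le
  have cl : ∀ (s : Set (κ → K)) (β : WithZero (Multiplicative ℤ)),
      (∀ l ∈ s, ∀ i, ν (∑ j, Γ i j * algebraMap K Ω (l j)) ≤ β) →
      ∀ l ∈ Submodule.span K s, ∀ i, ν (∑ j, Γ i j * algebraMap K Ω (l j)) ≤ β := by
    intro s β h l hl i
    induction hl using Submodule.span_induction with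
    | mem x hx => exact h x hx i
    | zero => simp
    | add x y _ _ hx hy => simpa [mul_add, sum_add_distrib] using ν.map_add_le hx hy
    | smul c x _ hx =>
      have : ∑ j, Γ i j * algebraMap K Ω ((c • x) j) =
          algebraMap K Ω c * ∑ j, Γ i j * algebraMap K Ω (x j) := by
        simp [mul_sum, mul_left_comm]
      rw [this, map_mul]
      exact (mul_le_of_le_one_left' (hc c)).trans hx
  have k1 : ∀ k i, ν (∑ j, Γ i j * algebraMap K Ω (P₁ j k)) ≤ exp (-1) := fun k i => by
    simpa [hΨ, P₁, mul_sub] using h1 i k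
  have H := det_le ν hν Γ (Submodule.span K (Set.range P₁.col))
    (Submodule.span K (Set.range P₂.col))
    (Submodule.span_mono (by rintro _ ⟨k, rfl⟩; exact ⟨Sum.inl k, rfl⟩)) 1 1
    (cl _ _ (by rintro _ ⟨k, rfl⟩; exact k1 k))
    (cl _ _ (by
      rintro _ ⟨k | p, rfl⟩ i
      · exact (k1 k i).trans (by rw [← exp_zero, exp_le_exp]; omega)
      · simpa [hΨ, P₂, mul_add, sum_add_distrib] using h2 i p)) h3
  refine H.trans (exp_le_exp.2 ?_)
  rw [← Matrix.rank_eq_finrank_span_cols, ← Matrix.rank_eq_finrank_span_cols,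
    ← Matrix.rank_transpose P₁, ← Matrix.rank_transpose P₂, Matrix.rank, Matrix.rank]
  have r2 := LinearMap.finrank_range_add_finrank_ker P₂.transpose.mulVecLin
  let E := Fintype.linearCombination K e
  have hE : Function.Injective E := he.fintypeLinearCombination_injective
  have hEp : ∀ l p, E l p = ∑ j, l j * e j p := fun l p => by
    simp [E, Fintype.linearCombination_apply]
  have q1 : P₁.transpose.mulVecLin = (onRt K a b).comp E := by
    ext j k
    simp [P₁, onRt, hEp, Pi.single_apply]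
  have core := sym_core (LinearMap.range E) (by
      intro h
      obtain ⟨j⟩ := ‹Nonempty κ›
      have : E (Pi.single j 1) = E 0 := by
        rw [map_zero]; exact (Submodule.eq_bot_iff _).1 h _ ⟨_, rfl⟩
      simpa using congrFun (hE this) j)
    (by rintro _ ⟨l, rfl⟩ i; simp only [hEp]; rw [sum_comm]; simp [← mul_sum, hrow])
    (by rintro _ ⟨l, rfl⟩ i; simp only [hEp]; rw [sum_comm]; simp [← mul_sum, hcol])
    (by
      rintro _ ⟨l, rfl⟩ a b
      have : (fun p : ι × ι => E l (swap a b p.1, swap a b p.2)) =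
          ∑ j, l j • fun p : ι × ι => e j (swap a b p.1, swap a b p.2) := by
        ext p; simp [hEp]
      rw [this, Fintype.range_linearCombination]
      exact sum_mem fun j _ => Submodule.smul_mem _ _ (hswap a b j))
    hab ((LinearMap.ker P₂.transpose.mulVecLin).map E) (by rintro _ ⟨l, -, rfl⟩; exact ⟨l, rfl⟩)
    (by
      rintro _ ⟨l, hl, rfl⟩
      rw [← LinearMap.comp_apply, ← q1]
      ext k
      exact congrFun hl (Sum.inl k))
    (by
      rintro _ ⟨l, hl, rfl⟩ p
      have := congrFun hl (Sum.inr p)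
      simpa [hEp, P₂, Matrix.vecMul, dotProduct, mul_add, sum_add_distrib] using this)
  rw [← (Submodule.equivMapOfInjective E hE _).finrank_eq, ← LinearMap.range_comp, ← q1] at core
  rw [finrank_fintype_fun_eq_card] at r2
  push_cast
  omega

end Pool.Agent.Lib.MP_d9f0ae_ag.LG
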