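import Pool.Agent.Lib.MP_d9f0ae_ag.Lg.Emb
import Pool.Agent.Lib.MP_d9f0ae_ag.Lg.Sym

/-! The vanishing theorem: iterated derivatives of a section span a flat subspace whose
determinant has too many zeros. -/

namespace Pool.Agent.Lib.MP_d9f0ae_ag.LG
open WithZero Polynomial Finset Module

variable {K F Ω : Type*} [Field K] [Field F] [Algebra (RatFunc K) F] [CharZero K] [Field Ω]
  [Algebra K Ω] [Algebra (RatFunc K) Ω] [IsScalarTower K (RatFunc K) Ω]
  [FiniteDimensional (RatFunc K) Ω] [IsGalois (RatFunc K) Ω] [IsAlgClosed K] [DecidableEq K]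
  {ι : Type} [Fintype ι] [DecidableEq ι] (E : Em (RatFunc K) F Ω ι) (P : Pl K Ω)

/-- Equivariant matrices with prescribed local behaviour. -/
structure Lat (J G : Finset K) (a b : K → ι) (n : ℕ) (w : ι × ι → Ω) : Prop where
  equiv : ∀ g (p : ι × ι), w (E.π g p.1, E.π g p.2) = g (w p)
  row : ∀ i, ∑ j, w (i, j) = 0
  col : ∀ j, ∑ i, w (i, j) = 0
  inf : ∀ p, P.μ (w p) ≤ 1
  reg : ∀ t ∉ J, ∀ p, P.ν t (w p) ≤ 1
  pole : ∀ t p, P.ν t (uu Ω t ^ n * w p) ≤ 1
  g1 : ∀ t ∈ G, ∀ p, P.ν t (w p) ≤ exp 1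
  g2 : ∀ t ∈ G, ∀ k, P.ν t (w (k, a t) - w (k, b t)) ≤ exp (-1)
  g3 : ∀ t ∈ G, ∀ p : ι × ι, P.ν t (w p + w (Equiv.swap (a t) (b t) p.1, p.2)) ≤ 1

variable {E P}

theorem Lat.mono {J G G' : Finset K} {a b : K → ι} {n : ℕ} {w : ι × ι → Ω}
    (h : Lat E P J G a b n w) (hG : G' ⊆ G) : Lat E P J G' a b (n + 1) w :=
  ⟨h.equiv, h.row, h.col, h.inf, h.reg, fun t p => by
    rw [pow_succ', mul_assoc, map_mul]
    exact mul_le_one' (P.hν t).lt.le (h.pole t p),
    fun t ht => h.g1 t (hG ht), fun t ht => h.g2 t (hG ht), fun t ht => h.g3 t (hG ht)⟩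

theorem Lat.der {J G G' : Finset K} {a b : K → ι} {n : ℕ} {w : ι × ι → Ω}
    (h : Lat E P J G a b n w) (hG : G' ⊆ G) (hun : ∀ t ∉ J, P.ν t (uu Ω t) = exp (-1))
    (d : Par K) (hd : ∀ t ∈ G', eps t d = 0) :
    Lat E P J G' a b (n + 1) fun p => dd Ω d (w p) where
  equiv := fun g p => by rw [h.equiv]; exact dd_comm (g : Ω →ₐ[RatFunc K] Ω) d _
  row := fun i => by rw [← map_sum, h.row, map_zero]
  col := fun i => by rw [← map_sum, h.col, map_zero]
  inf := fun p => (P.inf_log d _).trans (h.inf p)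
  reg := fun t ht p => P.fin_unram d (hun t ht) (h.reg t ht p)
  pole := fun t p => by
    have := h.pole t p
    rw [map_mul] at this
    rw [pow_succ, mul_assoc, map_mul]
    exact (mul_le_mul_right (P.fin_pole d t _) _).trans this
  g1 := fun t ht p => (P.fin_log (hd t ht) _).trans (h.g1 t (hG ht) p)
  g2 := fun t ht k => by
    rw [← map_sub]; exact (P.fin_log (hd t ht) _).trans (h.g2 t (hG ht) k)
  g3 := fun t ht p => by
    rw [← map_add]; exact (P.fin_log (hd t ht) _).trans (h.g3 t (hG ht) p)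

theorem count_zeros {J G : Finset K} (hG : ∀ t ∈ G, P.ν t (uu Ω t) = exp (-2))
    {γ : Ω} (hg : ∀ g : Ω ≃ₐ[RatFunc K] Ω, ∃ c : K, g γ = c • γ) (hinf : P.μ γ ≤ 1)
    (hreg : ∀ t ∉ J, P.ν t γ ≤ 1) {N : ℕ} (hpole : ∀ t, P.ν t (uu Ω t ^ N * γ) ≤ 1)
    (hgood : ∀ t ∈ G, P.ν t γ ≤ exp (-1)) (hN : 2 * N * (J \ G).card < G.card) : γ = 0 := by
  have hx := zero_lt_one.trans P.inf_lt
  have hu : ∀ (g : Ω ≃ₐ[RatFunc K] Ω) (t : K), g (uu Ω t) = uu Ω t := fun g t => by
    rw [uu_eq, ← alg_poly, AlgEquiv.commutes]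
  have h1 : ∀ t (s : Finset K), P.ν t (∏ r ∈ s, uu Ω r ^ N) ≤ 1 := fun t s => by
    rw [map_prod]
    refine prod_le_one' fun r _ => ?_
    rw [map_pow, uu_eq]
    exact pow_le_one' (P.fin_le t _) N
  have h2 : ∀ t (s : Finset K), t ∉ s → P.ν t (∏ r ∈ s, uu Ω r) = 1 := fun t s ht => by
    rw [map_prod]
    exact prod_eq_one fun r hr => P.fin_uu fun e => ht (e ▸ hr)
  have := P.liouville (z := (γ * ∏ r ∈ J \ G, uu Ω r ^ N) ^ 2 / ∏ r ∈ G, uu Ω r)
    (fun g => by
      obtain ⟨c, hc⟩ := hg g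
      refine ⟨c ^ 2, ?_⟩
      simp only [map_div₀, map_pow, map_mul, map_prod, hu, hc, Algebra.smul_def]
      ring)
    (fun t => by
      rw [map_div₀, map_pow]
      by_cases ht : t ∈ G
      · rw [← mul_prod_erase _ _ ht, map_mul (P.ν t) (uu Ω t), h2 t _ (notMem_erase t G), mul_one,
          hG t ht, div_le_one₀ exp_pos, map_mul]
        refine (pow_le_pow_left' ((mul_le_of_le_one_right' (h1 t _)).trans (hgood t ht)) 2).trans_eq
          ?_
        rw [← exp_nsmul]; rfl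
      rw [h2 t G ht, div_one]
      refine pow_le_one' ?_ 2
      by_cases ht' : t ∈ J
      · rw [← mul_prod_erase _ _ (mem_sdiff.2 ⟨ht', ht⟩), ← mul_assoc, mul_comm γ, map_mul]
        exact mul_le_one' (hpole t) (h1 t _)
      · rw [map_mul]
        exact mul_le_one' (hreg t ht') (h1 t _))
    (by
      simp only [map_div₀, map_pow, map_mul, map_prod, P.inf_uu, prod_const]
      rw [div_lt_one₀ (pow_pos hx _)]
      refine (pow_le_pow_left' (mul_le_of_le_one_left' hinf) 2).trans_lt ?_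
      rw [← pow_mul, ← pow_mul]
      exact pow_lt_pow_right₀ P.inf_lt (by linarith))
  simpa [prod_eq_zero_iff, uu_ne] using this

theorem vanish {J G : Finset K} {a b : K → ι} (hab : ∀ t ∈ G, a t ≠ b t)
    (hG : ∀ t ∈ G, P.ν t (uu Ω t) = exp (-2)) (hun : ∀ t ∉ J, P.ν t (uu Ω t) = exp (-1))
    (hsw : ∀ i j, ∃ g, E.π g = Equiv.swap i j)
    (hd : ∀ j ∈ G, ∃ d : Par K, ∀ t ∈ G, eps t d = if t = j then 1 else 0) {M : ℕ}
    (hN : 2 * ((M + Fintype.card ι ^ 2) * Fintype.card ι ^ 2) *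
      ((J \ G).card + Fintype.card ι ^ 2) + Fintype.card ι ^ 2 ≤ G.card)
    {Φ : ι × ι → Ω} (hΦ : Lat E P J G a b (M + 1) Φ) : Φ = 0 := by
  by_contra h0
  let D : Par K → (ι × ι → Ω) →+ (ι × ι → Ω) := fun d =>
    AddMonoidHom.mk' (fun w p => dd Ω d (w p)) fun w w' => funext fun p => map_add _ _ _
  obtain ⟨ρ, U, Ψ, hρ, hρ', hU, li, hΨ, hst⟩ := chain (Ω := Ω)
    (A := {d : Par K // ∃ j, ∀ t ∈ G, t ≠ j → eps t d = 0})
    (fun U n => {w | Lat E P J (G \ U) a b (M + n) w})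
    (fun U n j w hw => hw.mono (sdiff_subset_sdiff Subset.rfl (subset_insert j U))) (fun d => D d)
    (fun d z w => ⟨dd Ω d.1 z, funext fun p => by simp [D, mul_comm]⟩)
    (fun ⟨d, j, hj⟩ => ⟨j, fun U n w hw => hw.der
      (sdiff_subset_sdiff Subset.rfl (subset_insert j U)) hun d fun t ht => hj t (mem_sdiff.1 ht).1 fun e => (mem_sdiff.1 ht).2 (by simp [e])⟩)
    h0 (by simpa using hΦ)
  rw [finrank_fintype_fun_eq_card, Fintype.card_prod, ← sq] at hρ'
  set W := Submodule.span Ω (Set.range Ψ)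
  have hadd : ∀ d e : Par K, (∀ w ∈ W, D d w ∈ W) → (∀ w ∈ W, D e w ∈ W) →
      ∀ w ∈ W, D (d + e) w ∈ W := fun d e h1 h2 w hw => by
    have : D (d + e) w = D d w + D e w := funext fun p => dd_add d e _
    exact this ▸ add_mem (h1 w hw) (h2 w hw)
  have hdx : ∀ w ∈ W, D (dx K) w ∈ W := by
    choose! d hd using hd
    rw [← sub_add_cancel (dx K) (∑ j ∈ G, d j)]
    refine hadd _ _ (hst ⟨_, 0, fun t ht _ => ?_⟩) (sum_induction _ (fun d => ∀ w ∈ W, D d w ∈ W)
      hadd (hst ⟨0, 0, by simp⟩) fun j hj => hst ⟨_, j, fun t ht e => by simp [hd j hj t ht, e]⟩)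
    rw [map_sub, map_sum, eps_dx, sum_congr rfl fun j hj => hd j hj t ht]
    simp [ht]
  obtain ⟨S, e, hS, heW, hδ, hexp⟩ := echelon W
  have hc : ∀ (j : S) p, ∃ c : K, e j p = algebraMap K Ω c := fun j p => dx_eq_zero <| by
    have := congrFun (hexp _ (hdx _ (heW j j.2))) p
    refine this.trans ?_
    rw [Finset.sum_apply]
    refine sum_eq_zero fun k hk => ?_
    have : D (dx K) (e j) k = 0 := by
      change dd Ω (dx K) (e j k) = 0
      rw [hδ j j.2 k hk]
      split_ifs <;> simp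
    simp [this]
  choose e0 he0 using hc
  have hexp' : ∀ w ∈ W, ∀ p, w p = ∑ j : S, w j * algebraMap K Ω (e0 j p) := fun w hw p => by
    rw [congrFun (hexp w hw) p, Finset.sum_apply, ← sum_coe_sort]
    simp [he0]
  obtain ⟨φ⟩ : Nonempty (S ≃ Fin ρ) := Fintype.card_eq.1 (by
    rw [Fintype.card_coe, hS, finrank_span_eq_card li])
  have : Nonempty S := φ.nonempty_congr.2 ⟨⟨0, hρ⟩⟩
  have hΨW : ∀ i, Ψ i ∈ W := fun i => Submodule.subset_span ⟨i, rfl⟩
  let Γ : Matrix S S Ω := Matrix.of fun i j => Ψ (φ i) j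
  have hΓ : Γ.det ≠ 0 := by
    rw [← isUnit_iff_ne_zero, ← Matrix.isUnit_iff_isUnit_det,
      ← Matrix.linearIndependent_rows_iff_isUnit, Fintype.linearIndependent_iff]
    intro c hc
    refine Fintype.linearIndependent_iff.1 (li.comp φ φ.injective) c (funext fun p => ?_)
    refine (hexp' _ (sum_mem fun i _ => W.smul_mem _ (hΨW _)) p).trans ?_
    refine sum_eq_zero fun j _ => mul_eq_zero_of_left ?_ _
    simpa [Γ] using congrFun hc j
  have hind : ∀ Q : (ι × ι → Ω) → Prop, (∀ i, Q (Ψ i)) → Q 0 → (∀ x y, Q x → Q y → Q (x + y)) →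
      (∀ (z : Ω) x, Q x → Q (z • x)) → ∀ w ∈ W, Q w := fun Q q1 q2 q3 q4 w hw => by
    induction hw using Submodule.span_induction with
    | mem x hx => obtain ⟨i, rfl⟩ := hx; exact q1 i
    | zero => exact q2
    | add x y _ _ hx hy => exact q3 x y hx hy
    | smul z x _ hx => exact q4 z x hx
  have hrow := hind (fun w => ∀ i, ∑ j, w (i, j) = 0) (fun i => (hΨ i).row) (by simp)
    (fun x y hx hy i => by simp [sum_add_distrib, hx, hy]) fun z x hx i => by simp [← mul_sum, hx]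
  have hcol := hind (fun w => ∀ j, ∑ i, w (i, j) = 0) (fun i => (hΨ i).col) (by simp)
    (fun x y hx hy i => by simp [sum_add_distrib, hx, hy]) fun z x hx i => by simp [← mul_sum, hx]
  have hgal : ∀ (g : Ω ≃ₐ[RatFunc K] Ω) (c : K), g (algebraMap K Ω c) = algebraMap K Ω c :=
    fun g c => by rw [← alg_const, AlgEquiv.commutes]
  have hperm := fun g : Ω ≃ₐ[RatFunc K] Ω =>
    hind (fun w => (fun p : ι × ι => g.symm (w (E.π g p.1, E.π g p.2))) ∈ W)
      (fun i => by simpa [(hΨ i).equiv] using hΨW i)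
      (by simp only [Pi.zero_apply, map_zero]; exact zero_mem W)
      (fun x y hx hy => by simp only [Pi.add_apply, map_add]; exact add_mem hx hy)
      fun z x hx => by
        simp only [Pi.smul_apply, smul_eq_mul, map_mul]; exact W.smul_mem (g.symm z) hx
  have hcard : Fintype.card S = ρ := by simpa using Fintype.card_congr φ
  refine hΓ (count_zeros (P := P) (J := J) (G := G \ U)
    (fun t ht => hG t (mem_sdiff.1 ht).1) (N := (M + ρ) * ρ) (fun g => ?_) ?_ (fun t ht => ?_)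
    (fun t => ?_) (fun t ht => ?_) ?_)
  · let C : Matrix S S K := Matrix.of fun j k => e0 j (E.π g k.1.1, E.π g k.1.2)
    have : (g : Ω →ₐ[RatFunc K] Ω).mapMatrix Γ = Γ * (algebraMap K Ω).mapMatrix C := by
      ext i k
      exact ((hΨ _).equiv g k).symm.trans (hexp' _ (hΨW _) _)
    refine ⟨C.det, ((g : Ω →ₐ[RatFunc K] Ω).map_det Γ).trans ?_⟩
    rw [this, Matrix.det_mul, ← RingHom.map_det, Algebra.smul_def, mul_comm]
  · simpa using det_le_prod P.μ Γ (fun _ => 1) fun i k => (hΨ _).inf _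
  · simpa using det_le_prod (P.ν t) Γ (fun _ => 1) fun i k => (hΨ _).reg t ht _
  · have := det_le_prod (P.ν t) (uu Ω t ^ (M + ρ) • Γ) (fun _ => 1) fun i k => (hΨ _).pole t _
    rwa [Matrix.det_smul, hcard, ← pow_mul, prod_const_one] at this
  · refine sym_det (P.ν t) (P.hν t).const e0 ?_ (fun j i => ?_) (fun j i => ?_) (fun i i' j => ?_)
      (hab t (mem_sdiff.1 ht).1) Γ (fun i => Ψ (φ i)) (fun i p => hexp' _ (hΨW _) p)
      (fun i => (hΨ _).g2 t ht) (fun i => (hΨ _).g3 t ht) fun i j => (hΨ _).g1 t ht _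
    · rw [Fintype.linearIndependent_iff]
      intro c hc j
      have := congrArg (algebraMap K Ω) (congrFun hc j)
      simp only [Finset.sum_apply, Pi.smul_apply, smul_eq_mul, map_sum, map_mul, ← he0,
        hδ _ (Subtype.property _) _ j.2, Subtype.val_inj] at this
      simpa using this
    · apply (algebraMap K Ω).injective
      simpa [← he0] using hrow _ (heW j j.2) i
    · apply (algebraMap K Ω).injective
      simpa [← he0] using hcol _ (heW j j.2) i
    · obtain ⟨g, hg⟩ := hsw i i'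
      have k1 := hexp' _ (hperm g _ (heW j j.2))
      simp only [he0, hgal, hg] at k1
      have k2 : (fun p : ι × ι => e0 j (Equiv.swap i i' p.1, Equiv.swap i i' p.2)) =
          ∑ k : S, e0 j (Equiv.swap i i' k.1.1, Equiv.swap i i' k.1.2) • e0 k := funext fun p => by
        apply (algebraMap K Ω).injective
        simpa using k1 p
      rw [k2]
      exact sum_mem fun k _ => Submodule.smul_mem _ _ (Submodule.subset_span ⟨k, rfl⟩)
  · have k1 : (J \ (G \ U)).card ≤ (J \ G).card + U.card :=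
      (card_le_card fun t ht => by
        simp only [mem_sdiff, mem_union] at ht ⊢
        tauto).trans (card_union_le _ _)
    have k2 := le_card_sdiff U G
    have k3 : (M + ρ) * ρ ≤ (M + Fintype.card ι ^ 2) * Fintype.card ι ^ 2 :=
      Nat.mul_le_mul (by omega) hρ'
    have k4 := Nat.mul_le_mul (Nat.mul_le_mul_left 2 k3)
      (show (J \ (G \ U)).card ≤ (J \ G).card + Fintype.card ι ^ 2 by omega)
    omega

end Pool.Agent.Lib.MP_d9f0ae_ag.LG
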