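import Pool.Agent.Lib.MP_d9f0ae_ag.Lg.Sim
import Pool.Agent.Lib.MP_d9f0ae_ag.Lg.Van

/-! The residue pairing between obstruction classes and motions of the branch points. -/

namespace Pool.Agent.Lib.MP_d9f0ae_ag.LG
open WithZero Polynomial Finset Module

variable {K F Ω : Type*} [Field K] [Field F] [Algebra K F] [Algebra (RatFunc K) F]
  [IsScalarTower K (RatFunc K) F] {v : Valuation F (WithZero (Multiplicative ℤ))}
  {A : Subalgebra K F} {m : ℕ} [CharZero K] [Field Ω] [Algebra K Ω] [Algebra (RatFunc K) Ω]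
  [IsScalarTower K (RatFunc K) Ω] [FiniteDimensional (RatFunc K) Ω] [IsGalois (RatFunc K) Ω]
  [IsAlgClosed K] [FiniteDimensional (RatFunc K) F]

theorem local_res {ι : Type} [Fintype ι] [DecidableEq ι] (P : Pl K Ω) {t : K} {a b : ι}
    (hab : a ≠ b) (h2 : P.ν t (uu Ω t) = exp (-2)) (H Y : ι → Ω) (d1 : P.ν t (H a) ≤ exp 1)
    (d2 : ∀ i, i ≠ a → i ≠ b → P.ν t (H i) ≤ 1) (d3 : P.ν t (H a + H b) ≤ 1)
    (y1 : ∀ i, P.ν t (Y i) ≤ 1) (y2 : P.ν t (Y a - Y b) ≤ exp (-1)) :
    P.ν t (H a * (Y a - Y b) - 2 * ∑ i, H i * (uu Ω t * dd Ω (dx K) (Y i))) < 1 := by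
  have k1 := fun i => (P.hν t).euler_lt (dd Ω (dx K)) dx_const (dx_uu t) (y1 i)
  have k2 := (P.hν t).euler_half (dd Ω (dx K)) dx_const (dx_uu t) h2 y2
  have k3 : H a * (Y a - Y b) - 2 * ∑ i, H i * (uu Ω t * dd Ω (dx K) (Y i)) =
      -(H a * (2 * (uu Ω t * dd Ω (dx K) (Y a - Y b)) - (Y a - Y b))) -
        2 * ((H a + H b) * (uu Ω t * dd Ω (dx K) (Y b)) +
          ∑ i ∈ univ \ {a, b}, H i * (uu Ω t * dd Ω (dx K) (Y i))) := by
    rw [← sum_sdiff (subset_univ {a, b}), sum_pair hab, map_sub]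
    ring
  rw [k3]
  refine (P.ν t).map_sub_lt ?_ ?_
  · rw [Valuation.map_neg, map_mul]
    refine (mul_le_mul_left d1 _).trans_lt ((mul_lt_mul_of_pos_left k2 exp_pos).trans_eq ?_)
    rw [← exp_add]; rfl
  rw [map_mul]
  refine (mul_le_of_le_one_left' (by simpa using (P.hν t).int_le 2)).trans_lt
    ((P.ν t).map_add_lt ?_ ((P.ν t).map_sum_lt one_ne_zero fun i hi => ?_))
  · rw [map_mul]
    exact (mul_le_of_le_one_left' d3).trans_lt (k1 b)
  · simp only [mem_sdiff, mem_insert, mem_singleton, not_or] at hi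
    rw [map_mul]
    exact (mul_le_of_le_one_left' (d2 i hi.2.1 hi.2.2)).trans_lt (k1 i)

namespace Ap
variable {ι : Type} [Fintype ι] [DecidableEq ι] (B : Ap K v A m ι)
  (E : Em (RatFunc K) F Ω ι) (P : Pl K Ω) (h : Pt K v A m) (hA : IC A)

/-- The rational function whose residues define the pairing. -/
noncomputable def pr (d : Par K) (α β : ι) (n : ℕ) : RatFunc K :=
  Algebra.trace (RatFunc K) F (B.dual α * (xx K F ^ n * dd F d (B.y β)))

theorem pr_eq (d : Par K) (α β : ι) (n : ℕ) : algebraMap (RatFunc K) Ω (B.pr d α β n) =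
    ∑ i, xx K Ω ^ n * E.σ i (B.dual α) * dd Ω d (B.Y E i β) := by
  rw [pr, E.trace]
  refine sum_congr rfl fun i _ => ?_
  rw [map_mul, map_mul, map_pow, ← dd_comm, show E.σ i (xx K F) = xx K Ω from (E.σ i).commutes _,
    Y, Matrix.of_apply]
  ring

include h hA in
theorem pr_reg {d : Par K} {t : K} {β : ι} (H : ∀ i, P.ν t (dd Ω d (B.Y E i β)) ≤ 1) (α : ι)
    (n : ℕ) : P.ν t (algebraMap (RatFunc K) Ω (B.pr d α β n)) ≤ 1 := by
  refine B.trace_reg E P h hA (fun i => ?_) α
  rw [map_mul, map_mul, ← dd_comm, ← aeval_X (R := K) (xx K F), ← map_pow, map_aeval_xx]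
  exact mul_le_one' (P.fin_le t _) (H i)

include E h hA in
theorem exists_res (t : K) (α β : ι) (n : ℕ) : ∃ c : K, ∀ d : Par K, P.ν t (uu Ω t *
    algebraMap (RatFunc K) Ω (B.pr d α β n) - algebraMap K Ω (eps t d * c)) < 1 := by
  have h1 : P.ν t (uu Ω t * algebraMap (RatFunc K) Ω (B.pr (dx K) α β n)) ≤ 1 := by
    have := B.trace_reg E P h hA (t := t) (f := algebraMap K[X] (RatFunc K) (X - C t) •
      (xx K F ^ n * dd F (dx K) (B.y β))) (fun i => by
        rw [map_smul, Algebra.smul_def, alg_poly, ← uu_eq, map_mul (E.σ i), mul_left_comm,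
          ← dd_comm, ← aeval_X (R := K) (xx K F), ← map_pow, map_aeval_xx, map_mul]
        exact mul_le_one' (P.fin_le t _) ((P.fin_pole _ t _).trans (B.Y_le E P t i β))) α
    rwa [mul_smul_comm, map_smul, smul_eq_mul, map_mul, alg_poly, ← uu_eq] at this
  obtain ⟨c, hc⟩ := (P.hν t).res _ h1
  refine ⟨c, fun d => ?_⟩
  have h2 := B.pr_reg E P h hA (d := d - eps t d • dx K) (t := t) (β := β) (fun i =>
    (P.fin_log (by simp [eps_dx]) _).trans (B.Y_le E P t i β)) α n
  have h3 : uu Ω t * algebraMap (RatFunc K) Ω (B.pr d α β n) - algebraMap K Ω (eps t d * c) =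
      uu Ω t * algebraMap (RatFunc K) Ω (B.pr (d - eps t d • dx K) α β n) +
      algebraMap K Ω (eps t d) *
        (uu Ω t * algebraMap (RatFunc K) Ω (B.pr (dx K) α β n) - algebraMap K Ω c) := by
    have : ∀ z : Ω, dd Ω d z = dd Ω (d - eps t d • dx K) z +
        algebraMap K Ω (eps t d) * dd Ω (dx K) z := fun z => by
      rw [← dd_smul, ← dd_add, sub_add_cancel]
    simp only [B.pr_eq E, this, mul_add, sum_add_distrib, map_mul, mul_sub, mul_sum]
    rw [add_sub_assoc]
    congr 2
    exact sum_congr rfl fun i _ => by ring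
  rw [h3]
  refine (P.ν t).map_add_lt ?_ ?_
  · rw [map_mul]
    exact (mul_le_of_le_one_right' h2).trans_lt (P.hν t).lt
  · rw [map_mul]
    exact (mul_le_of_le_one_left' ((P.hν t).const_le _)).trans_lt hc

include E h in
theorem pr_inf (d : Par K) {α β : ι} {n : ℕ} (hlt : B.w β + m * (n + 1) < B.w α) :
    P.μ (xx K Ω * algebraMap (RatFunc K) Ω (B.pr d α β n)) < 1 := by
  by_cases h0 : B.pr d α β n = 0
  · simp [h0]
  have h1 := B.trace_le h (B.dual α * (xx K F ^ n * dd F d (B.y β)))
  rw [v.map_mul, v.map_mul, map_pow, B.dual_val h, h.vx] at h1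
  have h2 := h1.trans (mul_le_mul_right (mul_le_mul_right
    ((B.dd_le E P h d _).trans_eq (B.val β)) _) _)
  rw [← pr, h.v_rat h0, ← exp_nsmul, ← exp_add, ← exp_add, exp_le_exp, nsmul_eq_mul] at h2
  have h3 : (B.w β : ℤ) + m * (n + 1) < B.w α := by exact_mod_cast hlt
  have h4 : (0 : ℤ) < m := by exact_mod_cast h.mpos
  rw [map_mul, P.inf_rat h0, ← zpow_one_add₀ (zero_lt_one.trans P.inf_lt).ne']
  exact zpow_lt_one_of_neg₀ P.inf_lt (by nlinarith)

variable {T : Matrix ι ι K[X]} (hT : ∀ a b,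
  Algebra.trace (RatFunc K) F (B.y a * B.y b) = algebraMap K[X] _ (T a b))

include h hA hT in
theorem count_le [DecidableEq K]
    (hB : ∀ a, B.w a ≠ 0 → Algebra.trace (RatFunc K) F (B.y a) = 0)
    {ε : Type} [Fintype ε] (α β : ε → ι) (n : ε → ℕ) (hβ : ∀ e, B.w (β e) ≠ 0)
    (hlt : ∀ e, B.w (β e) + m * (n e + 1) < B.w (α e))
    (hinj : ∀ e e', α e = α e' → β e = β e' → n e = n e' → e = e')
    {J J0 G : Finset K} (hJ : ∀ t ∉ J, T.det.eval t ≠ 0) (hJ0 : J0 ⊆ J) (hG : G ⊆ J0)
    (hd : ∀ j ∈ J0, ∃ d : Par K, ∀ t ∈ J0, eps t d = if t = j then 1 else 0)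
    {a b : K → ι} (hs : ∀ t ∈ G, B.Simple E P t (a t) (b t))
    (hsw : ∀ i j, ∃ g, E.π g = Equiv.swap i j) {M : ℕ} (hM : ∀ t, T.det.rootMultiplicity t ≤ M)
    (hN : 2 * ((M + Fintype.card ι ^ 2) * Fintype.card ι ^ 2) *
      ((J \ G).card + Fintype.card ι ^ 2) + Fintype.card ι ^ 2 ≤ G.card) :
    Fintype.card ε ≤ (J \ J0).card := by
  classical
  have hun := fun t ht => B.unram E P hT (hJ t ht)
  choose r hr using fun t e => B.exists_res E P h hA t (α e) (β e) (n e)
  have h1 : ∀ d e, ∑ t ∈ J, eps t d * r t e = 0 := fun d e =>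
    P.residues J (fun t => eps t d * r t e) (fun t ht => B.pr_reg E P h hA
      (fun i => P.fin_unram d (hun t ht) (B.Y_le E P t i _)) _ _) (fun t _ => hr t e d)
      (B.pr_inf E P h d (hlt e))
  by_contra hn
  obtain ⟨κ, hκ, hκ0⟩ := (Submodule.ne_bot_iff _).1 (LinearMap.ker_ne_bot_of_finrank_lt
    (f := (Matrix.of fun (t : ↥(J \ J0)) e => r t e).mulVecLin) (by simpa using hn))
  have h2 : ∀ t ∈ J \ J0, ∑ e, r t e * κ e = 0 := fun t ht => congrFun hκ ⟨t, ht⟩
  have h3 : ∀ j ∈ J0, ∑ e, r j e * κ e = 0 := fun j hj => by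
    obtain ⟨d, hd⟩ := hd j hj
    have k1 : ∑ t ∈ J, eps t d * ∑ e, r t e * κ e = 0 := by
      simp only [mul_sum, ← mul_assoc]
      rw [sum_comm]
      simp [← sum_mul, h1]
    rw [← sum_sdiff hJ0, sum_eq_zero (fun t ht => by rw [h2 t ht, mul_zero]), zero_add,
      sum_congr rfl fun t ht => by rw [hd t ht]] at k1
    simpa [hj] using k1
  let H : ε → ι → Ω := fun e i => algebraMap K Ω (κ e) * xx K Ω ^ n e * E.σ i (B.dual (α e))
  have hc : ∀ t e, P.ν t (algebraMap K Ω (κ e) * xx K Ω ^ n e) ≤ 1 := fun t e => by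
    have := P.fin_le t (C (κ e) * X ^ n e)
    rwa [map_mul (aeval _), aeval_C, map_pow (aeval _), aeval_X] at this
  have hH : ∀ {t} {z : ε → Ω} {y : ε → Ω} {c c'}, (∀ e, P.ν t (z e) ≤ c) →
      (∀ e, P.ν t (y e) ≤ c') →
      P.ν t (∑ e, algebraMap K Ω (κ e) * xx K Ω ^ n e * z e * y e) ≤ c * c' := fun hz hy =>
    Valuation.map_sum_le _ fun e _ => by
      rw [map_mul, map_mul]
      exact mul_le_mul' ((mul_le_of_le_one_left' (hc _ e)).trans (hz e)) (hy e)
  obtain ⟨d0, -⟩ := B.det_deg h hT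
  have hΦ := vanish (E := E) (P := P) (J := J) (fun t ht => (hs t ht).ne)
    (fun t ht => (hs t ht).ram) hun hsw
    (fun j hj => (hd j (hG hj)).imp fun d hd t ht => hd t (hG ht)) hN
    (Φ := fun p => ∑ e, H e p.1 * B.Y E p.2 (β e))
    { equiv := fun g p => by
        simp only [H, Y, Matrix.of_apply, E.act, map_sum, map_mul, map_pow, xx,
          ← alg_const (Ω := Ω), AlgEquiv.commutes]
      row := fun i => by
        rw [sum_comm]
        refine sum_eq_zero fun e _ => ?_
        simp only [← mul_sum, Y, Matrix.of_apply]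
        rw [← E.trace, hB _ (hβ e), map_zero, mul_zero]
      col := fun i => by
        rw [sum_comm]
        refine sum_eq_zero fun e _ => ?_
        simp only [H, ← sum_mul, ← mul_sum]
        rw [← E.trace, B.trace_dual_one h (by have := hlt e; omega), map_zero, mul_zero, zero_mul]
      inf := fun p => P.μ.map_sum_le fun e _ => by
        have k1 := B.inf_eq E P h (B.dual_val h (α e)) p.1
        have k2 := B.inf_eq E P h (B.val (β e)) p.2
        have k0 := (zero_lt_one.trans P.inf_lt).ne'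
        simp only [H, Y, Matrix.of_apply, mul_assoc]
        rw [map_mul]
        refine mul_le_one' (P.hμ.const_le _) ((pow_le_one_iff h.mpos.ne').1 ?_)
        rw [map_mul, map_mul, map_pow, mul_pow, mul_pow, k1, k2, ← pow_mul, ← zpow_natCast,
          ← zpow_add₀ k0, ← zpow_add₀ k0]
        refine zpow_le_one_of_nonpos₀ P.inf_lt.le ?_
        have : (B.w (β e) : ℤ) + m * (n e + 1) < B.w (α e) := by exact_mod_cast hlt e
        push_cast
        nlinarith
      reg := fun t ht p => by
        refine (hH (c := 1) (fun e => ?_) fun e => B.Y_le E P t _ _).trans_eq (one_mul _)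
        have k1 := P.fin_one (hJ t ht)
        rw [← B.det_sq E hT, map_pow, pow_eq_one_iff_of_nonneg zero_le two_ne_zero] at k1
        have k2 := B.dual_le E P t p.1 (α e)
        rwa [map_mul, k1, one_mul] at k2
      pole := fun t p => by
        have k3 : uu Ω t ^ (M + 1) * ∑ e, H e p.1 * B.Y E p.2 (β e) =
            ∑ e, algebraMap K Ω (κ e) * xx K Ω ^ n e *
              (uu Ω t ^ (M + 1) * E.σ p.1 (B.dual (α e))) * B.Y E p.2 (β e) := by
          rw [mul_sum]; exact sum_congr rfl fun e _ => by simp only [H]; ring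
        rw [k3]
        refine (hH (c := 1) (fun e => ?_) fun e => B.Y_le E P t _ _).trans_eq (one_mul _)
        have k1 := P.fin_mult t d0
        rw [← B.det_sq E hT, map_pow] at k1
        have k2 := B.dual_le E P t p.1 (α e)
        rw [map_mul] at k2 ⊢
        refine (mul_le_mul_left (le_of_pow_le_pow_left₀ two_ne_zero zero_le ?_) _).trans k2
        rw [k1, map_pow, ← pow_mul]
        exact pow_le_pow_right_of_le_one' (P.hν t).lt.le (by have := hM t; omega)
      g1 := fun t ht p =>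
        (hH (fun e => (hs t ht).d1 _ _) fun e => B.Y_le E P t _ _).trans_eq (mul_one _)
      g2 := fun t ht k => by
        have s := hs t ht
        have k1 : ∀ k, ∑ e, H e k * B.Y E (a t) (β e) - ∑ e, H e k * B.Y E (b t) (β e) =
            ∑ e, H e k * (B.Y E (a t) (β e) - B.Y E (b t) (β e)) := fun k => by
          simp [mul_sub]
        have k2 : P.ν t (∑ e, H e (a t) * (B.Y E (a t) (β e) - B.Y E (b t) (β e))) < 1 := by
          have k3 : ∑ e, H e (a t) * (B.Y E (a t) (β e) - B.Y E (b t) (β e)) =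
              ∑ e, algebraMap K Ω (κ e) * ((xx K Ω ^ n e * E.σ (a t) (B.dual (α e)) *
                (B.Y E (a t) (β e) - B.Y E (b t) (β e)) - 2 * ∑ i, xx K Ω ^ n e *
                  E.σ i (B.dual (α e)) * (uu Ω t * dd Ω (dx K) (B.Y E i (β e)))) +
                2 * (uu Ω t * algebraMap (RatFunc K) Ω (B.pr (dx K) (α e) (β e) (n e)) -
                  algebraMap K Ω (eps t (dx K) * r t e))) := by
            have k4 := congrArg (fun c => 2 * algebraMap K Ω c) (h3 t (hG ht))
            simp only [map_sum, map_mul, map_zero, mul_zero, mul_sum] at k4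
            rw [← sub_zero (∑ e, H e (a t) * _), ← k4, ← sum_sub_distrib]
            refine sum_congr rfl fun e _ => ?_
            rw [B.pr_eq E, eps_dx, one_mul, mul_sum _ _ (uu Ω t),
              sum_congr rfl fun i _ => mul_left_comm (uu Ω t) _ _]
            simp only [H]
            ring
          have k5 : ∀ e, P.ν t (xx K Ω ^ n e) ≤ 1 := fun e => by simpa using P.fin_le t (X ^ n e)
          rw [k3]
          refine (P.ν t).map_sum_lt one_ne_zero fun e _ => ?_
          rw [map_mul]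
          refine (mul_le_of_le_one_left' ((P.hν t).const_le _)).trans_lt ((P.ν t).map_add_lt
            (local_res P s.ne s.ram (fun i => xx K Ω ^ n e * E.σ i (B.dual (α e)))
              (fun i => B.Y E i (β e)) ?_ (fun i p q => ?_) ?_
              (fun i => B.Y_le E P t i _) (s.row _)) ?_)
          · rw [map_mul]; exact (mul_le_of_le_one_left' (k5 e)).trans (s.d1 _ _)
          · rw [map_mul]; exact mul_le_one' (k5 e) (s.d2 _ i p q)
          · rw [← mul_add, map_mul]; exact mul_le_one' (k5 e) (s.d3 _)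
          · rw [map_mul]
            exact (mul_le_of_le_one_left' (by simpa using (P.hν t).int_le 2)).trans_lt (hr t e _)
        dsimp only
        rw [k1]
        by_cases e1 : k = a t
        · rw [e1]; exact le_neg_one k2
        by_cases e2 : k = b t
        · have k3 : ∑ e, H e k * (B.Y E (a t) (β e) - B.Y E (b t) (β e)) =
              ∑ e, algebraMap K Ω (κ e) * xx K Ω ^ n e *
                (E.σ (a t) (B.dual (α e)) + E.σ (b t) (B.dual (α e))) *
                (B.Y E (a t) (β e) - B.Y E (b t) (β e)) -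
              ∑ e, H e (a t) * (B.Y E (a t) (β e) - B.Y E (b t) (β e)) := by
            rw [← sum_sub_distrib]; exact sum_congr rfl fun e _ => by simp only [H, e2]; ring
          rw [k3]
          exact (P.ν t).map_sub_le ((hH (fun e => s.d3 _) fun e => s.row _).trans_eq (one_mul _))
            (le_neg_one k2)
        · exact (hH (fun e => s.d2 _ k e1 e2) fun e => s.row _).trans_eq (one_mul _)
      g3 := fun t ht p => by
        have s := hs t ht
        have k3 : ∑ e, H e p.1 * B.Y E p.2 (β e) +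
            ∑ e, H e (Equiv.swap (a t) (b t) p.1) * B.Y E p.2 (β e) =
            ∑ e, algebraMap K Ω (κ e) * xx K Ω ^ n e * (E.σ p.1 (B.dual (α e)) +
              E.σ (Equiv.swap (a t) (b t) p.1) (B.dual (α e))) * B.Y E p.2 (β e) := by
          rw [← sum_add_distrib]; exact sum_congr rfl fun e _ => by simp only [H]; ring
        dsimp only
        rw [k3]
        refine (hH (c := 1) (fun e => ?_) fun e => B.Y_le E P t _ _).trans_eq (one_mul _)
        by_cases e1 : p.1 = a t
        · simpa [e1] using s.d3 _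
        by_cases e2 : p.1 = b t
        · simpa [e2, add_comm] using s.d3 _
        rw [Equiv.swap_apply_of_ne_of_ne e1 e2]
        exact (P.ν t).map_add_le (s.d2 _ _ e1 e2) (s.d2 _ _ e1 e2) }
  refine hκ0 (funext fun e0 => ?_)
  have k1 : aeval (xx K Ω) (∑ e, if α e0 = α e ∧ β e = β e0 then C (κ e) * X ^ n e else 0) =
      ∑ i, ∑ j, (∑ e, H e i * B.Y E j (β e)) * (B.Y E i (α e0) * E.σ j (B.dual (β e0))) := by
    simp only [sum_mul]
    rw [sum_congr rfl fun i _ => sum_comm, sum_comm, map_sum]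
    refine sum_congr rfl fun e _ => ?_
    have : ∑ i, ∑ j, H e i * B.Y E j (β e) * (B.Y E i (α e0) * E.σ j (B.dual (β e0))) =
        algebraMap K Ω (κ e) * xx K Ω ^ n e * ((∑ i, E.σ i (B.dual (α e)) * B.Y E i (α e0)) *
          ∑ j, E.σ j (B.dual (β e0)) * B.Y E j (β e)) := by
      rw [sum_mul_sum, mul_sum]
      refine sum_congr rfl fun i _ => ?_
      rw [mul_sum]
      exact sum_congr rfl fun j _ => by simp only [H]; ring
    rw [this, B.dual_Y, B.dual_Y]
    by_cases p : α e0 = α e <;> by_cases q : β e = β e0 <;> simp [p, q]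
  have k2 : ∀ i j, ∑ e, H e i * B.Y E j (β e) = 0 := fun i j => congrFun hΦ (i, j)
  simp only [k2, zero_mul, sum_const_zero] at k1
  have k3 := congrArg (fun p => coeff p (n e0)) (not_not.1 (mt aeval_ne (not_not.2 k1)))
  simp only [finsetSum_coeff] at k3
  rw [sum_eq_single e0] at k3
  · simpa using k3
  · intro e _ he
    split_ifs with p
    · rw [coeff_C_mul_X_pow, if_neg fun q => he (hinj e e0 p.1.symm p.2 q.symm)]
    · rfl
  · simp

end Ap
end Pool.Agent.Lib.MP_d9f0ae_ag.LG
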