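import Mathlib

/-! Places of a finite Galois extension of a rational function field. -/

namespace Pool.Agent.Lib.MP_d9f0ae_ag.LG
open WithZero Polynomial IsDedekindDomain

/-- A place `ν` of `Ω` at which `u` vanishes. -/
structure IsPlace (K Q : Type*) {Ω : Type*} [Field K] [Field Q] [Field Ω] [Algebra K Ω]
    [Algebra Q Ω] (u : Ω) (ν : Valuation Ω (WithZero (Multiplicative ℤ))) : Prop where
  const : ∀ c : K, c ≠ 0 → ν (algebraMap K Ω c) = 1
  ne : u ≠ 0
  lt : ν u < 1
  unif : ∃ π, ν π = exp (-1)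
  res : ∀ z, ν z ≤ 1 → ∃ c : K, ν (z - algebraMap K Ω c) < 1
  bdd : ∀ D : Derivation ℤ Ω Ω, (∀ p : K[X], ν (D (aeval u p)) ≤ 1) →
    ∃ C : ℤ, ∀ z, ν z ≤ 1 → ν (D z) ≤ exp C
  inert : ∃ H : Subgroup (Ω ≃ₐ[Q] Ω), ν u = exp (-(Nat.card H : ℤ)) ∧
    ∀ g ∈ H, ∀ z, ν z ≤ 1 → ν (g z - z) < 1

theorem exists_place_aux {K Q Ω : Type*} [Field K] [IsAlgClosed K] [CharZero K] [Field Q]
    [Field Ω] [Algebra K Ω] [Algebra Q Ω] [Algebra K[X] Q] [IsFractionRing K[X] Q]
    [Algebra K[X] Ω] [IsScalarTower K[X] Q Ω] [IsScalarTower K K[X] Ω]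
    [FiniteDimensional Q Ω] [IsGalois Q Ω] :
    ∃ ν, IsPlace K Q (algebraMap K[X] Ω X) ν := by
  let B := integralClosure K[X] Ω
  have : IsDedekindDomain B := IsIntegralClosure.isDedekindDomain K[X] Q Ω B
  have : Module.Finite K[X] B := IsIntegralClosure.finite K[X] Q Ω B
  have : IsFractionRing B Ω := IsIntegralClosure.isFractionRing_of_finite_extension K[X] Q Ω B
  have hinj : Function.Injective (algebraMap K[X] Ω) := by
    rw [IsScalarTower.algebraMap_eq K[X] Q Ω]
    exact (algebraMap Q Ω).injective.comp (IsFractionRing.injective K[X] Q)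
  have : FaithfulSMul K[X] Ω := (faithfulSMul_iff_algebraMap_injective _ _).2 hinj
  have : Module.IsTorsionFree K[X] B := inferInstance
  have : IsGaloisGroup (Ω ≃ₐ[Q] Ω) K[X] B := IsGaloisGroup.of_isFractionRing _ _ _ Q Ω
  have hmax : (idealX K).asIdeal.IsMaximal := (idealX K).isMaximal
  obtain ⟨P, hP, hPo⟩ := Ideal.exists_maximal_ideal_liesOver_of_isIntegral
    (S := B) (idealX K).asIdeal
  have hP0 : P ≠ ⊥ := Ideal.ne_bot_of_liesOver_of_ne_bot (idealX K).ne_bot P
  let w : HeightOneSpectrum B := ⟨P, hP.isPrime, hP0⟩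
  have hw : w.asIdeal.LiesOver (idealX K).asIdeal := hPo
  have ae : ∀ p : K[X], aeval (algebraMap K[X] Ω X) p = algebraMap K[X] Ω p := fun p => by
    rw [aeval_algebraMap_apply]; simp
  have hlt : ∀ b : B, w.valuation Ω (b : Ω) < 1 ↔ b ∈ P := fun b =>
    w.valuation_lt_one_iff_mem (K := Ω) b
  have hle : ∀ b : B, w.valuation Ω (b : Ω) ≤ 1 := fun b => w.valuation_le_one (K := Ω) b
  have hone : ∀ b : B, b ∉ P → w.valuation Ω (b : Ω) = 1 := fun b hb =>
    le_antisymm (hle b) (not_lt.1 fun h => hb ((hlt b).1 h))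
  have hfrac : ∀ z : Ω, w.valuation Ω z ≤ 1 → ∃ n d : B, d ∉ P ∧ z = n / d := fun z hz => by
    obtain ⟨n, d, h⟩ := w.exists_primeCompl_mul_eq_of_integer z hz
    have hd : ((d : B) : Ω) ≠ 0 := fun e => by
      have := hone d d.2
      rw [e] at this
      simp at this
    exact ⟨n, d, d.2, eq_div_of_mul_eq hd h⟩
  have hc : ∀ c : K, c ≠ 0 → w.valuation Ω (algebraMap K Ω c) = 1 := fun c hc => by
    have h1 : algebraMap K Ω c = ((algebraMap K[X] B (C c) : B) : Ω) := by
      rw [IsScalarTower.algebraMap_apply K K[X] Ω]; rfl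
    rw [h1]
    refine hone _ fun h => hP.ne_top (Ideal.eq_top_of_isUnit_mem _ h ?_)
    exact (isUnit_C.2 hc.isUnit).map _
  have hX : algebraMap K[X] B X ∈ P := by
    rw [← Ideal.mem_comap, ← Ideal.under_def, ← P.over_def (idealX K).asIdeal]
    exact Ideal.mem_span_singleton_self _
  have hres : ∀ b : B, ∃ c : K, b - algebraMap K[X] B (C c) ∈ P := fun b => by
    obtain ⟨q, hq, hq0⟩ := Algebra.IsIntegral.isIntegral (R := K[X]) b
    by_contra h
    push Not at h
    let q0 : K[X] := q.map (evalRingHom 0)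
    have hq0m : q0.Monic := hq.map _
    have h1 : (Ideal.Quotient.mk P).comp (algebraMap K[X] B) =
        (((Ideal.Quotient.mk P).comp (algebraMap K[X] B)).comp C).comp (evalRingHom 0) := by
      refine Polynomial.ringHom_ext (fun a => by simp) ?_
      rw [RingHom.comp_apply, Ideal.Quotient.eq_zero_iff_mem.2 hX, RingHom.comp_apply,
        coe_evalRingHom, eval_X, map_zero]
    have h2 : eval₂ (((Ideal.Quotient.mk P).comp (algebraMap K[X] B)).comp C)
        (Ideal.Quotient.mk P b) q0 = 0 := by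
      rw [eval₂_map, ← h1, ← hom_eval₂, hq0, map_zero]
    rw [(IsAlgClosed.splits q0).eq_prod_roots_of_monic hq0m, eval₂_multiset_prod,
      Multiset.prod_eq_zero_iff] at h2
    simp only [Multiset.mem_map] at h2
    obtain ⟨_, ⟨c, -, rfl⟩, e⟩ := h2
    refine h c (Ideal.Quotient.eq_zero_iff_mem.1 ?_)
    rwa [eval₂_sub, eval₂_X, eval₂_C] at e
  refine ⟨w.valuation Ω, hc, (map_ne_zero_iff _ hinj).2 X_ne_zero, (hlt _).2 hX,
    w.valuation_exists_uniformizer Ω, fun z hz => ?_, fun D hD => ?_, ?_⟩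
  · obtain ⟨n, d, hd, rfl⟩ := hfrac z hz
    obtain ⟨c, hc'⟩ := hres n
    obtain ⟨e, he⟩ := hres d
    have he0 : e ≠ 0 := by
      rintro rfl
      exact hd (by simpa using he)
    have hd0 : (d : Ω) ≠ 0 := fun e => by simpa [e] using hone d hd
    refine ⟨c / e, ?_⟩
    have h1 : ∀ c : K, ((algebraMap K[X] B (C c) : B) : Ω) = algebraMap K Ω c := fun c => by
      rw [IsScalarTower.algebraMap_apply K K[X] Ω]; rfl
    have he' : algebraMap K Ω e ≠ 0 := by simpa using he0
    have : (n : Ω) / d - algebraMap K Ω (c / e) = (((n - algebraMap K[X] B (C c)) *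
        algebraMap K[X] B (C e) - (d - algebraMap K[X] B (C e)) * algebraMap K[X] B (C c) : B) : Ω)
        / (d * algebraMap K Ω e) := by
      rw [AddSubgroupClass.coe_sub, MulMemClass.coe_mul, MulMemClass.coe_mul,
        AddSubgroupClass.coe_sub, AddSubgroupClass.coe_sub, h1, h1, map_div₀]
      field_simp
      ring
    rw [this, map_div₀, map_mul, hone d hd, hc e he0, one_mul, div_one, hlt]
    exact sub_mem (P.mul_mem_right _ hc') (P.mul_mem_right _ he)
  · obtain ⟨s, hs⟩ := Module.Finite.fg_top (R := K[X]) (M := B)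
    obtain ⟨C, hC⟩ : ∃ C : ℤ, 0 ≤ C ∧ ∀ b ∈ s, w.valuation Ω (D (b : Ω)) ≤ exp C := by
      obtain ⟨C, hC⟩ := (s.finite_toSet.image fun b : B => log (w.valuation Ω (D (b : Ω)))).bddAbove
      refine ⟨max C 0, le_max_right _ _, fun b hb => le_exp_log.trans (exp_le_exp.2 ?_)⟩
      exact (hC ⟨b, hb, rfl⟩).trans (le_max_left _ _)
    have h1 : (1 : WithZero (Multiplicative ℤ)) ≤ exp C := by
      rw [← exp_zero, exp_le_exp]; exact hC.1
    have hB : ∀ b : B, w.valuation Ω (D (b : Ω)) ≤ exp C := fun b => by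
      have hb : b ∈ Submodule.span K[X] (s : Set B) := hs ▸ Submodule.mem_top
      induction hb using Submodule.span_induction with
      | mem x hx => exact hC.2 x hx
      | zero => simp
      | add x y _ _ hx hy =>
        push_cast
        rw [map_add]
        exact Valuation.map_add_le _ hx hy
      | smul p x _ hx =>
        have : ((p • x : B) : Ω) = algebraMap K[X] Ω p * x := by
          rw [SetLike.val_smul, Algebra.smul_def]
        rw [this, D.leibniz, smul_eq_mul, smul_eq_mul]
        refine Valuation.map_add_le _ ?_ ?_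
        · rw [map_mul]
          exact (mul_le_of_le_one_left' (hle (algebraMap K[X] B p))).trans hx
        · rw [map_mul, ← ae]
          exact (mul_le_one' (hle x) (hD p)).trans h1
    refine ⟨C, fun z hz => ?_⟩
    obtain ⟨n, d, hd, rfl⟩ := hfrac z hz
    rw [D.leibniz_div, smul_eq_mul, smul_eq_mul, smul_eq_mul, map_mul, map_pow, map_inv₀, hone d hd,
      inv_one, one_pow, one_mul]
    refine Valuation.map_sub_le _ ?_ ?_
    · rw [map_mul]
      exact (mul_le_of_le_one_left' (hle d)).trans (hB n)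
    · rw [map_mul]
      exact (mul_le_of_le_one_left' (hle n)).trans (hB d)
  · have : CharZero (idealX K).asIdeal.ResidueField := algebraRat.charZero _
    refine ⟨P.inertia (Ω ≃ₐ[Q] Ω), ?_, fun g hg z hz => ?_⟩
    · rw [Ideal.card_inertia_eq_ramificationIdxIn (G := Ω ≃ₐ[Q] Ω) (idealX K).asIdeal P,
        Ideal.ramificationIdxIn_eq_ramificationIdx _ P (Ω ≃ₐ[Q] Ω),
        ← Ideal.ramificationIdx'_eq_ramificationIdx _ P (idealX K).ne_bot,
        IsScalarTower.algebraMap_apply K[X] B Ω, w.valuation_of_algebraMap,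
        ← (idealX K).intValuation_liesOver w,
        (idealX K).intValuation_singleton X_ne_zero (idealX_span K), ← exp_nsmul]
      simp [w]
    · obtain ⟨n, d, hd, rfl⟩ := hfrac z hz
      have hg' : ∀ b : B, g • b - b ∈ P := hg
      have hgd : g • d ∉ P := fun h => hd (by simpa using sub_mem h (hg' d))
      have hd0 : (d : Ω) ≠ 0 := fun e => by simpa [e] using hone d hd
      have hgd0 : g (d : Ω) ≠ 0 := by simpa using hd0
      have : g ((n : Ω) / d) - n / d = (((g • n - n) * d - (g • d - d) * n : B) : Ω)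
          / (d * (g • d : B)) := by
        have h1 : ∀ b : B, ((g • b : B) : Ω) = g b := fun _ => rfl
        push_cast
        rw [map_div₀, h1, h1]
        field_simp
        ring
      rw [this, map_div₀, map_mul, hone d hd, hone _ hgd, one_mul, div_one, hlt]
      exact sub_mem (P.mul_mem_right _ (hg' n)) (P.mul_mem_right _ (hg' d))

theorem exists_place {K Q Ω : Type*} [Field K] [IsAlgClosed K] [CharZero K] [Field Q]
    [Field Ω] [Algebra K Q] [Algebra K Ω] [Algebra Q Ω] [IsScalarTower K Q Ω]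
    [FiniteDimensional Q Ω] [IsGalois Q Ω] (u : Q) (hu : Transcendental K u)
    (htop : IntermediateField.adjoin K {u} = ⊤) :
    ∃ ν, IsPlace K Q (algebraMap Q Ω u) ν := by
  let : Algebra K[X] Q := (aeval u).toRingHom.toAlgebra
  have e : ∀ p : K[X], algebraMap K[X] Q p = aeval u p := fun _ => rfl
  have : FaithfulSMul K[X] Q := (faithfulSMul_iff_algebraMap_injective _ _).2
    (transcendental_iff_injective.1 hu)
  have : IsFractionRing K[X] Q := IsFractionRing.of_field _ _ fun z =>
    (IntermediateField.mem_adjoin_simple_iff K z).1 (htop ▸ IntermediateField.mem_top)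
  let : Algebra K[X] Ω := ((algebraMap Q Ω).comp (algebraMap K[X] Q)).toAlgebra
  have : IsScalarTower K[X] Q Ω := .of_algebraMap_eq' rfl
  have : IsScalarTower K K[X] Ω := .of_algebraMap_eq fun c => by
    change _ = algebraMap Q Ω (aeval u (C c))
    rw [aeval_C, ← IsScalarTower.algebraMap_apply]
  have h : algebraMap Q Ω u = algebraMap K[X] Ω X := by
    change _ = algebraMap Q Ω (aeval u X)
    rw [aeval_X]
  rw [h]
  exact exists_place_aux

end Pool.Agent.Lib.MP_d9f0ae_ag.LG
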