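import Pool.Agent.Lib.MP_d9f0ae_ag.Lg.Emb

/-! Local structure at unramified points and at simple branch points. -/

namespace Pool.Agent.Lib.MP_d9f0ae_ag.LG
open WithZero Polynomial Finset Module

/-- `A` is integrally closed in `F`. -/
def IC {K F : Type*} [Field K] [Field F] [Algebra K F] (A : Subalgebra K F) : Prop :=
  ∀ (f : F) (p : F[X]), p.Monic → (∀ n, p.coeff n ∈ A) → p.eval f = 0 → f ∈ A

theorem solve_le {Ω ι : Type*} [Field Ω] [Fintype ι] [DecidableEq ι]
    (ν : Valuation Ω (WithZero (Multiplicative ℤ))) (M : Matrix ι ι Ω) (hM : ∀ i j, ν (M i j) ≤ 1)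
    (z : ι → Ω) (hz : ∀ j, ν (∑ i, z i * M i j) ≤ 1) (i : ι) : ν (M.det * z i) ≤ 1 := by
  have h1 : M.det * z i = ∑ j, (∑ i, z i * M i j) * M.adjugate j i := by
    have := congrFun (Matrix.vecMul_vecMul z M M.adjugate) i
    rw [Matrix.mul_adjugate, Matrix.vecMul_smul, Matrix.vecMul_one] at this
    exact this.symm
  rw [h1]
  refine ν.map_sum_le fun j _ => ?_
  rw [map_mul, Matrix.adjugate_apply]
  refine mul_le_one' (hz j) ((det_le_prod ν _ (fun _ => 1) fun k l => ?_).trans_eq (by simp))
  rw [Matrix.updateRow_apply]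
  split_ifs
  · rw [Pi.single_apply]; split_ifs <;> simp
  · exact hM k l

variable {K F Ω : Type*} [Field K] [Field F] [Algebra K F] [Algebra (RatFunc K) F]
  [IsScalarTower K (RatFunc K) F] {v : Valuation F (WithZero (Multiplicative ℤ))}
  {A : Subalgebra K F} {m : ℕ} [CharZero K] [Field Ω] [Algebra K Ω] [Algebra (RatFunc K) Ω]
  [IsScalarTower K (RatFunc K) Ω] [FiniteDimensional (RatFunc K) Ω] [IsGalois (RatFunc K) Ω]
  [IsAlgClosed K]

theorem map_aeval_xx (σ : F →ₐ[RatFunc K] Ω) (p : K[X]) :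
    σ (aeval (xx K F) p) = aeval (xx K Ω) p := by
  rw [← alg_poly, ← alg_poly, AlgHom.commutes]

namespace Ap
variable {ι : Type} [Fintype ι] [DecidableEq ι] (B : Ap K v A m ι)
  (E : Em (RatFunc K) F Ω ι) (P : Pl K Ω)
include B

theorem mem_of_le (h : Pt K v A m) (hA : IC A) {f : F} (hf : ∀ t i, P.ν t (E.σ i f) ≤ 1) :
    f ∈ A := by
  have : Nonempty ι := B.y.index_nonempty
  obtain ⟨p, hm, h0, hp⟩ := E.exists_charpoly f
  refine hA f (p.map (algebraMap _ F)) (hm.map _) (fun n => ?_) (by rwa [eval_map_algebraMap])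
  obtain ⟨q, hq⟩ := P.poly_of_le (c := p.coeff n) fun t => by
    rw [← coeff_map, hp]; exact coeff_prod_le _ _ (hf t) n
  rw [coeff_map, hq, alg_poly]
  exact h.aeval_mem q

theorem exists_mul_mem (h : Pt K v A m) (hA : IC A) {f : F} {t : K}
    (hf : ∀ i, P.ν t (E.σ i f) ≤ 1) : ∃ q : K[X], q.eval t ≠ 0 ∧ aeval (xx K F) q * f ∈ A := by
  obtain ⟨p, hp, hm⟩ := h.frac f
  obtain ⟨q, hq, hq'⟩ := exists_eq_pow_rootMultiplicity_mul_and_not_dvd p hp t
  refine ⟨q, mt dvd_iff_isRoot.2 hq', B.mem_of_le E P h hA fun s i => ?_⟩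
  by_cases e : t = s
  · rw [map_mul, map_mul, map_aeval_xx, ← e]
    exact mul_le_one' (P.fin_le t q) (hf i)
  · have := B.fin_le E P hm s i
    rwa [hq, map_mul (aeval (xx K F)), mul_assoc, map_mul, map_mul, map_aeval_xx, map_pow, ← uu_eq,
      map_pow, P.fin_uu e, one_pow, one_mul] at this

theorem trace_reg (h : Pt K v A m) (hA : IC A) {f : F} {t : K}
    (hf : ∀ i, P.ν t (E.σ i f) ≤ 1) (a : ι) :
    P.ν t (algebraMap (RatFunc K) Ω (Algebra.trace (RatFunc K) F (B.dual a * f))) ≤ 1 := by
  obtain ⟨q, hq, hm⟩ := B.exists_mul_mem E P h hA hf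
  obtain ⟨p, hp⟩ := B.trace_dual_poly a hm
  rw [← alg_poly, mul_left_comm, ← Algebra.smul_def, map_smul, smul_eq_mul] at hp
  have := congrArg (fun c => P.ν t (algebraMap (RatFunc K) Ω c)) hp
  simp only [map_mul, alg_poly, P.fin_one hq, one_mul] at this
  exact this ▸ P.fin_le t p

/-- The matrix of the conjugates of the Apery basis. -/
noncomputable def Y : Matrix ι ι Ω := Matrix.of fun i a => E.σ i (B.y a)

theorem Y_le (t : K) (i a : ι) : P.ν t (B.Y E i a) ≤ 1 := B.fin_le E P (B.mem a) t i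

variable {T : Matrix ι ι K[X]} (hT : ∀ a b,
  Algebra.trace (RatFunc K) F (B.y a * B.y b) = algebraMap K[X] _ (T a b))

include hT in
theorem T_eq (a b : ι) : aeval (xx K Ω) (T a b) = ∑ i, B.Y E i a * B.Y E i b := by
  rw [← alg_poly, ← hT, E.trace]
  simp [Y]

include hT in
theorem det_sq : (B.Y E).det ^ 2 = aeval (xx K Ω) T.det := by
  have : (B.Y E).transpose * B.Y E = (aeval (xx K Ω) : K[X] →ₐ[K] Ω).mapMatrix T := by
    ext a b
    simp [Matrix.mul_apply, B.T_eq E hT]
  rw [AlgHom.map_det, ← this, Matrix.det_mul, Matrix.det_transpose, sq]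

theorem dual_Y (a b : ι) : ∑ i, E.σ i (B.dual a) * B.Y E i b = if b = a then 1 else 0 := by
  have := E.trace (B.dual a * B.y b)
  rw [B.trace_dual] at this
  simp only [map_mul] at this
  refine this.symm.trans ?_
  split_ifs <;> simp

theorem dual_le (t : K) (i a : ι) : P.ν t ((B.Y E).det * E.σ i (B.dual a)) ≤ 1 :=
  solve_le _ _ (B.Y_le E P t) _ (fun j => by rw [B.dual_Y]; split_ifs <;> simp) i

/-- Two embeddings lie over the same point. -/
def Close (t : K) (i j : ι) : Prop := ∀ a, P.ν t (B.Y E i a - B.Y E j a) < 1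

theorem close_of_inert {t : K} {g : Ω ≃ₐ[RatFunc K] Ω}
    (hg : ∀ z, P.ν t z ≤ 1 → P.ν t (g z - z) < 1) (i : ι) : B.Close E P t (E.π g i) i := fun a => by
  have := hg _ (B.Y_le E P t i a)
  rwa [Y, Matrix.of_apply, ← E.act] at this

theorem det_lt {t : K} {i j : ι} (hij : i ≠ j) (hc : B.Close E P t i j) :
    P.ν t (B.Y E).det < 1 := by
  rw [← Matrix.det_updateRow_add_smul_self _ hij (-1), ← Matrix.det_transpose]
  refine (det_le_prod _ _ (fun k => if k = i then exp (-1) else 1) fun a k => ?_).trans_lt ?_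
  · rw [Matrix.transpose_apply, Matrix.updateRow_apply]
    split_ifs
    · simpa [← sub_eq_add_neg] using le_neg_one (hc a)
    · exact B.Y_le E P t k a
  · simpa using exp_neg_one_lt

include E hT in
theorem unram {t : K} (ht : T.det.eval t ≠ 0) : P.ν t (uu Ω t) = exp (-1) := by
  obtain ⟨H, h1, h2⟩ := (P.hν t).inert
  have : H = ⊥ := (Subgroup.eq_bot_iff_forall H).2 fun g hg => E.pinj <| by
    rw [map_one]
    ext i
    by_contra hi
    have h3 := B.det_lt E P hi (B.close_of_inert E P (h2 g hg) i)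
    have h4 := P.fin_one ht
    rw [← B.det_sq E hT, map_pow] at h4
    exact (pow_lt_one₀ zero_le h3 two_ne_zero).ne h4
  simpa [this] using h1

include hT in
theorem corank {t : K} (ht : P.ν t (aeval (xx K Ω) T.det) = P.ν t (uu Ω t)) {p p' q q' : ι}
    (hp : p ≠ p') (hq : q ≠ q') (h1 : p ≠ q) (h2 : p ≠ q') (cp : B.Close E P t p p')
    (cq : B.Close E P t q q') : False := by
  choose R hR using fun i a => (P.hν t).res _ (B.Y_le E P t i a)
  have key : ∀ i j, B.Close E P t i j → R i = R j := fun i j c => funext fun a => by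
    refine sub_eq_zero.1 ((P.hν t).res_unique ?_)
    have : algebraMap K Ω (R i a - R j a) = (B.Y E i a - B.Y E j a) -
      (B.Y E i a - algebraMap K Ω (R i a)) + (B.Y E j a - algebraMap K Ω (R j a)) := by
      rw [map_sub]; ring
    rw [this]
    exact (P.ν t).map_add_lt ((P.ν t).map_sub_lt (c a) (hR i a)) (hR j a)
  have hk : 2 ≤ finrank K (LinearMap.ker (Matrix.of R).mulVecLin) := by
    have r1 := LinearMap.finrank_range_add_finrank_ker (Matrix.of R).mulVecLin
    have r2 := LinearMap.finrank_range_add_finrank_ker (Matrix.of R).transpose.mulVecLin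
    have r3 := Matrix.rank_transpose (Matrix.of R)
    rw [Matrix.rank, Matrix.rank] at r3
    have mem : ∀ i j, B.Close E P t i j → (Pi.single i 1 - Pi.single j 1 : ι → K) ∈
        LinearMap.ker (Matrix.of R).transpose.mulVecLin := fun i j c => by
      rw [LinearMap.mem_ker, map_sub, sub_eq_zero]
      ext a
      simp [key i j c]
    have li : LinearIndependent K ![(⟨_, mem p p' cp⟩ :
        LinearMap.ker (Matrix.of R).transpose.mulVecLin), ⟨_, mem q q' cq⟩] := by
      rw [LinearIndependent.pair_iff]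
      intro s u e
      have e' := congrArg Subtype.val e
      have e1 : s = 0 := by simpa [hp, h1, h2] using congrFun e' p
      exact ⟨e1, by simpa [e1, hq] using congrFun e' q⟩
    have := li.fintype_card_le_finrank
    rw [Fintype.card_fin] at this
    omega
  obtain ⟨H, hH, -⟩ := (P.hν t).inert
  have H1 := det_le (P.ν t) (P.hν t).const ((aeval (xx K Ω) : K[X] →ₐ[K] Ω).mapMatrix T)
    (LinearMap.ker (Matrix.of R).mulVecLin) ⊤ le_top (Nat.card H) 0 (fun l hl i => by
      have e1 : ∑ j, (aeval (xx K Ω) : K[X] →ₐ[K] Ω).mapMatrix T i j * algebraMap K Ω (l j) =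
          aeval (xx K Ω) (∑ j, T i j * C (l j)) := by simp
      rw [e1, ← hH]
      refine P.fin_root (not_not.1 fun h0 => (P.fin_one h0).not_lt ?_)
      have e2 : aeval (xx K Ω) (∑ j, T i j * C (l j)) =
          ∑ k, B.Y E k i * ∑ j, (B.Y E k j - algebraMap K Ω (R k j)) * algebraMap K Ω (l j) := by
        have e3 : ∀ k, ∑ j, algebraMap K Ω (R k j) * algebraMap K Ω (l j) = 0 := fun k => by
          have := congrArg (algebraMap K Ω) (congrFun hl k)
          simpa [Matrix.mulVec, dotProduct] using this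
        simp only [sub_mul, sum_sub_distrib, e3, sub_zero, map_sum, map_mul, aeval_C,
          B.T_eq E hT, sum_mul, mul_sum, mul_assoc]
        rw [sum_comm]
      rw [e2]
      refine (P.ν t).map_sum_lt one_ne_zero fun k _ => ?_
      rw [map_mul]
      refine (mul_le_of_le_one_left' (B.Y_le E P t k i)).trans_lt
        ((P.ν t).map_sum_lt one_ne_zero fun j _ => ?_)
      rw [map_mul]
      exact (mul_le_of_le_one_right' ((P.hν t).const_le _)).trans_lt (hR k j))
    (fun l _ i => (P.ν t).map_sum_le fun j _ => by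
      rw [map_mul]; exact mul_le_one' (P.fin_le t _) ((P.hν t).const_le _))
    (fun i j => P.fin_le t _)
  have H2 := (P.hν t).lt
  rw [← AlgHom.map_det, ht, hH, exp_le_exp] at H1
  rw [hH, ← exp_zero, exp_lt_exp] at H2
  have : (2 : ℤ) ≤ finrank K (LinearMap.ker (Matrix.of R).mulVecLin) := by exact_mod_cast hk
  push_cast at H1
  nlinarith

/-- The local picture at a simple branch point. -/
structure Simple (t : K) (a b : ι) : Prop where
  ne : a ≠ b
  ram : P.ν t (uu Ω t) = exp (-2)
  row : ∀ c, P.ν t (B.Y E a c - B.Y E b c) ≤ exp (-1)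
  swap : ∃ g, E.π g = Equiv.swap a b
  d1 : ∀ c i, P.ν t (E.σ i (B.dual c)) ≤ exp 1
  d2 : ∀ c i, i ≠ a → i ≠ b → P.ν t (E.σ i (B.dual c)) ≤ 1
  d3 : ∀ c, P.ν t (E.σ a (B.dual c) + E.σ b (B.dual c)) ≤ 1

include hT in
theorem simple {t : K} (h0 : T.det ≠ 0) (ht : T.det.rootMultiplicity t = 1) :
    ∃ a b, B.Simple E P t a b := by
  have h1 := P.fin_mult t h0
  rw [ht, pow_one] at h1
  obtain ⟨H, hH, h2⟩ := (P.hν t).inert
  have hd0 : (B.Y E).det ≠ 0 := fun e => by
    have := B.det_sq E hT
    rw [e] at this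
    exact aeval_ne h0 (by simpa using this.symm)
  have hd : P.ν t (B.Y E).det ≠ 0 := by simpa using hd0
  have h3 : 2 * log (P.ν t (B.Y E).det) = -(Nat.card H : ℤ) := by
    rw [← B.det_sq E hT, map_pow, hH, ← exp_log hd, ← exp_nsmul, exp_inj] at h1
    simpa using h1
  have h4 : 0 < Nat.card H := Nat.card_pos
  have : Nontrivial H := Finite.one_lt_card_iff_nontrivial.1 (by omega)
  obtain ⟨⟨g0, hg0⟩, hne⟩ := exists_ne (1 : H)
  obtain ⟨b, hb⟩ : ∃ b, E.π g0 b ≠ b := by
    by_contra hn
    push Not at hn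
    exact hne (Subtype.ext (E.pinj ((Equiv.ext hn).trans (map_one _).symm)))
  set a := E.π g0 b
  have cab : B.Close E P t a b := B.close_of_inert E P (h2 g0 hg0) b
  have h5 : ∀ g ∈ H, E.π g = 1 ∨ E.π g = Equiv.swap a b := fun g hg => by
    have k : ∀ i, E.π g i ≠ i → (i = a ∨ i = b) ∧ (E.π g i = a ∨ E.π g i = b) := fun i hi => by
      have c := B.close_of_inert E P (h2 g hg) i
      constructor
      · by_contra hn
        push Not at hn
        exact B.corank E P hT h1 hi.symm hb hn.1 hn.2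
          (fun c' => by rw [Valuation.map_sub_swap]; exact c c') cab
      · by_contra hn
        push Not at hn
        exact B.corank E P hT h1 hi hb hn.1 hn.2 c cab
    by_cases ha : E.π g a = a
    · left
      ext i
      by_contra hi
      obtain ⟨rfl | rfl, k2 | k2⟩ := k i hi
      · exact hi ha
      · exact hi ha
      · exact hb ((E.π g).injective (ha.trans k2.symm))
      · exact hi k2
    · right
      have k1 : E.π g a = b := (k a ha).2.resolve_left ha
      have k2 : E.π g b ≠ b := fun e => hb ((E.π g).injective (k1.trans e.symm))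
      ext i
      by_cases e1 : i = a
      · simp [e1, k1]
      by_cases e2 : i = b
      · simp [e2, (k b k2).2.resolve_right k2]
      rw [Equiv.swap_apply_of_ne_of_ne e1 e2]
      by_contra hi
      exact (k i hi).1.elim e1 e2
  have h6 : Nat.card H ≤ 2 := by
    have := Nat.card_le_card_of_injective (fun g : H => (⟨E.π g, by simpa using h5 g g.2⟩ :
      ({1, Equiv.swap a b} : Finset (Equiv.Perm ι))))
      fun g g' e => Subtype.ext (E.pinj (congrArg Subtype.val e))
    rw [Nat.card_eq_fintype_card (α := ({1, Equiv.swap a b} : Finset _)), Fintype.card_coe] at this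
    exact this.trans card_le_two
  have h7 : P.ν t (B.Y E).det = exp (-1) := by rw [← exp_log hd, exp_inj]; omega
  have h8 : ∀ c i, P.ν t (if i = a then (B.Y E).det * E.σ a (B.dual c) else
      if i = b then E.σ a (B.dual c) + E.σ b (B.dual c) else E.σ i (B.dual c)) ≤ 1 := fun c i => by
    have e1 : ((B.Y E).updateRow a ((B.Y E).det⁻¹ • (B.Y E a + (-1 : Ω) • B.Y E b))).det = 1 := by
      rw [Matrix.det_updateRow_smul, Matrix.det_updateRow_add_smul_self _ hb, inv_mul_cancel₀ hd0]
    have := solve_le (P.ν t) ((B.Y E).updateRow a ((B.Y E).det⁻¹ • (B.Y E a + (-1 : Ω) • B.Y E b)))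
      (fun k l => by
        rw [Matrix.updateRow_apply]
        split_ifs
        · have := le_neg_one (cab l)
          simp only [Pi.smul_apply, Pi.add_apply, smul_eq_mul, neg_one_mul, ← sub_eq_add_neg]
          rw [map_mul, map_inv₀, h7, inv_mul_le_iff₀ exp_pos, mul_one]
          exact this
        · exact B.Y_le E P t k l)
      (fun i => if i = a then (B.Y E).det * E.σ a (B.dual c) else
        if i = b then E.σ a (B.dual c) + E.σ b (B.dual c) else E.σ i (B.dual c)) (fun j => by
        have e2 : P.ν t (∑ i, E.σ i (B.dual c) * B.Y E i j) ≤ 1 := by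
          rw [B.dual_Y]; split_ifs <;> simp
        refine le_of_eq_of_le (congrArg _ ?_) e2
        rw [← sub_eq_zero, ← sum_sub_distrib, ← sum_subset (subset_univ {a, b}), sum_pair hb]
        · simp [hb.symm]; field_simp; ring
        · intro k _ hk
          simp only [mem_insert, mem_singleton, not_or] at hk
          simp [hk.1, hk.2]) i
    rwa [e1, one_mul] at this
  refine ⟨a, b, hb, by rw [hH]; congr 1; omega, fun c => le_neg_one (cab c),
    ⟨g0, (h5 g0 hg0).resolve_left fun e => hb (by simp [a, e])⟩, fun c i => ?_,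
    fun c i k1 k2 => by simpa [k1, k2] using h8 c i, fun c => by simpa [hb.symm] using h8 c b⟩
  have := B.dual_le E P t i c
  rwa [map_mul, h7, ← le_inv_mul_iff₀ exp_pos, mul_one, ← exp_neg, neg_neg] at this

end Ap
end Pool.Agent.Lib.MP_d9f0ae_ag.LG
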